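import Pool.Agent.Lib.MP_c02e9e_co.SA.ModFI

/-!
# Transfer of cuts to the relation `E0` on `Z`
-/

namespace MP_c02e9e_co

namespace SA

open Finset

open scoped Classical

variable {Z U : Type} [Fintype Z] [Fintype U] {E F : Z ⊕ U → Z ⊕ U → Prop} {i0 : Z} {j0 : U}

theorem Mod.cutZ_disj (h : Mod E F i0 j0) {a b : Z} {S T : Finset (Z ⊕ U)}
    (hc : IsCut (Fintype.card (Z ⊕ U)) E (Sum.inl a) (Sum.inl b) S T) (w : U)
    (hS : Sum.inr w ∈ S) : Sum.inr w ∉ T := by
  intro hT
  have := (hc.only _ hS _ hT (h.diag _)).1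
  exact absurd this (by simp)

theorem Mod.cutZ_cover (h : Mod E F i0 j0) {a b : Z} {S T : Finset (Z ⊕ U)}
    (hc : IsCut (Fintype.card (Z ⊕ U)) E (Sum.inl a) (Sum.inl b) S T) (w : U) :
    Sum.inr w ∈ T ↔ Sum.inr w ∉ S := by
  constructor
  · intro hT hS
    exact h.cutZ_disj hc w hS hT
  · intro hS
    by_contra hT
    have hd : Disjoint S.toRight T.toRight := by
      rw [Finset.disjoint_left]
      intro x hx hx'
      rw [Finset.mem_toRight] at hx hx'
      exact h.cutZ_disj hc x hx hx'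
    have h1 : (S.toRight ∪ T.toRight).card + 1 ≤ Fintype.card U := by
      have h2 : S.toRight ∪ T.toRight ⊆ univ.erase w := by
        intro x hx
        rw [Finset.mem_union, Finset.mem_toRight, Finset.mem_toRight] at hx
        rw [Finset.mem_erase]
        refine ⟨?_, Finset.mem_univ _⟩
        rintro rfl
        rcases hx with hx | hx
        · exact hS hx
        · exact hT hx
      have h3 := Finset.card_le_card h2
      rw [Finset.card_erase_of_mem (Finset.mem_univ _), Finset.card_univ] at h3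
      have h4 : 0 < Fintype.card U := Fintype.card_pos_iff.2 ⟨w⟩
      omega
    rw [Finset.card_union_of_disjoint hd] at h1
    have h5 := card_toLeft_add S
    have h6 := card_toLeft_add T
    have h7 := hc.card
    rw [Fintype.card_sum] at h7
    have hcut : IsCut (Fintype.card Z) (fun a b : Z => E (Sum.inl a) (Sum.inl b)) a b
        S.toLeft T.toLeft := by
      refine ⟨Finset.mem_toLeft.2 hc.hu, Finset.mem_toLeft.2 hc.hv, by omega, ?_⟩
      intro i hi j hj hij
      rw [Finset.mem_toLeft] at hi hj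
      obtain ⟨e1, e2⟩ := hc.only _ hi _ hj hij
      exact ⟨Sum.inl_injective e1, Sum.inl_injective e2⟩
    have h8 := hcut.card_eq h.two h.fiZ rfl
    omega

theorem Mod.cutZ_exit (h : Mod E F i0 j0) {a b : Z} {S T : Finset (Z ⊕ U)}
    (hc : IsCut (Fintype.card (Z ⊕ U)) E (Sum.inl a) (Sum.inl b) S T)
    (hi : Sum.inl i0 ∈ S) (w : U) : Sum.inr w ∈ S := by
  have step : ∀ (x : Z ⊕ U) (y : U), x ∈ S → E x (Sum.inr y) → Sum.inr y ∈ S := by
    intro x y hx hxy
    by_contra hy
    have hyT := (h.cutZ_cover hc y).2 hy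
    have := (hc.only _ hx _ hyT hxy).2
    exact absurd this (by simp)
  exact h.reach (P := fun x => Sum.inr x ∈ S) (step _ _ hi (h.good.sub _ _ h.mark))
    (fun x y hx hxy => step _ _ hx hxy) w

theorem Mod.cut_ZZ (h : Mod E F i0 j0) {a b : Z} {S T : Finset (Z ⊕ U)}
    (hc : IsCut (Fintype.card (Z ⊕ U)) E (Sum.inl a) (Sum.inl b) S T) :
    IsCut (Fintype.card Z) (E0 E i0) a b S.toLeft T.toLeft := by
  have hd : Disjoint S.toRight T.toRight := by
    rw [Finset.disjoint_left]
    intro x hx hx'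
    rw [Finset.mem_toRight] at hx hx'
    exact h.cutZ_disj hc x hx hx'
  have h1 : (S.toRight ∪ T.toRight).card ≤ Fintype.card U := Finset.card_le_univ _
  rw [Finset.card_union_of_disjoint hd] at h1
  have h5 := card_toLeft_add S
  have h6 := card_toLeft_add T
  have h7 := hc.card
  rw [Fintype.card_sum] at h7
  refine ⟨Finset.mem_toLeft.2 hc.hu, Finset.mem_toLeft.2 hc.hv, by omega, ?_⟩
  intro i hi j hj hij
  rw [Finset.mem_toLeft] at hi hj
  rcases hij with hij | ⟨rfl, w, hw⟩
  · obtain ⟨e1, e2⟩ := hc.only _ hi _ hj hij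
    exact ⟨Sum.inl_injective e1, Sum.inl_injective e2⟩
  · exfalso
    have hwS := h.cutZ_exit hc hi w
    have := (hc.only _ hwS _ hj hw).1
    exact absurd this (by simp)

theorem Mod.entr_not_mark (h : Mod E F i0 j0) {v : Z} (hv : Entr E v) :
    ¬ F (Sum.inl i0) (Sum.inl v) := by
  intro hF
  obtain ⟨w, hw⟩ := hv
  obtain ⟨S, T, hc⟩ := h.good.cut _ _ hF
  have hwS := h.cutZ_exit hc hc.hu w
  have := (hc.only _ hwS _ hc.hv hw).1
  exact absurd this (by simp)

theorem Mod.good0 (h : Mod E F i0 j0) : Good (E0 E i0) (F0 F) := by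
  refine ⟨h.fi0, fun i j hij => Or.inl (h.good.sub _ _ hij), fun i j hij => ?_⟩
  obtain ⟨S, T, hc⟩ := h.good.cut _ _ hij
  exact ⟨S.toLeft, T.toLeft, h.cut_ZZ hc⟩

end SA

end MP_c02e9e_co
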