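import Pool.Agent.Lib.MP_c02e9e_co.SA.CutU
import Pool.Agent.Lib.MP_c02e9e_co.SA.CutZ

/-!
# Transfer of addable pairs
-/

namespace MP_c02e9e_co

namespace SA

open Finset

open scoped Classical

variable {Z U : Type} [Fintype Z] [Fintype U] {E F : Z ⊕ U → Z ⊕ U → Prop} {i0 : Z} {j0 : U}

theorem Mod.add1 (h : Mod E F i0 j0) {x y : Z ⊕ U} {o o' : Option U}
    (ho : ∀ S : Finset (Z ⊕ U), o ∈ con S → x ∈ S) (ho' : ∀ T : Finset (Z ⊕ U), o' ∈ con T → y ∈ T)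
    (ha : Add E F x y) : Add (E1 E) (F1 F) o o' := by
  intro p p' hpp
  obtain ⟨x', y', hF, hcut⟩ := h.lift1 hpp
  obtain ⟨S, T, hc, hn⟩ := ha x' y' hF
  exact ⟨con S, con T, hcut S T hc, fun hoo => hn ⟨ho S hoo.1, ho' T hoo.2⟩⟩

theorem Mod.add_none (h : Mod E F i0 j0) : Add (E1 E) (F1 F) none none := by
  intro p p' hpp
  obtain ⟨S, T, hc⟩ := h.good1.cut p p' hpp
  refine ⟨S, T, hc, ?_⟩
  rintro ⟨h1, h2⟩
  obtain ⟨rfl, rfl⟩ := hc.only none h1 none h2 trivial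
  exact hpp

theorem Mod.add_ZZ (h : Mod E F i0 j0) {a b : Z} (ha : Add E F (Sum.inl a) (Sum.inl b)) :
    Add (E0 E i0) (F0 F) a b := by
  intro a' b' hF
  obtain ⟨S, T, hc, hn⟩ := ha _ _ hF
  refine ⟨S.toLeft, T.toLeft, h.cut_ZZ hc, ?_⟩
  rw [Finset.mem_toLeft, Finset.mem_toLeft]
  exact hn

theorem Mod.add_UZ (h : Mod E F i0 j0) {w : U} {v : Z} (ha : Add E F (Sum.inr w) (Sum.inl v)) :
    Add (E0 E i0) (F0 F) i0 v := by
  intro a' b' hF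
  obtain ⟨S, T, hc, hn⟩ := ha _ _ hF
  refine ⟨S.toLeft, T.toLeft, h.cut_ZZ hc, ?_⟩
  rw [Finset.mem_toLeft, Finset.mem_toLeft]
  rintro ⟨h1, h2⟩
  exact hn ⟨h.cutZ_exit hc h1 w, h2⟩

theorem Mod.add_ZU (h : Mod E F i0 j0) (w : U) : ∃ v', Entr E v' ∧
    ∀ v, Add E F (Sum.inl v) (Sum.inr w) → Add (E0 E i0) (F0 F) v v' := by
  obtain ⟨v', hv', hback⟩ := h.back w
  refine ⟨v', hv', ?_⟩
  intro v ha a' b' hF
  obtain ⟨S, T, hc, hn⟩ := ha _ _ hF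
  refine ⟨S.toLeft, T.toLeft, h.cut_ZZ hc, ?_⟩
  rw [Finset.mem_toLeft, Finset.mem_toLeft]
  rintro ⟨h1, h2⟩
  apply hn
  refine ⟨h1, ?_⟩
  have step : ∀ (x : U) (y : Z ⊕ U), y ∈ T → E (Sum.inr x) y → (Sum.inr x : Z ⊕ U) ∈ T := by
    intro x y hy hxy
    rw [h.cutZ_cover hc]
    intro hx
    have := (hc.only _ hx _ hy hxy).1
    exact absurd this (by simp)
  exact hback (fun x => (Sum.inr x : Z ⊕ U) ∈ T) (fun x hx => step x _ h2 hx)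
    (fun x y hy hxy => step x _ hy hxy)

theorem Mod.add_entr (h : Mod E F i0 j0) {v : Z} (hv : Entr E v) :
    Add (E0 E i0) (F0 F) i0 v := by
  intro a' b' hF
  obtain ⟨S, T, hc⟩ := h.good0.cut a' b' hF
  refine ⟨S, T, hc, ?_⟩
  rintro ⟨h1, h2⟩
  obtain ⟨rfl, rfl⟩ := hc.only _ h1 _ h2 (Or.inr ⟨rfl, hv⟩)
  exact h.entr_not_mark hv hF

end SA

end MP_c02e9e_co
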