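import Pool.Agent.Lib.MP_c02e9e_co.SA.Base

/-!
# Factorial estimates
-/

namespace MP_c02e9e_co

namespace SA

open Real

/-- PROOF. Induction on `n`: it suffices that `(n + 1) log ((n + 1) / n) ≥ 1`, from
`Real.one_sub_inv_le_log_of_pos` or `log x ≥ 1 - 1/x` at `x = (n+1)/n`. -/
theorem log_factorial_le (n : ℕ) (hn : 1 ≤ n) :
    Real.log (n.factorial) ≤ n * Real.log n - n + Real.log n + 1 := by
  induction n, hn using Nat.le_induction with
  | base => simp
  | succ n hn ih =>
    have hn0 : (0 : ℝ) < n := by exact_mod_cast hn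
    have hn1 : (0 : ℝ) < (n : ℝ) + 1 := by linarith
    have hf : (0 : ℝ) < (n.factorial : ℝ) := by exact_mod_cast Nat.factorial_pos n
    have h1 : Real.log ((n + 1).factorial) = Real.log ((n : ℝ) + 1) + Real.log (n.factorial) := by
      rw [Nat.factorial_succ, Nat.cast_mul, Real.log_mul (by positivity) hf.ne']
      push_cast
      ring
    have h2 := Real.one_sub_inv_le_log_of_pos (show (0 : ℝ) < ((n : ℝ) + 1) / n by positivity)
    rw [Real.log_div hn1.ne' hn0.ne', inv_div] at h2
    have h3 : 1 - (n : ℝ) / (n + 1) = 1 / ((n : ℝ) + 1) := by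
      field_simp
      ring
    rw [h3, div_le_iff₀ hn1] at h2
    rw [h1]
    push_cast
    nlinarith

/-- `n! ≤ n^n`. -/
theorem log_factorial_le' (n : ℕ) : Real.log (n.factorial) ≤ n * Real.log n := by
  have hf : (0 : ℝ) < (n.factorial : ℝ) := by exact_mod_cast Nat.factorial_pos n
  have h1 : (n.factorial : ℝ) ≤ (n : ℝ) ^ n := by exact_mod_cast Nat.factorial_le_pow n
  have h2 := Real.log_le_log hf h1
  rwa [Real.log_pow] at h2

/-- PROOF. `choose_bound` of `H90Analysis` with `N = n`, `m = k`, `c = n / k`. -/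
theorem log_choose_le {n k : ℕ} (hk : 1 ≤ k) (hkn : k ≤ n) :
    Real.log (n.choose k) ≤ k * Real.log (n / k) + k := by
  have hk0 : (0 : ℝ) < k := by exact_mod_cast hk
  have hn0 : (0 : ℝ) < n := by exact_mod_cast (by omega : 0 < n)
  have hc : (0 : ℝ) < (n.choose k : ℝ) := by exact_mod_cast Nat.choose_pos hkn
  have h1 := choose_bound n k k ((n : ℝ) / k) (le_of_eq (by field_simp)) (by positivity)
  have h2 := Real.log_le_log hc h1
  rw [Real.log_mul (by positivity) (Real.exp_pos _).ne', Real.log_pow, Real.log_exp] at h2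
  exact h2

end SA

end MP_c02e9e_co
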