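import Pool.Agent.Lib.MP_c02e9e_co.SA.LCount
import Pool.Agent.Lib.MP_c02e9e_co.SA.Fact

/-!
# Lower bound, analytic form
-/

namespace MP_c02e9e_co

namespace SA

open Filter

/-- PROOF. Take logarithms in `lower_comb` with `K = k + 1`, `q = n - 2 K - 1`. With
`le_factorial` (`H90LowerAn`): `log n! ≥ n L - n`,
`log (2 K + 1)! ≥ (2 K + 1) log (2 K + 1) - (2 K + 1) ≥ 2 K log K - 2 K - 1`
(`log (2K+1) ≥ log K ≥ 0`), and `log_choose_le`. Then
`log N ≥ n L - n + 2 (n - 2 K - 1) log K + 2 K log K - 2 K - 1 - 2 K (L - log K) - 2 K - 4 L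
 = n L - n + 2 n log K - 2 K L - 2 log K - 4 K - 1 - 4 L`, and `log K ≤ L`. -/
theorem lower_log {n K : ℕ} (hK : 1 ≤ K) (hn : 2 * K + 1 ≤ n) :
    n * Real.log n - n + 2 * n * Real.log K - 2 * K * Real.log n - 4 * K - 6 * Real.log n - 1 ≤
      Real.log (numND n) := by
  have hK0 : (0 : ℝ) < K := by exact_mod_cast hK
  have hn0 : (0 : ℝ) < n := by exact_mod_cast (by omega : 0 < n)
  have hN0 : (0 : ℝ) < (numND n : ℝ) := by exact_mod_cast numND_pos (by omega : 3 ≤ n)
  have hKn : K ≤ n := by omega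
  have hKnR : (K : ℝ) ≤ n := by exact_mod_cast hKn
  have hcomb := lower_comb (k := K - 1) (q := n - 2 * K - 1) (n := n) (by omega)
  have e1 : K - 1 + 1 = K := by omega
  have e2 : 2 * (K - 1) + 3 = 2 * K + 1 := by omega
  rw [e1, e2] at hcomb
  have hcombR : (n.factorial : ℝ) * (K : ℝ) ^ (2 * (n - 2 * K - 1)) * ((2 * K + 1).factorial : ℝ) ≤
      (numND n : ℝ) * (n.choose K : ℝ) ^ 2 * (n : ℝ) ^ 4 := by exact_mod_cast hcomb
  have hf1 : (0 : ℝ) < (n.factorial : ℝ) := by exact_mod_cast Nat.factorial_pos n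
  have hf2 : (0 : ℝ) < ((2 * K + 1).factorial : ℝ) := by exact_mod_cast Nat.factorial_pos _
  have hc0 : (0 : ℝ) < (n.choose K : ℝ) := by exact_mod_cast Nat.choose_pos hKn
  have hlog := Real.log_le_log (by positivity) hcombR
  rw [Real.log_mul (by positivity) hf2.ne', Real.log_mul hf1.ne' (by positivity),
    Real.log_mul (by positivity) (by positivity), Real.log_mul hN0.ne' (by positivity),
    Real.log_pow, Real.log_pow, Real.log_pow] at hlog
  have hq : ((2 * (n - 2 * K - 1) : ℕ) : ℝ) = 2 * ((n : ℝ) - 2 * K - 1) := by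
    have h : n - 2 * K - 1 = n - (2 * K + 1) := by omega
    rw [h]
    push_cast [Nat.cast_sub hn]
    ring
  rw [hq] at hlog
  have h1 := le_factorial n (by omega)
  have h2 := le_factorial (2 * K + 1) (by omega)
  have h3 := log_choose_le hK hKn
  rw [Real.log_div hn0.ne' hK0.ne'] at h3
  have hlK0 : 0 ≤ Real.log (K : ℝ) := Real.log_nonneg (by exact_mod_cast hK)
  have hlKL : Real.log (K : ℝ) ≤ Real.log n := Real.log_le_log hK0 hKnR
  have hl2K : Real.log (K : ℝ) ≤ Real.log ((2 * K + 1 : ℕ) : ℝ) := by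
    apply Real.log_le_log hK0
    push_cast
    linarith
  have h4 : 2 * (K : ℝ) * Real.log K - 2 * K - 1 ≤ Real.log ((2 * K + 1).factorial : ℝ) := by
    refine le_trans ?_ h2
    have h5 : 2 * (K : ℝ) * Real.log K ≤ (2 * K + 1) * Real.log ((2 * K + 1 : ℕ) : ℝ) := by
      apply mul_le_mul (by linarith) hl2K hlK0 (by positivity)
    push_cast at h5 ⊢
    linarith
  push_cast at hlog
  nlinarith

/-- Eventually `log n` is large. -/
private theorem ev_log (c : ℝ) : ∀ᶠ n : ℕ in atTop, c ≤ Real.log (n : ℝ) :=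
  (Real.tendsto_log_atTop.comp tendsto_natCast_atTop_atTop).eventually_ge_atTop c

/-- Eventually `log (log n)` is large. -/
private theorem ev_loglog (c : ℝ) : ∀ᶠ n : ℕ in atTop, c ≤ Real.log (Real.log (n : ℝ)) :=
  (Real.tendsto_log_atTop.comp
    (Real.tendsto_log_atTop.comp tendsto_natCast_atTop_atTop)).eventually_ge_atTop c

/-- Powers of the logarithm are small. -/
private theorem ev_pow (m : ℕ) {c : ℝ} (hc : 0 < c) :
    ∀ᶠ n : ℕ in atTop, c * Real.log (n : ℝ) ^ m ≤ (n : ℝ) := by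
  have h3 := (Real.isLittleO_pow_log_id_atTop (n := m)).def (show (0 : ℝ) < 1 / c by positivity)
  have h4 := tendsto_natCast_atTop_atTop (R := ℝ) |>.eventually h3
  filter_upwards [h4, ev_log 0] with n hn hn1
  rw [Real.norm_eq_abs, Real.norm_eq_abs, abs_of_nonneg (by positivity)] at hn
  simp only [id] at hn
  rw [abs_of_nonneg (by positivity), div_mul_eq_mul_div, one_mul, le_div_iff₀ hc] at hn
  linarith

private theorem log_one_sub_ge {x : ℝ} (h0 : 0 ≤ x) (h1 : x ≤ 1 / 2) : -2 * x ≤ Real.log (1 - x) := by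
  have hp : 0 < 1 - x := by linarith
  have h := Real.one_sub_inv_le_log_of_pos hp
  refine le_trans ?_ h
  have e : 1 - (1 - x)⁻¹ = -x / (1 - x) := by
    field_simp
    ring
  rw [e, le_div_iff₀ hp]
  nlinarith

/-- PROOF. `lower_log` with `K = ⌊n / L⌋`, `L = log n` large. `- 2 K L ≥ - 2 n`, `4 K ≤ 4 n / L`,
`K ≥ n / L - 1 = (n / L) (1 - L / n)`, so `log K ≥ L - log L - 2 L / n` (`log (1 - x) ≥ - 2 x` for
`0 ≤ x ≤ 1/2`), `2 n log K ≥ 2 n L - 2 n log L - 4 L`. The total error is at most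
`4 n / L + 10 L + 1 ≤ 5 n log L / L` eventually. -/
theorem lower_final : ∃ C : ℝ, ∀ᶠ n : ℕ in atTop,
    3 * n * Real.log n - 2 * n * Real.log (Real.log n) - 3 * n -
      C * (n * Real.log (Real.log n) / Real.log n) ≤ Real.log (numND n) := by
  refine ⟨5, ?_⟩
  filter_upwards [ev_log 4, ev_loglog 1, ev_pow 2 (show (0 : ℝ) < 11 by norm_num)]
    with n hL hl hn
  set L := Real.log (n : ℝ) with hLdef
  set l := Real.log L with hldef
  have hL0 : 0 < L := by linarith
  have hn0 : (0 : ℝ) < n := by nlinarith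
  have hnL : L ≤ (n : ℝ) := by nlinarith
  -- the parameter
  set x : ℝ := n / L with hx
  have hxL : x * L = n := by rw [hx]; field_simp
  have hx0 : 0 < x := by positivity
  have hx44 : 44 ≤ x := by
    rw [hx, le_div_iff₀ hL0]
    nlinarith
  set K := ⌊x⌋₊ with hK
  have hKx : (K : ℝ) ≤ x := Nat.floor_le hx0.le
  have hxK : x < K + 1 := Nat.lt_floor_add_one x
  have hK1 : 1 ≤ K := by
    rw [hK, Nat.one_le_floor_iff]
    linarith
  have hK2 : 2 * K + 1 ≤ n := by
    have h5 : (2 : ℝ) * K + 1 ≤ n := by nlinarith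
    exact_mod_cast h5
  have h := lower_log hK1 hK2
  rw [← hLdef] at h
  have h1 : (K : ℝ) * L ≤ n := by
    rw [← hxL]
    exact mul_le_mul_of_nonneg_right hKx hL0.le
  have hy0 : 0 ≤ L / n := by positivity
  have hy1 : L / n ≤ 1 / 2 := by
    rw [div_le_iff₀ hn0]
    nlinarith
  have hlogK : L - l - 2 * (L / n) ≤ Real.log K := by
    have h6 : x * (1 - L / n) ≤ K := by
      have e : x * (1 - L / n) = x - 1 := by
        rw [hx]
        field_simp
      rw [e]
      linarith
    have h7 := Real.log_le_log (mul_pos hx0 (by linarith)) h6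
    rw [Real.log_mul hx0.ne' (by linarith), hx, Real.log_div hn0.ne' hL0.ne', ← hLdef,
      ← hldef] at h7
    have h8 := log_one_sub_ge hy0 hy1
    linarith
  have h9 : 2 * (n : ℝ) * L - 2 * n * l - 4 * L ≤ 2 * n * Real.log K := by
    have h10 := mul_le_mul_of_nonneg_left hlogK (show (0 : ℝ) ≤ 2 * n by positivity)
    have e : 2 * (n : ℝ) * (L - l - 2 * (L / n)) = 2 * (n : ℝ) * L - 2 * n * l - 4 * L := by
      field_simp
      ring
    rw [e] at h10
    exact h10
  have h11 : x ≤ n * l / L := by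
    rw [hx]
    apply div_le_div_of_nonneg_right _ hL0.le
    nlinarith
  have h12 : 10 * L + 1 ≤ x := by
    rw [hx, le_div_iff₀ hL0]
    nlinarith
  nlinarith

end SA

end MP_c02e9e_co
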