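import Pool.Agent.Lib.MP_c02e9e_co.SA.RecB
import Pool.Agent.Lib.MP_c02e9e_co.SA.Fact

/-!
# Upper bound for one class, analytic form
-/

namespace MP_c02e9e_co

namespace SA

open Real

/-- PROOF. `cls_le_choose`, and `choose_bound` (`H90Analysis`) with `N = n * n`, `m = n`, `c = n`:
`(n * n).choose k ≤ n ^ k * exp n` with `k = 3 n - d`; `n ^ k = exp (k log n)`. -/
theorem cls_trivial {n d : ℕ} (hn : 1 ≤ n) (hd : d ≤ 3 * n) :
    ((cls n d).card : ℝ) ≤ Real.exp ((3 * n - d) * Real.log n + n) := by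
  have hn0 : (0 : ℝ) < n := by exact_mod_cast hn
  have h1 : ((cls n d).card : ℝ) ≤ ((n * n).choose (3 * n - d) : ℝ) := by
    exact_mod_cast cls_le_choose n d
  have h2 := choose_bound (n * n) n (3 * n - d) n (by push_cast; exact le_refl _) hn0.le
  refine (h1.trans h2).trans (le_of_eq ?_)
  rw [Real.exp_add, ← Real.rpow_natCast, Real.rpow_def_of_pos hn0]
  congr 2
  push_cast [Nat.cast_sub hd]
  ring

/-- PROOF. If `cls n d` is empty the inequality is trivial. Otherwise take logarithms in `iter`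
with `j = n - 16 d` (all quantities are positive; `cls (16 d) d` is then nonempty), and use
`cls_trivial` for `cls (16 d) d` (`log ≤ 47 d log (16 d) + 16 d`). With `L = log n`:
`log |cls n d| ≤ 2 log n! + 2 (n - 16 d) log (d / 2) + log (8 d)! - log (n - 8 d)! - 2 log (16 d)!
  + 47 d log (16 d) + 16 d`.
`log_factorial_le`: `2 log n! ≤ 2 n L - 2 n + 2 L + 2`; `log_factorial_le'`: `log (8 d)! ≤ 8 d log (8 d)`;
`le_factorial`: `log (16 d)! ≥ 16 d log (16 d) - 16 d` and
`log (n - 8 d)! ≥ (n - 8 d) log (n - 8 d) - (n - 8 d) ≥ (n - 8 d) L - n`, since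
`(n - 8 d) log (n / (n - 8 d)) ≤ 8 d` (`log x ≤ x - 1`). The sum is
`n L - n + 2 L + 2 + 2 n log (d / 2) + 8 d L - 9 d log d + 116 d log 2 + 48 d`, and
`116 log 2 ≤ 81`, `log (n / d) = L - log d`. -/
theorem cls_small {n d : ℕ} (hd : 1 ≤ d) (hn : 16 * d ≤ n) :
    ((cls n d).card : ℝ) ≤ Real.exp (n * Real.log n - n + 2 * n * Real.log (d / 2) -
      d * Real.log n + 9 * d * Real.log (n / d) + 129 * d + 2 * Real.log n + 2) := by
  have hd0 : (0 : ℝ) < d := by exact_mod_cast hd
  have hn0 : (0 : ℝ) < n := by exact_mod_cast (by omega : 0 < n)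
  have h16R : 16 * (d : ℝ) ≤ n := by exact_mod_cast hn
  rcases Nat.eq_zero_or_pos (cls n d).card with h0 | hpos
  · rw [h0]
    simpa using (Real.exp_pos _).le
  obtain ⟨j, hj⟩ := Nat.exists_eq_add_of_le hn
  have hit := iter hd j
  rw [← hj] at hit
  have hposR : (0 : ℝ) < ((cls n d).card : ℝ) := by exact_mod_cast hpos
  have hc0 : 0 < (cls (16 * d) d).card := by
    rcases Nat.eq_zero_or_pos (cls (16 * d) d).card with h | h
    · rw [h, Nat.mul_zero] at hit
      have : 0 < (cls n d).card * 4 ^ j * (8 * d + j).factorial * ((16 * d).factorial) ^ 2 := by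
        positivity
      omega
    · exact h
  have hc0R : (0 : ℝ) < ((cls (16 * d) d).card : ℝ) := by exact_mod_cast hc0
  have hitR : ((cls n d).card : ℝ) * 4 ^ j * ((8 * d + j).factorial : ℝ) *
      ((16 * d).factorial : ℝ) ^ 2 ≤
      (n.factorial : ℝ) ^ 2 * (d : ℝ) ^ (2 * j) * ((8 * d).factorial : ℝ) *
        ((cls (16 * d) d).card : ℝ) := by exact_mod_cast hit
  have hf1 : (0 : ℝ) < ((8 * d + j).factorial : ℝ) := by exact_mod_cast Nat.factorial_pos _
  have hf2 : (0 : ℝ) < ((16 * d).factorial : ℝ) := by exact_mod_cast Nat.factorial_pos _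
  have hf3 : (0 : ℝ) < (n.factorial : ℝ) := by exact_mod_cast Nat.factorial_pos _
  have hf4 : (0 : ℝ) < ((8 * d).factorial : ℝ) := by exact_mod_cast Nat.factorial_pos _
  have hlog := Real.log_le_log (by positivity) hitR
  rw [Real.log_mul (by positivity) (by positivity), Real.log_mul (by positivity) hf1.ne',
    Real.log_mul hposR.ne' (by positivity), Real.log_mul (by positivity) hc0R.ne',
    Real.log_mul (by positivity) hf4.ne', Real.log_mul (by positivity) (by positivity),
    Real.log_pow, Real.log_pow, Real.log_pow, Real.log_pow] at hlog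
  -- the small class
  have htr := Real.log_le_log hc0R (cls_trivial (n := 16 * d) (d := d) (by omega) (by omega))
  rw [Real.log_exp] at htr
  -- factorials
  have g1 := log_factorial_le n (by omega)
  have g2 := log_factorial_le' (8 * d)
  have g3 := le_factorial (16 * d) (by omega)
  have g4 := le_factorial (8 * d + j) (by omega)
  -- logarithms of multiples of d
  have l4 : Real.log 4 = 2 * Real.log 2 := by
    rw [show (4 : ℝ) = 2 ^ 2 by norm_num, Real.log_pow]
    push_cast
    ring
  have l8 : Real.log ((8 * d : ℕ) : ℝ) = 3 * Real.log 2 + Real.log d := by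
    push_cast
    rw [Real.log_mul (by norm_num) hd0.ne', show (8 : ℝ) = 2 ^ 3 by norm_num, Real.log_pow]
    push_cast
    ring
  have l16 : Real.log ((16 * d : ℕ) : ℝ) = 4 * Real.log 2 + Real.log d := by
    push_cast
    rw [Real.log_mul (by norm_num) hd0.ne', show (16 : ℝ) = 2 ^ 4 by norm_num, Real.log_pow]
    push_cast
    ring
  have hjR : (j : ℝ) = n - 16 * d := by
    have : (n : ℝ) = 16 * d + j := by exact_mod_cast hj
    linarith
  have hmR : ((8 * d + j : ℕ) : ℝ) = n - 8 * d := by
    push_cast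
    rw [hjR]
    ring
  have hm0 : (0 : ℝ) < n - 8 * d := by linarith
  have g5 : ((n : ℝ) - 8 * d) * Real.log n - n ≤ Real.log ((8 * d + j).factorial : ℝ) := by
    refine le_trans ?_ g4
    rw [hmR]
    have h := Real.log_le_sub_one_of_pos (show (0 : ℝ) < n / (n - 8 * d) by positivity)
    rw [Real.log_div hn0.ne' hm0.ne'] at h
    have h' := mul_le_mul_of_nonneg_left h hm0.le
    have e : ((n : ℝ) - 8 * d) * (n / (n - 8 * d) - 1) = 8 * d := by
      field_simp
      ring
    rw [e] at h'
    nlinarith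
  rw [l8] at g2
  rw [l16] at g3 htr
  rw [l4] at hlog
  have l2 := Real.log_two_lt_d9
  rw [← Real.log_le_iff_le_exp hposR, Real.log_div hd0.ne' (by norm_num),
    Real.log_div hn0.ne' hd0.ne']
  push_cast at hlog g2 g3 htr
  rw [hjR] at hlog
  have h2d : (d : ℝ) * Real.log 2 ≤ d * 0.6931471808 := mul_le_mul_of_nonneg_left l2.le hd0.le
  nlinarith

end SA

end MP_c02e9e_co
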