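import Pool.Agent.Lib.MP_c02e9e_co.SA.AnU1

/-!
# Upper bound, analytic form
-/

namespace MP_c02e9e_co

namespace SA

open Filter

/-- PROOF. Put `L = log n`, `B = L - 18 log L - 129`.
`log (n / d) = log (n / (d L^2)) + 2 log L ≤ n / (d L^2) + 2 log L` (`log x ≤ x - 1 ≤ x`), so
`9 d log (n / d) ≤ 9 n / L^2 + 18 d log L`. And
`log (d / 2) = log (n / B) + log (d B / (2 n)) ≤ log (n / B) + d B / (2 n) - 1`, so
`2 n log (d / 2) - d B ≤ 2 n (L - log B) - 2 n`. -/
theorem opt_bound {n d : ℝ} (hn : 1 < n) (hd : 0 < d)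
    (hB : 0 < Real.log n - 18 * Real.log (Real.log n) - 129) :
    n * Real.log n - n + 2 * n * Real.log (d / 2) - d * Real.log n +
      9 * d * Real.log (n / d) + 129 * d + 2 * Real.log n + 2 ≤
    3 * n * Real.log n - 3 * n -
      2 * n * Real.log (Real.log n - 18 * Real.log (Real.log n) - 129) +
      9 * n / (Real.log n) ^ 2 + 2 * Real.log n + 2 := by
  have hn0 : 0 < n := by linarith
  have hL0 : 0 < Real.log n := Real.log_pos hn
  set L := Real.log n with hL
  set l := Real.log L with hl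
  set B := L - 18 * l - 129 with hBdef
  have h1 : 9 * d * Real.log (n / d) ≤ 9 * n / L ^ 2 + 18 * d * l := by
    have h := Real.log_le_sub_one_of_pos (show 0 < n / (d * L ^ 2) by positivity)
    have e : Real.log (n / (d * L ^ 2)) = Real.log (n / d) - 2 * l := by
      rw [Real.log_div hn0.ne' (by positivity), Real.log_mul hd.ne' (by positivity),
        Real.log_pow, Real.log_div hn0.ne' hd.ne']
      push_cast
      ring
    rw [e] at h
    have h' : Real.log (n / d) ≤ n / (d * L ^ 2) + 2 * l := by linarith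
    have h2 := mul_le_mul_of_nonneg_left h' (show 0 ≤ 9 * d by positivity)
    have e2 : 9 * d * (n / (d * L ^ 2) + 2 * l) = 9 * n / L ^ 2 + 18 * d * l := by
      field_simp
      ring
    rw [e2] at h2
    exact h2
  have h3 : 2 * n * Real.log (d / 2) ≤ 2 * n * L - 2 * n * Real.log B + d * B - 2 * n := by
    have h := Real.log_le_sub_one_of_pos (show 0 < d * B / (2 * n) by positivity)
    have e : Real.log (d * B / (2 * n)) = Real.log (d / 2) + Real.log B - L := by
      rw [Real.log_div (by positivity) (by positivity), Real.log_mul hd.ne' hB.ne',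
        Real.log_mul (by norm_num) hn0.ne', Real.log_div hd.ne' (by norm_num), ← hL]
      ring
    rw [e] at h
    have h' : Real.log (d / 2) ≤ L - Real.log B + (d * B / (2 * n) - 1) := by linarith
    have h2 := mul_le_mul_of_nonneg_left h' (show 0 ≤ 2 * n by positivity)
    have e2 : 2 * n * (L - Real.log B + (d * B / (2 * n) - 1)) =
        2 * n * L - 2 * n * Real.log B + d * B - 2 * n := by
      field_simp
      ring
    rw [e2] at h2
    exact h2
  have h4 : d * B = d * L - 18 * d * l - 129 * d := by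
    rw [hBdef]
    ring
  linarith

private theorem ev_log' (c : ℝ) : ∀ᶠ n : ℕ in atTop, c ≤ Real.log (n : ℝ) :=
  (Real.tendsto_log_atTop.comp tendsto_natCast_atTop_atTop).eventually_ge_atTop c

private theorem ev_loglog' (c : ℝ) : ∀ᶠ n : ℕ in atTop, c ≤ Real.log (Real.log (n : ℝ)) :=
  (Real.tendsto_log_atTop.comp
    (Real.tendsto_log_atTop.comp tendsto_natCast_atTop_atTop)).eventually_ge_atTop c

private theorem ev_pow' (m : ℕ) {c : ℝ} (hc : 0 < c) :
    ∀ᶠ n : ℕ in atTop, c * Real.log (n : ℝ) ^ m ≤ (n : ℝ) := by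
  have h3 := (Real.isLittleO_pow_log_id_atTop (n := m)).def (show (0 : ℝ) < 1 / c by positivity)
  have h4 := tendsto_natCast_atTop_atTop (R := ℝ) |>.eventually h3
  filter_upwards [h4, ev_log' 0] with n hn hn1
  rw [Real.norm_eq_abs, Real.norm_eq_abs, abs_of_nonneg (by positivity)] at hn
  simp only [id] at hn
  rw [abs_of_nonneg (by positivity), div_mul_eq_mul_div, one_mul, le_div_iff₀ hc] at hn
  linarith

private theorem ev_small' {c : ℝ} (hc : 0 < c) :
    ∀ᶠ n : ℕ in atTop, c * Real.log (Real.log (n : ℝ)) ≤ Real.log (n : ℝ) := by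
  have h3 := Real.isLittleO_log_id_atTop.def (show (0 : ℝ) < 1 / c by positivity)
  have h4 := (Real.tendsto_log_atTop.comp
    (tendsto_natCast_atTop_atTop (R := ℝ))).eventually h3
  filter_upwards [h4, ev_log' 0, ev_loglog' 0] with n hn hn1 hn2
  simp only [Function.comp_apply, id] at hn
  rw [Real.norm_eq_abs, Real.norm_eq_abs, abs_of_nonneg hn2, abs_of_nonneg hn1,
    div_mul_eq_mul_div, one_mul, le_div_iff₀ hc] at hn
  linarith

private theorem log_one_sub_ge' {x : ℝ} (h0 : 0 ≤ x) (h1 : x ≤ 1 / 2) :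
    -2 * x ≤ Real.log (1 - x) := by
  have hp : 0 < 1 - x := by linarith
  have h := Real.one_sub_inv_le_log_of_pos hp
  refine le_trans ?_ h
  have e : 1 - (1 - x)⁻¹ = -x / (1 - x) := by
    field_simp
    ring
  rw [e, le_div_iff₀ hp]
  nlinarith

/-- PROOF. Let `L = log n` be large, `X = 3 n L - 3 n - 2 n log B + 9 n / L^2 + 2 L + 2`. For
`1 ≤ d ≤ n / 16`: `|cls n d| ≤ exp X` by `cls_small`, `opt_bound`. For `n < 16 d`, `d ≤ 3 n`:
`cls_trivial` gives `|cls n d| ≤ exp ((3 - 1/16) n L + n) ≤ exp X`, since eventually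
`n L / 16 ≥ 4 n + 2 n log L` (and `log B ≤ log L`). `numND_le_sum`: `numND n ≤ 3 n exp X`. Finally
`log B = log L + log (1 - y)`, `y = (18 log L + 129) / L ≤ 1/2` eventually, `log (1 - y) ≥ - 2 y`, so
`- 2 n log B ≤ - 2 n log L + 4 n (18 log L + 129) / L`, and `9 n / L^2 + 2 L + 2 + log (3 n)` is at
most `n log L / L` eventually. Handle `numND n = 0` by `Real.log 0 = 0` or use `numND_pos`-free
monotonicity `Real.log_le_log` (needs `0 < numND n`; it is fine to assume it as hypothesis `hpos`).
-/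
theorem upper_final (hpos : ∀ n : ℕ, 3 ≤ n → 0 < numND n) : ∃ C : ℝ, ∀ᶠ n : ℕ in atTop,
    Real.log (numND n) ≤ 3 * n * Real.log n - 2 * n * Real.log (Real.log n) - 3 * n +
      C * (n * Real.log (Real.log n) / Real.log n) := by
  refine ⟨598, ?_⟩
  filter_upwards [ev_log' 300, ev_loglog' 1, ev_pow' 2 (show (0 : ℝ) < 4 by norm_num),
    ev_small' (show (0 : ℝ) < 300 by norm_num), eventually_ge_atTop 3] with n hL hl hn2 hlL hn3
  set L := Real.log (n : ℝ) with hLdef
  set l := Real.log L with hldef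
  have hL0 : 0 < L := by linarith
  have hn0 : (0 : ℝ) < n := by exact_mod_cast (by omega : 0 < n)
  have hn1 : (1 : ℝ) < n := by exact_mod_cast (by omega : 1 < n)
  have hnbig : 300 ≤ (n : ℝ) := by nlinarith
  -- the number B
  have hy1 : 18 * l + 129 ≤ L / 2 := by linarith
  set B := L - 18 * l - 129 with hBdef
  have hB0 : 0 < B := by linarith
  have hBL : Real.log B ≤ l := Real.log_le_log hB0 (by linarith)
  set y := (18 * l + 129) / L with hy
  have hyL : y * L = 18 * l + 129 := by rw [hy]; field_simp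
  have hy0 : 0 ≤ y := by positivity
  have hyh : y ≤ 1 / 2 := by
    rw [hy, div_le_iff₀ hL0]
    linarith
  have hlogB : l - 2 * y ≤ Real.log B := by
    have e : B = L * (1 - y) := by
      rw [mul_sub, mul_one, mul_comm L y, hyL, hBdef]
      ring
    rw [e, Real.log_mul hL0.ne' (by linarith), ← hldef]
    have := log_one_sub_ge' hy0 hyh
    linarith
  set X : ℝ := 3 * n * L - 3 * n - 2 * n * Real.log B + 9 * n / L ^ 2 + 2 * L + 2 with hX
  have hcls : ∀ d ∈ Finset.Icc 1 (3 * n), ((cls n d).card : ℝ) ≤ Real.exp X := by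
    intro d hd
    obtain ⟨hd1, hd2⟩ := Finset.mem_Icc.1 hd
    have hd0 : (0 : ℝ) < d := by exact_mod_cast hd1
    rcases Nat.lt_or_ge n (16 * d) with h | h
    · refine (cls_trivial (by omega) hd2).trans (Real.exp_le_exp.2 ?_)
      rw [← hLdef]
      have hdR : (n : ℝ) ≤ 16 * d := by exact_mod_cast h.le
      have h1 : (n : ℝ) * L ≤ 16 * d * L := mul_le_mul_of_nonneg_right hdR hL0.le
      have h2 : 2 * (n : ℝ) * Real.log B ≤ 2 * n * l :=
        mul_le_mul_of_nonneg_left hBL (by positivity)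
      have h3 : 0 ≤ 9 * (n : ℝ) / L ^ 2 := by positivity
      have h4 : (n : ℝ) * (64 + 32 * l) ≤ n * L := by
        apply mul_le_mul_of_nonneg_left _ hn0.le
        linarith
      rw [hX]
      nlinarith
    · refine (cls_small hd1 h).trans (Real.exp_le_exp.2 ?_)
      exact opt_bound hn1 hd0 hB0
  have hsum : (numND n : ℝ) ≤ 3 * n * Real.exp X := by
    have h1 : (numND n : ℝ) ≤ ∑ d ∈ Finset.Icc 1 (3 * n), ((cls n d).card : ℝ) := by
      exact_mod_cast numND_le_sum (by omega)
    refine h1.trans ((Finset.sum_le_card_nsmul _ _ _ hcls).trans (le_of_eq ?_))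
    rw [Nat.card_Icc, nsmul_eq_mul]
    push_cast
    simp
  have hNpos : (0 : ℝ) < (numND n : ℝ) := by exact_mod_cast hpos n hn3
  have hlogN := Real.log_le_log hNpos hsum
  rw [Real.log_mul (by positivity) (Real.exp_pos _).ne', Real.log_exp,
    Real.log_mul (by norm_num) hn0.ne', ← hLdef] at hlogN
  have hlog3 : Real.log 3 ≤ 2 := by
    have := Real.log_le_sub_one_of_pos (show (0 : ℝ) < 3 by norm_num)
    linarith
  -- estimates in terms of z = n * l / L
  set z := (n : ℝ) * l / L with hz
  have hzL : z * L = n * l := by rw [hz]; field_simp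
  have hz0 : 0 < z := by positivity
  have e1 : 2 * (n : ℝ) * l - 4 * n * y ≤ 2 * n * Real.log B := by
    have h := mul_le_mul_of_nonneg_left hlogB (show (0 : ℝ) ≤ 2 * n by positivity)
    linarith
  have e2 : 4 * (n : ℝ) * y ≤ 588 * z := by
    have h : (4 * (n : ℝ) * y) * L ≤ (588 * z) * L := by
      have h1 : (4 * (n : ℝ) * y) * L = 4 * n * (18 * l + 129) := by rw [← hyL]; ring
      have h2 : (588 * z) * L = 588 * (n * l) := by rw [← hzL]; ring
      rw [h1, h2]
      nlinarith
    exact le_of_mul_le_mul_right h hL0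
  have e3 : 9 * (n : ℝ) / L ^ 2 ≤ 9 * z := by
    rw [div_le_iff₀ (by positivity)]
    have h2 : 9 * z * L ^ 2 = 9 * (n * l) * L := by rw [← hzL]; ring
    rw [h2]
    have h3 : (n : ℝ) * 1 ≤ n * l := mul_le_mul_of_nonneg_left hl hn0.le
    nlinarith
  have e4 : 3 * L + 2 + Real.log 3 ≤ z := by
    have h : (3 * L + 2 + Real.log 3) * L ≤ z * L := by
      rw [hzL]
      have h3 : (n : ℝ) * 1 ≤ n * l := mul_le_mul_of_nonneg_left hl hn0.le
      nlinarith
    exact le_of_mul_le_mul_right h hL0
  rw [hX] at hlogN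
  linarith

end SA

end MP_c02e9e_co
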