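import Pool.Agent.Lib.MP_c02e9e_co.H90LowerAn

/-!
# Fully indecomposable relations with marked edges: definitions and basic facts

Vocabulary. Rows and columns of a square zero-one matrix are indexed by the same finite type `V`;
`E i j` means that the entry `(i,j)` is one (`(i,j)` is an edge), `F` is a set of marked edges.
All definitions are free of `DecidableEq` instances.
-/

namespace MP_c02e9e_co

namespace SA

open Finset

open scoped Classical

/-- No zero rectangle `S × T` with `S`, `T` nonempty and `|S| + |T| ≥ n`. -/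
def FIr {ρ γ : Type} (n : ℕ) (A : ρ → γ → Prop) : Prop :=
  ∀ (S : Finset ρ) (T : Finset γ), S.Nonempty → T.Nonempty → n ≤ S.card + T.card →
    ∃ i ∈ S, ∃ j ∈ T, A i j

/-- A cut of `(u,v)`: a rectangle of size at least `n` which contains `(u,v)` and whose only
possible edge is `(u,v)`. -/
structure IsCut {ρ γ : Type} (n : ℕ) (A : ρ → γ → Prop) (u : ρ) (v : γ)
    (S : Finset ρ) (T : Finset γ) : Prop where
  hu : u ∈ S
  hv : v ∈ T
  card : n ≤ S.card + T.card
  only : ∀ i ∈ S, ∀ j ∈ T, A i j → i = u ∧ j = v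

/-- Number of edges of a relation. -/
noncomputable def nE {ρ γ : Type} [Fintype ρ] [Fintype γ] (A : ρ → γ → Prop) : ℕ :=
  (univ.filter (fun p : ρ × γ => A p.1 p.2)).card

/-- `E` is fully indecomposable and every marked edge is an edge which has a cut. -/
structure Good {V : Type} [Fintype V] (E F : V → V → Prop) : Prop where
  fi : FIr (Fintype.card V) E
  sub : ∀ i j, F i j → E i j
  cut : ∀ i j, F i j → ∃ S T, IsCut (Fintype.card V) E i j S T

/-- Row `i` has an unmarked edge, or degree at least three. -/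
def richR {V : Type} [Fintype V] (E F : V → V → Prop) (i : V) : Prop :=
  (∃ j, E i j ∧ ¬ F i j) ∨ 3 ≤ dR E i

/-- Column `j` has an unmarked edge, or degree at least three. -/
def richC {V : Type} [Fintype V] (E F : V → V → Prop) (j : V) : Prop :=
  (∃ i, E i j ∧ ¬ F i j) ∨ 3 ≤ dC E j

/-- Every marked edge has a cut which does not contain `(a,b)`. -/
def Add {V : Type} [Fintype V] (E F : V → V → Prop) (a b : V) : Prop :=
  ∀ u v, F u v → ∃ S T, IsCut (Fintype.card V) E u v S T ∧ ¬ (a ∈ S ∧ b ∈ T)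

/-- The rich addable pairs. -/
def Hp {V : Type} [Fintype V] (E F : V → V → Prop) (a b : V) : Prop :=
  richR E F a ∧ richC E F b ∧ Add E F a b

/-- The bound of Theorem A. -/
def Bd {V : Type} [Fintype V] (E F : V → V → Prop) : Prop :=
  ∃ r c : ℕ, r + c + nE F + 1 ≤ 3 * Fintype.card V ∧ nE (Hp E F) ≤ r * c ∧
    (∀ b, dC (Hp E F) b ≤ r) ∧ (∀ a, dR (Hp E F) a ≤ c)

section basic

variable {ρ γ : Type}

theorem FIr.swap {n : ℕ} {A : ρ → γ → Prop} (h : FIr n A) : FIr n (fun j i => A i j) := by
  intro S T hS hT hc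
  obtain ⟨i, hi, j, hj, hij⟩ := h T S hT hS (by omega)
  exact ⟨j, hj, i, hi, hij⟩

theorem FIr.mono {n : ℕ} {A B : ρ → γ → Prop} (h : FIr n A) (hAB : ∀ i j, A i j → B i j) :
    FIr n B := by
  intro S T hS hT hc
  obtain ⟨i, hi, j, hj, hij⟩ := h S T hS hT hc
  exact ⟨i, hi, j, hj, hAB _ _ hij⟩

theorem IsCut.swap {n : ℕ} {A : ρ → γ → Prop} {u : ρ} {v : γ} {S : Finset ρ} {T : Finset γ}
    (h : IsCut n A u v S T) : IsCut n (fun j i => A i j) v u T S :=
  ⟨h.hv, h.hu, by have := h.card; omega, fun j hj i hi hij => (h.only i hi j hj hij).symm⟩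

/-- A cut of an arbitrary pair is a cut of an edge. -/
theorem IsCut.edge {n : ℕ} {A : ρ → γ → Prop} (hA : FIr n A) {u : ρ} {v : γ} {S : Finset ρ}
    {T : Finset γ} (h : IsCut n A u v S T) : A u v := by
  obtain ⟨i, hi, j, hj, hij⟩ := hA S T ⟨u, h.hu⟩ ⟨v, h.hv⟩ h.card
  obtain ⟨rfl, rfl⟩ := h.only i hi j hj hij
  exact hij

variable [Fintype ρ] [Fintype γ]

theorem mem_nE {A : ρ → γ → Prop} {p : ρ × γ} :
    p ∈ univ.filter (fun p : ρ × γ => A p.1 p.2) ↔ A p.1 p.2 := by simp

theorem nE_eq_sum_dR (A : ρ → γ → Prop) : nE A = ∑ i, dR A i := by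
  unfold nE dR
  rw [Finset.card_filter, Fintype.sum_prod_type]
  simp only [Finset.card_filter]

theorem nE_eq_sum_dC (A : ρ → γ → Prop) : nE A = ∑ j, dC A j := by
  rw [nE_eq_sum_dR, sum_dR_eq]

theorem nE_swap (A : ρ → γ → Prop) : nE (fun j i => A i j) = nE A := by
  rw [nE_eq_sum_dR, nE_eq_sum_dC]
  rfl

theorem nE_mono {A B : ρ → γ → Prop} (h : ∀ i j, A i j → B i j) : nE A ≤ nE B := by
  unfold nE
  apply Finset.card_le_card
  intro p hp
  simp only [Finset.mem_filter, Finset.mem_univ, true_and] at hp ⊢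
  exact h _ _ hp

theorem dR_mono {A B : ρ → γ → Prop} (h : ∀ i j, A i j → B i j) (i : ρ) : dR A i ≤ dR B i := by
  unfold dR
  apply Finset.card_le_card
  intro p hp
  simp only [Finset.mem_filter, Finset.mem_univ, true_and] at hp ⊢
  exact h _ _ hp

theorem dC_mono {A B : ρ → γ → Prop} (h : ∀ i j, A i j → B i j) (j : γ) : dC A j ≤ dC B j := by
  unfold dC
  apply Finset.card_le_card
  intro p hp
  simp only [Finset.mem_filter, Finset.mem_univ, true_and] at hp ⊢
  exact h _ _ hp

theorem dR_swap (A : ρ → γ → Prop) (j : γ) : dR (fun j i => A i j) j = dC A j := rfl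

theorem dC_swap (A : ρ → γ → Prop) (i : ρ) : dC (fun j i => A i j) i = dR A i := rfl

theorem fir_iff_fi {n : ℕ} {A : ρ → γ → Prop} : FIr n A ↔ FI n A := Iff.rfl

/-- For `n ≥ 2` the size of a cut of a fully indecomposable relation is exactly `n`. -/
theorem IsCut.card_eq {n : ℕ} (hn : 2 ≤ n) {A : ρ → γ → Prop} (hA : FIr n A)
    (hγ : Fintype.card γ = n) {u : ρ} {v : γ} {S : Finset ρ} {T : Finset γ}
    (h : IsCut n A u v S T) : S.card + T.card = n := by
  apply le_antisymm _ h.card
  by_contra hlt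
  push Not at hlt
  have hTn : T.card ≤ n := by rw [← hγ]; exact Finset.card_le_univ _
  have hS1 : 1 ≤ S.card := Finset.card_pos.2 ⟨u, h.hu⟩
  by_cases hS : (S.erase u).Nonempty
  · obtain ⟨i, hi, j, hj, hij⟩ := hA (S.erase u) T hS ⟨v, h.hv⟩ (by
      rw [Finset.card_erase_of_mem h.hu]; omega)
    rw [Finset.mem_erase] at hi
    exact hi.1 (h.only i hi.2 j hj hij).1
  · have hSc : S.card = 1 := by
      have := Finset.card_erase_of_mem h.hu
      rw [Finset.not_nonempty_iff_eq_empty.1 hS, Finset.card_empty] at this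
      omega
    obtain ⟨i, hi, j, hj, hij⟩ := hA S (T.erase v) ⟨u, h.hu⟩ (by
      rw [← Finset.card_pos, Finset.card_erase_of_mem h.hv]; omega) (by
      rw [Finset.card_erase_of_mem h.hv]; omega)
    rw [Finset.mem_erase] at hj
    exact hj.1 (h.only i hi j hj.2 hij).2

theorem isCut_iff_cut {n : ℕ} (hn : 2 ≤ n) {A : ρ → γ → Prop} (hA : FIr n A)
    (hγ : Fintype.card γ = n) {u : ρ} {v : γ} {S : Finset ρ} {T : Finset γ} :
    IsCut n A u v S T ↔ Cut n A u v S T :=
  ⟨fun h => ⟨h.hu, h.hv, h.card_eq hn hA hγ, h.only⟩, fun h => ⟨h.hu, h.hv, h.card.ge, h.only⟩⟩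

end basic

section square

variable {V : Type} [Fintype V] {E F : V → V → Prop}

theorem Good.swap (h : Good E F) : Good (fun j i => E i j) (fun j i => F i j) :=
  ⟨h.fi.swap, fun i j hij => h.sub j i hij, fun i j hij => by
    obtain ⟨S, T, hc⟩ := h.cut j i hij
    exact ⟨T, S, hc.swap⟩⟩

theorem Hp_swap (a b : V) : Hp (fun j i => E i j) (fun j i => F i j) a b ↔ Hp E F b a := by
  have key : ∀ {E F : V → V → Prop} {a b : V}, Hp E F b a →
      Hp (fun j i => E i j) (fun j i => F i j) a b := by
    intro E F a b h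
    refine ⟨h.2.1, h.1, ?_⟩
    intro u v huv
    obtain ⟨S, T, hc, hn⟩ := h.2.2 v u huv
    exact ⟨T, S, hc.swap, fun hab => hn ⟨hab.2, hab.1⟩⟩
  exact ⟨fun h => key h, fun h => key h⟩

/-- Theorem A is invariant under transposition. -/
theorem Bd.swap (h : Bd (fun j i => E i j) (fun j i => F i j)) : Bd E F := by
  obtain ⟨r, c, h1, h2, h3, h4⟩ := h
  have e : Hp (fun j i => E i j) (fun j i => F i j) = fun j i => Hp E F i j := by
    funext a b
    exact propext (Hp_swap a b)
  rw [e] at h2 h3 h4
  refine ⟨c, r, ?_, ?_, h4, h3⟩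
  · rw [nE_swap] at h1
    omega
  · rw [nE_swap] at h2
    rw [mul_comm]
    exact h2

/-- A nonempty closed set of a fully indecomposable relation with full diagonal is everything. -/
theorem FIr.closed (h : FIr (Fintype.card V) E) {S : Finset V} (hS : S.Nonempty)
    (hcl : ∀ i ∈ S, ∀ j, E i j → j ∈ S) : S = univ := by
  by_contra hne
  have hT : (univ \ S).Nonempty := by
    rw [Finset.sdiff_nonempty]
    intro hsub
    exact hne (Finset.eq_univ_of_forall fun x => hsub (Finset.mem_univ x))
  obtain ⟨i, hi, j, hj, hij⟩ := h S (univ \ S) hS hT (by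
    rw [Finset.card_sdiff_of_subset (Finset.subset_univ _), Finset.card_univ]
    have := Finset.card_le_univ S
    omega)
  rw [Finset.mem_sdiff] at hj
  exact hj.2 (hcl i hi j hij)

/-- Predicate version of `FIr.closed`. -/
theorem FIr.closed_pred (h : FIr (Fintype.card V) E) {P : V → Prop} (hP : ∃ i, P i)
    (hcl : ∀ i j, P i → E i j → P j) (i : V) : P i := by
  obtain ⟨i0, hi0⟩ := hP
  have := h.closed (S := univ.filter P) ⟨i0, by simpa using hi0⟩ (by
    intro i hi j hij
    simp only [Finset.mem_filter, Finset.mem_univ, true_and] at hi ⊢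
    exact hcl i j hi hij)
  have hi : i ∈ univ.filter P := by rw [this]; exact Finset.mem_univ _
  simpa using hi

/-- Predicate version of `FIr.closed` for backward closed sets. -/
theorem FIr.closed_pred_back (h : FIr (Fintype.card V) E) {P : V → Prop} (hP : ∃ i, P i)
    (hcl : ∀ i j, P j → E i j → P i) (i : V) : P i :=
  h.swap.closed_pred hP (fun i j hi hij => hcl j i hi hij) i

/-- A relation with full diagonal all of whose nonempty closed sets are everything is fully
indecomposable. -/
theorem fir_of_closed (hd : ∀ i, E i i)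
    (h : ∀ S : Finset V, S.Nonempty → (∀ i ∈ S, ∀ j, E i j → j ∈ S) → S = univ) :
    FIr (Fintype.card V) E :=
  fi_of_matching rfl rfl E id Function.injective_id hd (fun S hS hcl => h S hS hcl)

/-- In a relation with full diagonal, no row lies in both sides of a cut of an off-diagonal
edge, and every element lies in one of the sides. -/
theorem IsCut.compl (hd : ∀ i, E i i) {u v : V} (huv : u ≠ v) {S T : Finset V}
    (h : IsCut (Fintype.card V) E u v S T) (x : V) : x ∈ T ↔ x ∉ S := by
  have hdis : Disjoint S T := by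
    rw [Finset.disjoint_left]
    intro y hy hy'
    obtain ⟨h1, h2⟩ := h.only y hy y hy' (hd y)
    exact huv (h1.symm.trans h2)
  have hu : S ∪ T = univ := by
    rw [← Finset.card_eq_iff_eq_univ]
    apply le_antisymm (Finset.card_le_univ _)
    rw [Finset.card_union_of_disjoint hdis]
    exact h.card
  have hx : x ∈ S ∪ T := by rw [hu]; exact Finset.mem_univ _
  rw [Finset.mem_union] at hx
  constructor
  · intro hT hS
    exact Finset.disjoint_left.1 hdis hS hT
  · intro hS
    exact hx.resolve_left hS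

end square

end SA

end MP_c02e9e_co
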