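import Pool.Agent.Lib.MP_c02e9e_co.SA.Base

/-!
# The case in which every marked off-diagonal edge has ends of degree two
-/

namespace MP_c02e9e_co

namespace SA

open Finset

open scoped Classical

/-- Rows of `E` and `F` when marked off-diagonal edges have degree two rows. -/
private theorem c3_row {V : Type} [Fintype V] {E F : V → V → Prop} (hsub : ∀ i j, F i j → E i j)
    (hd : ∀ i, E i i) (h3 : ∀ i j, i ≠ j → F i j → dR E i ≤ 2) {i j : V} (hij : i ≠ j)
    (hF : F i j) : univ.filter (fun a => E i a) = {i, j} := by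
  symm
  apply Finset.eq_of_subset_of_card_le
  · intro a ha
    rw [Finset.mem_insert, Finset.mem_singleton] at ha
    rw [Finset.mem_filter]
    rcases ha with rfl | rfl
    · exact ⟨Finset.mem_univ _, hd _⟩
    · exact ⟨Finset.mem_univ _, hsub _ _ hF⟩
  · rw [Finset.card_pair hij]
    exact h3 i j hij hF

private theorem c3_count {V : Type} [Fintype V] {E F : V → V → Prop}
    (hsub : ∀ i j, F i j → E i j) (hd : ∀ i, E i i)
    (h3 : ∀ i j, i ≠ j → F i j → dR E i ≤ 2) (i : V) :
    dR F i = (if ∃ j, i ≠ j ∧ F i j then 1 else 0) + (if F i i then 1 else 0) := by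
  unfold dR
  by_cases hP : ∃ j, i ≠ j ∧ F i j
  · rw [if_pos hP]
    obtain ⟨j, hij, hF⟩ := hP
    have hrow := c3_row hsub hd h3 hij hF
    have hmem : ∀ a, F i a → a = i ∨ a = j := by
      intro a ha
      have : a ∈ univ.filter (fun a => E i a) :=
        Finset.mem_filter.2 ⟨Finset.mem_univ _, hsub _ _ ha⟩
      rw [hrow, Finset.mem_insert, Finset.mem_singleton] at this
      exact this
    by_cases hii : F i i
    · rw [if_pos hii]
      have : univ.filter (fun a => F i a) = {i, j} := by
        ext a
        rw [Finset.mem_filter, Finset.mem_insert, Finset.mem_singleton]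
        constructor
        · exact fun h => hmem a h.2
        · rintro (rfl | rfl)
          · exact ⟨Finset.mem_univ _, hii⟩
          · exact ⟨Finset.mem_univ _, hF⟩
      rw [this, Finset.card_pair hij]
    · rw [if_neg hii]
      have : univ.filter (fun a => F i a) = {j} := by
        ext a
        rw [Finset.mem_filter, Finset.mem_singleton]
        constructor
        · intro h
          rcases hmem a h.2 with rfl | h'
          · exact absurd h.2 hii
          · exact h'
        · rintro rfl
          exact ⟨Finset.mem_univ _, hF⟩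
      rw [this, Finset.card_singleton]
  · rw [if_neg hP]
    push Not at hP
    by_cases hii : F i i
    · rw [if_pos hii]
      have : univ.filter (fun a => F i a) = {i} := by
        ext a
        rw [Finset.mem_filter, Finset.mem_singleton]
        constructor
        · intro h
          by_contra hne
          exact hP a (Ne.symm hne) h.2
        · rintro rfl
          exact ⟨Finset.mem_univ _, hii⟩
      rw [this, Finset.card_singleton]
    · rw [if_neg hii]
      have : univ.filter (fun a => F i a) = ∅ := by
        rw [Finset.filter_eq_empty_iff]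
        intro a _ ha
        by_cases h : i = a
        · subst h; exact hii ha
        · exact hP a h ha
      rw [this, Finset.card_empty]

private theorem c3_nE {V : Type} [Fintype V] {E F : V → V → Prop}
    (hsub : ∀ i j, F i j → E i j) (hd : ∀ i, E i i)
    (h3 : ∀ i j, i ≠ j → F i j → dR E i ≤ 2) :
    nE F = (univ.filter (fun i => ∃ j, i ≠ j ∧ F i j)).card +
      (univ.filter (fun i => F i i)).card := by
  rw [nE_eq_sum_dR, Finset.sum_congr rfl (fun i _ => c3_count hsub hd h3 i),
    Finset.sum_add_distrib, Finset.card_filter, Finset.card_filter]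

/-- A rich row has no marked loop together with a marked off-diagonal edge. -/
private theorem c3_rich {V : Type} [Fintype V] {E F : V → V → Prop}
    (hsub : ∀ i j, F i j → E i j) (hd : ∀ i, E i i)
    (h3 : ∀ i j, i ≠ j → F i j → dR E i ≤ 2) {i : V} (hr : richR E F i)
    (hP : ∃ j, i ≠ j ∧ F i j) : ¬ F i i := by
  intro hii
  obtain ⟨j, hij, hF⟩ := hP
  have hrow := c3_row hsub hd h3 hij hF
  rcases hr with ⟨a, ha, hna⟩ | hr
  · have : a ∈ univ.filter (fun a => E i a) := Finset.mem_filter.2 ⟨Finset.mem_univ _, ha⟩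
    rw [hrow, Finset.mem_insert, Finset.mem_singleton] at this
    rcases this with rfl | rfl
    · exact hna hii
    · exact hna hF
  · have := h3 i j hij hF
    omega

/-- PROOF (pure counting). Let `Q = |V|`. For `i : V` let `t i = 1` if row `i` has a marked
off-diagonal edge (`∃ j ≠ i, F i j`), else `0`; `h i = 1` if column `i` has a marked off-diagonal
edge (`∃ a ≠ i, F a i`), else `0`; `τ i = 1` if `F i i`, else `0`.
* If `F i j`, `i ≠ j` then row `i` of `E` consists of exactly `i` and `j` (`dR E i ≤ 2`, and the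
  edges `(i,i)`, `(i,j)`), so row `i` of `F` has exactly `t i + τ i` elements; likewise column
  `j` of `F` has exactly `h j + τ j` elements. Hence
  `nE F = ∑ (t i + τ i) = ∑ (h i + τ i)` (`nE_eq_sum_dR`, `nE_eq_sum_dC`).
* A row `i` with `t i = τ i = 1` is not rich: its only edges are the two marked ones. So
  `dR (Hp E F) i = 0` for such `i`. Hence the number of `a` with some `Hp E F a b` is at most
  `r := ∑ (1 - τ i * t i)` and likewise for columns `c := ∑ (1 - τ i * h i)`. So `nE (Hp E F) ≤
  r * c`, `dC (Hp E F) b ≤ r`, `dR (Hp E F) a ≤ c`.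
* `3 Q - 1 - nE F - r - c = ∑ ((1 - t i) (1 - τ i) + τ i * h i) - 1`, and also (as `∑ t = ∑ h`)
  `= ∑ ((1 - h i) (1 - τ i) + τ i * t i) - 1` (work in `ℤ`). If one of the two sums is at least
  `1` then `r`, `c` do it.
* Otherwise all terms vanish: `(1 - t i) (1 - τ i) = 0` and `τ i * t i = 0` for all `i`, so
  `t i + τ i = 1` for all `i`, hence `nE F = Q` and every row `i` has exactly one marked edge
  `(i,j)`. The pair `(i,j)` is not addable: the marked edge `(i,j)` itself has only cuts which
  contain `(i,j)`. So `dR (Hp E F) i ≤ Q - 1` for every `i`, and `nE (Hp E F) ≤ Q * (Q - 1)`. Take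
  `r = Q`, `c = Q - 1`: `r + c + nE F + 1 = 3 Q` if `Q ≥ 1` (`Q = 0`: the last case cannot be
  reached for `Q = 0`? it can; `V` is nonempty by `hV`).
It may be convenient to avoid `ℤ`-valued indicator functions by using the finsets
`T = {i | ∃ j ≠ i, F i j}`, `H = {j | ∃ i ≠ j, F i j}`, `Y = {i | F i i}`: then
`nE F = |T| + |Y| = |H| + |Y|`, `r = Q - |Y ∩ T|`, `c = Q - |Y ∩ H|`, and the two sums are
`|(T ∪ Y)ᶜ| + |Y ∩ H|` and `|(H ∪ Y)ᶜ| + |Y ∩ T|`. -/
theorem case3 {V : Type} [Fintype V] [Nonempty V] {E F : V → V → Prop} (hG : Good E F)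
    (hd : ∀ i, E i i) (h3 : ∀ i j, i ≠ j → F i j → dR E i ≤ 2 ∧ dC E j ≤ 2) : Bd E F := by
  have hsub := hG.sub
  have hsub' : ∀ i j, (fun j i => F i j) i j → (fun j i => E i j) i j := fun i j h => hsub j i h
  have h3R : ∀ i j, i ≠ j → F i j → dR E i ≤ 2 := fun i j hij hF => (h3 i j hij hF).1
  have h3C : ∀ i j, i ≠ j → (fun j i => F i j) i j → dR (fun j i => E i j) i ≤ 2 :=
    fun i j hij hF => (h3 j i hij.symm hF).2
  set Q := Fintype.card V with hQ
  have hQ1 : 1 ≤ Q := Fintype.card_pos
  set T : Finset V := univ.filter (fun i => ∃ j, i ≠ j ∧ F i j) with hT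
  set H : Finset V := univ.filter (fun i => ∃ j, i ≠ j ∧ F j i) with hH
  set Y : Finset V := univ.filter (fun i => F i i) with hY
  have n1 : nE F = T.card + Y.card := c3_nE hsub hd h3R
  have n2 : nE F = H.card + Y.card := by
    rw [← nE_swap F]
    exact c3_nE hsub' hd h3C
  -- rich rows and columns
  have hrow : ∀ a b, Hp E F a b → a ∈ univ \ (Y ∩ T) := by
    intro a b hab
    rw [Finset.mem_sdiff]
    refine ⟨Finset.mem_univ _, fun h => ?_⟩
    rw [Finset.mem_inter, hY, hT, Finset.mem_filter, Finset.mem_filter] at h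
    exact c3_rich hsub hd h3R hab.1 h.2.2 h.1.2
  have hcol : ∀ a b, Hp E F a b → b ∈ univ \ (Y ∩ H) := by
    intro a b hab
    rw [Finset.mem_sdiff]
    refine ⟨Finset.mem_univ _, fun h => ?_⟩
    rw [Finset.mem_inter, hY, hH, Finset.mem_filter, Finset.mem_filter] at h
    exact c3_rich hsub' hd h3C (i := b) hab.2.1 h.2.2 h.1.2
  have hYT : (Y ∩ T).card ≤ Q := Finset.card_le_univ _
  have hYH : (Y ∩ H).card ≤ Q := Finset.card_le_univ _
  have cT := Finset.card_union_add_card_inter T Y
  have cH := Finset.card_union_add_card_inter H Y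
  rw [Finset.inter_comm T Y] at cT
  rw [Finset.inter_comm H Y] at cH
  have uT : (T ∪ Y).card ≤ Q := Finset.card_le_univ _
  have uH : (H ∪ Y).card ≤ Q := Finset.card_le_univ _
  by_cases hgood : (T ∪ Y).card + 1 ≤ Q + (Y ∩ H).card ∨ (H ∪ Y).card + 1 ≤ Q + (Y ∩ T).card
  · have cr : (univ \ (Y ∩ T)).card = Q - (Y ∩ T).card := by
      rw [Finset.card_sdiff_of_subset (Finset.subset_univ _), Finset.card_univ]
    have cc : (univ \ (Y ∩ H)).card = Q - (Y ∩ H).card := by
      rw [Finset.card_sdiff_of_subset (Finset.subset_univ _), Finset.card_univ]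
    refine ⟨Q - (Y ∩ T).card, Q - (Y ∩ H).card, ?_, ?_, ?_, ?_⟩
    · rcases hgood with h | h <;> omega
    · rw [← cr, ← cc, ← Finset.card_product]
      unfold nE
      apply Finset.card_le_card
      intro p hp
      have hp' : Hp E F p.1 p.2 := (Finset.mem_filter.1 hp).2
      exact Finset.mem_product.2 ⟨hrow _ _ hp', hcol _ _ hp'⟩
    · intro b
      rw [← cr]
      unfold dC
      apply Finset.card_le_card
      intro a ha
      exact hrow a b (Finset.mem_filter.1 ha).2
    · intro a
      rw [← cc]
      unfold dR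
      apply Finset.card_le_card
      intro b hb
      exact hcol a b (Finset.mem_filter.1 hb).2
  · -- every row has exactly one marked edge
    push Not at hgood
    obtain ⟨hg1, hg2⟩ := hgood
    have hTY : (T ∪ Y).card = Q := by omega
    have hYH0 : (Y ∩ H).card = 0 := by omega
    have hYT0 : (Y ∩ T).card = 0 := by omega
    have hnE : nE F = Q := by omega
    have hall : ∀ i, ∃ j, F i j := by
      intro i
      have huniv : T ∪ Y = univ := by
        rw [← Finset.card_eq_iff_eq_univ]
        exact hTY
      have hi : i ∈ T ∪ Y := by rw [huniv]; exact Finset.mem_univ _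
      rw [Finset.mem_union, hT, hY, Finset.mem_filter, Finset.mem_filter] at hi
      rcases hi with ⟨_, j, _, hj⟩ | ⟨_, hj⟩
      · exact ⟨j, hj⟩
      · exact ⟨i, hj⟩
    have hdR : ∀ a, dR (Hp E F) a ≤ Q - 1 := by
      intro a
      obtain ⟨j, hj⟩ := hall a
      have hnot : ¬ Hp E F a j := by
        intro h
        obtain ⟨S, T', hc, hn⟩ := h.2.2 a j hj
        exact hn ⟨hc.hu, hc.hv⟩
      unfold dR
      have h1 : univ.filter (fun b => Hp E F a b) ⊆ univ.erase j := by
        intro b hb
        rw [Finset.mem_erase]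
        refine ⟨?_, Finset.mem_univ _⟩
        rintro rfl
        exact hnot (Finset.mem_filter.1 hb).2
      have h2 := Finset.card_le_card h1
      rw [Finset.card_erase_of_mem (Finset.mem_univ _), Finset.card_univ] at h2
      exact h2
    refine ⟨Q, Q - 1, by omega, ?_, ?_, hdR⟩
    · rw [nE_eq_sum_dR]
      calc ∑ i, dR (Hp E F) i ≤ ∑ _i : V, (Q - 1) := Finset.sum_le_sum (fun i _ => hdR i)
        _ = Q * (Q - 1) := by rw [Finset.sum_const, Finset.card_univ, smul_eq_mul]
    · intro b
      exact Finset.card_le_univ _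

end SA

end MP_c02e9e_co
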