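import Pool.Agent.Lib.MP_c02e9e_co.SA.Base

/-!
# The counting lemma for the module situation
-/

namespace MP_c02e9e_co

namespace SA

open Finset

open scoped Classical

theorem cb_dR_sum {ρ α β : Type} [Fintype α] [Fintype β] (A : ρ → α ⊕ β → Prop) (i : ρ) :
    dR A i = dR (fun i a => A i (Sum.inl a)) i + dR (fun i b => A i (Sum.inr b)) i := by
  unfold dR
  simp only [Finset.card_filter]
  rw [Fintype.sum_sum_type]

theorem cb_dC_sum {γ α β : Type} [Fintype α] [Fintype β] (A : α ⊕ β → γ → Prop) (j : γ) :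
    dC A j = dC (fun a j => A (Sum.inl a) j) j + dC (fun b j => A (Sum.inr b) j) j := by
  unfold dC
  simp only [Finset.card_filter]
  rw [Fintype.sum_sum_type]

theorem cb_dR_opt {ρ α : Type} [Fintype α] (A : ρ → Option α → Prop) (i : ρ) :
    dR A i = (if A i none then 1 else 0) + dR (fun i a => A i (some a)) i := by
  unfold dR
  simp only [Finset.card_filter]
  rw [Fintype.sum_option]

theorem cb_dC_opt {γ α : Type} [Fintype α] (A : Option α → γ → Prop) (j : γ) :
    dC A j = (if A none j then 1 else 0) + dC (fun a j => A (some a) j) j := by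
  unfold dC
  simp only [Finset.card_filter]
  rw [Fintype.sum_option]

theorem cb_dR_le {ρ γ σ : Type} [Fintype γ] {A : ρ → γ → Prop} {B : σ → γ → Prop} {i : ρ} {k : σ}
    (h : ∀ j, A i j → B k j) : dR A i ≤ dR B k := by
  unfold dR
  apply Finset.card_le_card
  intro p hp
  simp only [Finset.mem_filter, Finset.mem_univ, true_and] at hp ⊢
  exact h _ hp

theorem cb_dC_le {ρ γ σ : Type} [Fintype ρ] {A : ρ → γ → Prop} {B : ρ → σ → Prop} {j : γ} {k : σ}
    (h : ∀ i, A i j → B i k) : dC A j ≤ dC B k := by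
  unfold dC
  apply Finset.card_le_card
  intro p hp
  simp only [Finset.mem_filter, Finset.mem_univ, true_and] at hp ⊢
  exact h _ hp

theorem cb_dR_zero {ρ γ : Type} [Fintype γ] {A : ρ → γ → Prop} {i : ρ} (h : ∀ j, ¬ A i j) :
    dR A i = 0 := by
  unfold dR
  rw [Finset.card_eq_zero, Finset.filter_eq_empty_iff]
  exact fun j _ => h j

theorem cb_dC_zero {ρ γ : Type} [Fintype ρ] {A : ρ → γ → Prop} {j : γ} (h : ∀ i, ¬ A i j) :
    dC A j = 0 := by
  unfold dC
  rw [Finset.card_eq_zero, Finset.filter_eq_empty_iff]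
  exact fun i _ => h i

/-- PROOF. Let `p = dC H1 none`, `q = dR H1 none` (`p, q ≥ 1` by `hnn`, `p ≤ r1`, `q ≤ c1`), and
`r0, c0 ≥ 1` by `hne` and the degree bounds.
* `nE H1 = #{(w,w') | H1 (some w) (some w')} + (p - 1) + (q - 1) + 1`, so
  `#{(w,w') | H (inr w) (inr w')} + p + q ≤ r1 * c1 + 1`.
* `#{(w,v) | H (inr w) (inl v)} ≤ (p - 1) * c0`: there are at most `p - 1` possible `w` (those
  with `H1 (some w) none`), and for each the `v` satisfy `H0 i0 v` (`dR H0 i0 ≤ c0`).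
* `#{(v,w) | H (inl v) (inr w)} ≤ (q - 1) * r0` (for each of the `q - 1` possible `w` all `v`
  satisfy `H0 v v'`, `dC H0 v' ≤ r0`).
* `#{(a,b) | H (inl a) (inl b)} ≤ nE H0 ≤ r0 * c0`.
Total: `nE H ≤ r1 c1 + 1 - p - q + (p - 1) c0 + (q - 1) r0 + r0 c0
 = r1 c1 + p (c0 - 1) + q (r0 - 1) + 1 - c0 - r0 + r0 c0
 ≤ r1 c1 + r1 (c0 - 1) + c1 (r0 - 1) + (r0 - 1) (c0 - 1) = (r1 + r0 - 1) (c1 + c0 - 1)`.
Degrees. Column `inr w'`: if no row `inl v` belongs to it, its degree is at most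
`dC H1 (some w') ≤ r1`; otherwise `H1 none (some w')`, so at most `r1 - 1` rows `inr w` and at
most `r0` rows `inl v`. Column `inl v`: at most `p - 1 ≤ r1 - 1` rows `inr w` and at most
`dC H0 v ≤ r0` rows `inl u`. Row `inr w`: if no column `inl v` belongs to it, at most
`dR H1 (some w) ≤ c1`; otherwise `H1 (some w) none`, at most `c1 - 1` columns `inr w'` and at
most `dR H0 i0 ≤ c0` columns `inl v`. Row `inl v`: at most `q - 1` columns `inr w`
(`H1 none (some w)`), at most `dR H0 v ≤ c0` columns `inl b`. -/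
theorem count_bound {Z U : Type} [Fintype Z] [Fintype U] {H : Z ⊕ U → Z ⊕ U → Prop}
    {H1 : Option U → Option U → Prop} {H0 : Z → Z → Prop} {i0 : Z}
    (hUU : ∀ w w', H (Sum.inr w) (Sum.inr w') → H1 (some w) (some w'))
    (hUZ : ∀ w v, H (Sum.inr w) (Sum.inl v) → H1 (some w) none ∧ H0 i0 v)
    (hZU : ∀ w, ∃ v', ∀ v, H (Sum.inl v) (Sum.inr w) → H1 none (some w) ∧ H0 v v')
    (hZZ : ∀ a b, H (Sum.inl a) (Sum.inl b) → H0 a b)
    (hnn : H1 none none) (hne : ∃ v, H0 i0 v) {r1 c1 r0 c0 : ℕ}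
    (h1 : nE H1 ≤ r1 * c1) (h1c : ∀ b, dC H1 b ≤ r1) (h1r : ∀ a, dR H1 a ≤ c1)
    (h0 : nE H0 ≤ r0 * c0) (h0c : ∀ b, dC H0 b ≤ r0) (h0r : ∀ a, dR H0 a ≤ c0) :
    1 ≤ r1 ∧ 1 ≤ c1 ∧ 1 ≤ r0 ∧ 1 ≤ c0 ∧ nE H ≤ (r1 + r0 - 1) * (c1 + c0 - 1) ∧
      (∀ b, dC H b ≤ r1 + r0 - 1) ∧ (∀ a, dR H a ≤ c1 + c0 - 1) := by
  set P : ℕ := dC (fun (w : U) (_ : Unit) => H1 (some w) none) () with hP
  set Q : ℕ := dR (fun (_ : Unit) (w : U) => H1 none (some w)) () with hQ
  have p1 : P + 1 ≤ r1 := by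
    have := h1c none
    rw [cb_dC_opt, if_pos hnn] at this
    have e : dC (fun a j => H1 (some a) j) none = P := rfl
    omega
  have q1 : Q + 1 ≤ c1 := by
    have := h1r none
    rw [cb_dR_opt, if_pos hnn] at this
    have e : dR (fun i a => H1 i (some a)) none = Q := rfl
    omega
  obtain ⟨v0, hv0⟩ := hne
  have c01 : 1 ≤ c0 := by
    refine le_trans ?_ (h0r i0)
    unfold dR
    exact Finset.card_pos.2 ⟨v0, by simpa using hv0⟩
  have r01 : 1 ≤ r0 := by
    refine le_trans ?_ (h0c v0)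
    unfold dC
    exact Finset.card_pos.2 ⟨i0, by simpa using hv0⟩
  -- the four blocks
  have bUU : nE (fun w w' : U => H (Sum.inr w) (Sum.inr w')) + P + Q + 1 ≤ r1 * c1 := by
    refine le_trans ?_ h1
    have e1 : nE H1 = dR H1 none + ∑ w, dR H1 (some w) := by
      rw [nE_eq_sum_dR, Fintype.sum_option]
    have e2 : dR H1 none = 1 + Q := by
      rw [cb_dR_opt, if_pos hnn]
      rfl
    have e3 : ∑ w, dR H1 (some w) = P + nE (fun w w' : U => H1 (some w) (some w')) := by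
      rw [nE_eq_sum_dR, hP]
      unfold dC
      rw [Finset.card_filter, ← Finset.sum_add_distrib]
      refine Finset.sum_congr rfl (fun w _ => ?_)
      rw [cb_dR_opt]
      rfl
    have e4 : nE (fun w w' : U => H (Sum.inr w) (Sum.inr w')) ≤
        nE (fun w w' : U => H1 (some w) (some w')) := nE_mono hUU
    omega
  have bUZ : nE (fun (w : U) (v : Z) => H (Sum.inr w) (Sum.inl v)) ≤ P * c0 := by
    rw [nE_eq_sum_dR, hP]
    unfold dC
    rw [Finset.card_filter, Finset.sum_mul]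
    refine Finset.sum_le_sum (fun w _ => ?_)
    by_cases h : H1 (some w) none
    · rw [if_pos h, one_mul]
      exact le_trans (cb_dR_le (B := H0) (k := i0) (fun v hv => (hUZ w v hv).2)) (h0r i0)
    · rw [if_neg h, zero_mul]
      exact le_of_eq (cb_dR_zero (fun v hv => h (hUZ w v hv).1))
  have bZU : nE (fun (v : Z) (w : U) => H (Sum.inl v) (Sum.inr w)) ≤ Q * r0 := by
    rw [nE_eq_sum_dC, hQ]
    unfold dR
    rw [Finset.card_filter, Finset.sum_mul]
    refine Finset.sum_le_sum (fun w _ => ?_)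
    obtain ⟨v', hv'⟩ := hZU w
    by_cases h : H1 none (some w)
    · rw [if_pos h, one_mul]
      exact le_trans (cb_dC_le (B := H0) (k := v') (fun v hv => (hv' v hv).2)) (h0c v')
    · rw [if_neg h, zero_mul]
      exact le_of_eq (cb_dC_zero (fun v hv => h (hv' v hv).1))
  have bZZ : nE (fun a b : Z => H (Sum.inl a) (Sum.inl b)) ≤ r0 * c0 := le_trans (nE_mono hZZ) h0
  have tot : nE H = nE (fun a b : Z => H (Sum.inl a) (Sum.inl b)) +
      nE (fun (v : Z) (w : U) => H (Sum.inl v) (Sum.inr w)) +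
      (nE (fun (w : U) (v : Z) => H (Sum.inr w) (Sum.inl v)) +
        nE (fun w w' : U => H (Sum.inr w) (Sum.inr w'))) := by
    rw [nE_eq_sum_dR, Fintype.sum_sum_type]
    simp only [nE_eq_sum_dR]
    rw [← Finset.sum_add_distrib, ← Finset.sum_add_distrib]
    congr 1
    · exact Finset.sum_congr rfl (fun v _ => cb_dR_sum H _)
    · exact Finset.sum_congr rfl (fun v _ => cb_dR_sum H _)
  refine ⟨by omega, by omega, r01, c01, ?_, ?_, ?_⟩
  · obtain ⟨R, rfl⟩ : ∃ R, r1 = R + 1 := ⟨r1 - 1, by omega⟩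
    obtain ⟨C, rfl⟩ : ∃ C, c1 = C + 1 := ⟨c1 - 1, by omega⟩
    obtain ⟨s, rfl⟩ : ∃ s, r0 = s + 1 := ⟨r0 - 1, by omega⟩
    obtain ⟨t, rfl⟩ : ∃ t, c0 = t + 1 := ⟨c0 - 1, by omega⟩
    have a1 : P * t ≤ R * t := Nat.mul_le_mul_right t (by omega)
    have a2 : Q * s ≤ C * s := Nat.mul_le_mul_right s (by omega)
    have e1 : R + 1 + (s + 1) - 1 = R + s + 1 := by omega
    have e2 : C + 1 + (t + 1) - 1 = C + t + 1 := by omega
    rw [e1, e2, tot]
    nlinarith
  · rintro (v | w')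
    · rw [cb_dC_sum]
      have a1 : dC (fun (a : Z) j => H (Sum.inl a) j) (Sum.inl v) ≤ r0 :=
        le_trans (cb_dC_le (B := H0) (k := v) (fun a ha => hZZ a v ha)) (h0c v)
      have a2 : dC (fun (w : U) j => H (Sum.inr w) j) (Sum.inl v) ≤ P :=
        cb_dC_le (fun w hw => (hUZ w v hw).1)
      omega
    · rw [cb_dC_sum]
      obtain ⟨v', hv'⟩ := hZU w'
      have a0 : dC (fun (w : U) j => H (Sum.inr w) j) (Sum.inr w') ≤
          dC (fun (a : U) j => H1 (some a) j) (some w') := cb_dC_le (fun w hw => hUU w w' hw)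
      have a3 := h1c (some w')
      rw [cb_dC_opt] at a3
      by_cases h : H1 none (some w')
      · rw [if_pos h] at a3
        have a1 : dC (fun (a : Z) j => H (Sum.inl a) j) (Sum.inr w') ≤ r0 :=
          le_trans (cb_dC_le (B := H0) (k := v') (fun v hv => (hv' v hv).2)) (h0c v')
        omega
      · rw [if_neg h] at a3
        have a1 : dC (fun (a : Z) j => H (Sum.inl a) j) (Sum.inr w') = 0 :=
          cb_dC_zero (fun v hv => h (hv' v hv).1)
        omega
  · rintro (v | w)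
    · rw [cb_dR_sum]
      have a1 : dR (fun i (b : Z) => H i (Sum.inl b)) (Sum.inl v) ≤ c0 :=
        le_trans (cb_dR_le (B := H0) (k := v) (fun b hb => hZZ v b hb)) (h0r v)
      have a2 : dR (fun i (w : U) => H i (Sum.inr w)) (Sum.inl v) ≤ Q :=
        cb_dR_le (fun w hw => (hZU w).elim (fun v' hv' => (hv' v hw).1))
      omega
    · rw [cb_dR_sum]
      have a0 : dR (fun i (w' : U) => H i (Sum.inr w')) (Sum.inr w) ≤
          dR (fun i (a : U) => H1 i (some a)) (some w) := cb_dR_le (fun w' hw => hUU w w' hw)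
      have a3 := h1r (some w)
      rw [cb_dR_opt] at a3
      by_cases h : H1 (some w) none
      · rw [if_pos h] at a3
        have a1 : dR (fun i (b : Z) => H i (Sum.inl b)) (Sum.inr w) ≤ c0 :=
          le_trans (cb_dR_le (B := H0) (k := i0) (fun v hv => (hUZ w v hv).2)) (h0r i0)
        omega
      · rw [if_neg h] at a3
        have a1 : dR (fun i (b : Z) => H i (Sum.inl b)) (Sum.inr w) = 0 :=
          cb_dR_zero (fun v hv => h (hUZ w v hv).1)
        omega

end SA

end MP_c02e9e_co
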