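import Pool.Agent.Lib.MP_c02e9e_co.SA.ModFI

/-!
# Transfer of cuts to the contraction `E1` on `Option U`
-/

namespace MP_c02e9e_co

namespace SA

open Finset

open scoped Classical

variable {Z U : Type} [Fintype Z] [Fintype U] {E F : Z ⊕ U → Z ⊕ U → Prop} {i0 : Z} {j0 : U}

/-- The size estimate. `S × T` is a rectangle of size at least `|Z| + |U|` without edges inside
`Z × Z`. Then `|con S| + |con T| ≥ |U| + 1`. PROOF. If `S ∩ Z` and `T ∩ Z` are both nonempty then
`|S ∩ Z| + |T ∩ Z| < |Z|` by `h.fiZ` (sets `S.toLeft`, `T.toLeft`), so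
`|S ∩ U| + |T ∩ U| ≥ |U| + 1` (`card_toLeft_add`), use `card_con_ge`. If `S ∩ Z = ∅` then either
`Z ⊆ T` and `|S ∩ U| + |T ∩ U| ≥ |U|`, use `card_con_ge'` for `T`, or `|T ∩ Z| < |Z|` and
`|S ∩ U| + |T ∩ U| ≥ |U| + 1`. Symmetric if `T ∩ Z = ∅`. -/
theorem Mod.con_size (h : Mod E F i0 j0) {S T : Finset (Z ⊕ U)}
    (hc : Fintype.card (Z ⊕ U) ≤ S.card + T.card)
    (hz : ∀ a b : Z, Sum.inl a ∈ S → Sum.inl b ∈ T → ¬ E (Sum.inl a) (Sum.inl b)) :
    Fintype.card (Option U) ≤ (con S).card + (con T).card := by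
  have hS := card_toLeft_add S
  have hT := card_toLeft_add T
  have hV : Fintype.card (Z ⊕ U) = Fintype.card Z + Fintype.card U := Fintype.card_sum
  have hO : Fintype.card (Option U) = Fintype.card U + 1 := Fintype.card_option
  have h1 := card_con_ge S
  have h2 := card_con_ge T
  rw [hV] at hc
  rw [hO]
  by_cases hSL : S.toLeft.Nonempty
  · by_cases hTL : T.toLeft.Nonempty
    · have h3 : S.toLeft.card + T.toLeft.card < Fintype.card Z := by
        by_contra hlt
        obtain ⟨i, hi, j, hj, hij⟩ := h.fiZ _ _ hSL hTL (not_lt.1 hlt)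
        exact hz i j (Finset.mem_toLeft.1 hi) (Finset.mem_toLeft.1 hj) hij
      omega
    · rw [Finset.not_nonempty_iff_eq_empty] at hTL
      rw [hTL, Finset.card_empty] at hT
      by_cases hZ : ∀ z : Z, Sum.inl z ∈ S
      · have h4 := card_con_ge' hZ
        have h5 : S.toLeft.card ≤ Fintype.card Z := Finset.card_le_univ _
        omega
      · have h5 : S.toLeft.card < Fintype.card Z := by
          rw [← Finset.card_univ]
          refine Finset.card_lt_card (Finset.ssubset_univ_iff.2 fun h6 => hZ fun z => ?_)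
          rw [← Finset.mem_toLeft, h6]
          exact Finset.mem_univ z
        omega
  · rw [Finset.not_nonempty_iff_eq_empty] at hSL
    rw [hSL, Finset.card_empty] at hS
    by_cases hZ : ∀ z : Z, Sum.inl z ∈ T
    · have h4 := card_con_ge' hZ
      have h5 : T.toLeft.card ≤ Fintype.card Z := Finset.card_le_univ _
      omega
    · have h5 : T.toLeft.card < Fintype.card Z := by
        rw [← Finset.card_univ]
        refine Finset.card_lt_card (Finset.ssubset_univ_iff.2 fun h6 => hZ fun z => ?_)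
        rw [← Finset.mem_toLeft, h6]
        exact Finset.mem_univ z
      omega

/-- PROOF. Size: `Mod.con_size` (an edge of `Z × Z` in `S × T` would be `(inr w, inr w')`).
Only edge: let `o ∈ con S`, `o' ∈ con T` with `E1 E o o'`. `none, none`: `Z ⊆ S`, `Z ⊆ T`, the
loop at an element of `Z` is an edge of the rectangle. `none, some y`: `E (inl v) (inr y)`, an
edge of the rectangle with row in `Z`. `some x, none`: likewise with column in `Z`.
`some x, some y`: by `hc.only`. -/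
theorem Mod.cut_UU (h : Mod E F i0 j0) {w w' : U} {S T : Finset (Z ⊕ U)}
    (hc : IsCut (Fintype.card (Z ⊕ U)) E (Sum.inr w) (Sum.inr w') S T) :
    IsCut (Fintype.card (Option U)) (E1 E) (some w) (some w') (con S) (con T) := by
  refine ⟨mem_con_some.2 hc.hu, mem_con_some.2 hc.hv, h.con_size hc.card
    (fun a b ha hb hE => Sum.inl_ne_inr (hc.only _ ha _ hb hE).1), ?_⟩
  rintro (_ | x) hx (_ | y) hy hE
  · exact absurd (hc.only _ (mem_con_none.1 hx i0) _ (mem_con_none.1 hy i0) (h.diag _)).1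
      Sum.inl_ne_inr
  · obtain ⟨v, hv⟩ := hE
    exact absurd (hc.only _ (mem_con_none.1 hx v) _ (mem_con_some.1 hy) hv).1 Sum.inl_ne_inr
  · obtain ⟨v, hv⟩ := hE
    exact absurd (hc.only _ (mem_con_some.1 hx) _ (mem_con_none.1 hy v) hv).2 Sum.inl_ne_inr
  · obtain ⟨h1, h2⟩ := hc.only _ (mem_con_some.1 hx) _ (mem_con_some.1 hy) hE
    rw [Sum.inr.inj h1, Sum.inr.inj h2]
    exact ⟨rfl, rfl⟩

/-- PROOF. `T` is the complement of `S` (`IsCut.compl h.diag`). `Z ⊆ S`: otherwise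
`S ∩ Z` (contains `i0`) and `T ∩ Z = Z - S` are both nonempty and have sizes adding up to `|Z|`,
so `h.fiZ` gives an edge of `Z × Z` in the rectangle, contradiction. So `none ∈ con S`,
`some j0 ∈ con T`. Size: `Mod.con_size`. Only edge: `none, none`: would need `Z ⊆ T`, impossible.
`none, some y`: `h.exit` gives `y = j0`. `some x, none`: `Z ⊆ T` impossible. `some x, some y`: an
edge `(inr x, inr y)` of the rectangle, impossible. -/
theorem Mod.cut_ZU (h : Mod E F i0 j0) {S T : Finset (Z ⊕ U)}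
    (hc : IsCut (Fintype.card (Z ⊕ U)) E (Sum.inl i0) (Sum.inr j0) S T) :
    IsCut (Fintype.card (Option U)) (E1 E) none (some j0) (con S) (con T) := by
  have hcp := fun x => IsCut.compl h.diag Sum.inl_ne_inr hc x
  have hZS : ∀ z : Z, Sum.inl z ∈ S := by
    intro z
    by_contra hz
    have hzT : Sum.inl z ∈ T := (hcp _).2 hz
    have hcard : Fintype.card Z ≤ S.toLeft.card + T.toLeft.card := by
      rw [← Finset.card_univ]
      refine (Finset.card_le_card fun a _ => ?_).trans (Finset.card_union_le S.toLeft T.toLeft)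
      rw [Finset.mem_union, Finset.mem_toLeft, Finset.mem_toLeft]
      by_cases ha : Sum.inl a ∈ S
      · exact Or.inl ha
      · exact Or.inr ((hcp _).2 ha)
    obtain ⟨i, hi, j, hj, hij⟩ := h.fiZ _ _ ⟨i0, Finset.mem_toLeft.2 hc.hu⟩
      ⟨z, Finset.mem_toLeft.2 hzT⟩ hcard
    exact Sum.inl_ne_inr
      (hc.only _ (Finset.mem_toLeft.1 hi) _ (Finset.mem_toLeft.1 hj) hij).2
  refine ⟨mem_con_none.2 hZS, mem_con_some.2 hc.hv, h.con_size hc.card
    (fun a b ha hb hE => Sum.inl_ne_inr (hc.only _ ha _ hb hE).2), ?_⟩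
  rintro (_ | x) hx (_ | y) hy hE
  · exact absurd (hZS i0) ((hcp _).1 (mem_con_none.1 hy i0))
  · obtain ⟨v, hv⟩ := hE
    rw [(h.exit v y hv).2]
    exact ⟨rfl, rfl⟩
  · exact absurd (hZS i0) ((hcp _).1 (mem_con_none.1 hy i0))
  · exact absurd (hc.only _ (mem_con_some.1 hx) _ (mem_con_some.1 hy) hE).1 Sum.inr_ne_inl

/-- PROOF. As in `Mod.cut_ZU`: `T` is the complement of `S`, `T ∩ Z` contains `v`; if `S ∩ Z` were
nonempty then `h.fiZ` gives an edge of `Z × Z` in the rectangle. So `S ∩ Z = ∅` and `Z ⊆ T`.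
-/
theorem Mod.cut_UZ_sub (h : Mod E F i0 j0) {w : U} {v : Z} {S T : Finset (Z ⊕ U)}
    (hc : IsCut (Fintype.card (Z ⊕ U)) E (Sum.inr w) (Sum.inl v) S T) (z : Z) :
    Sum.inl z ∈ T := by
  have hcp := fun x => IsCut.compl h.diag Sum.inr_ne_inl hc x
  by_contra hz
  have hzS : Sum.inl z ∈ S := by
    by_contra hz'
    exact hz ((hcp _).2 hz')
  have hcard : Fintype.card Z ≤ S.toLeft.card + T.toLeft.card := by
    rw [← Finset.card_univ]
    refine (Finset.card_le_card fun a _ => ?_).trans (Finset.card_union_le S.toLeft T.toLeft)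
    rw [Finset.mem_union, Finset.mem_toLeft, Finset.mem_toLeft]
    by_cases ha : Sum.inl a ∈ S
    · exact Or.inl ha
    · exact Or.inr ((hcp _).2 ha)
  obtain ⟨i, hi, j, hj, hij⟩ := h.fiZ _ _ ⟨z, Finset.mem_toLeft.2 hzS⟩
    ⟨v, Finset.mem_toLeft.2 hc.hv⟩ hcard
  exact Sum.inl_ne_inr (hc.only _ (Finset.mem_toLeft.1 hi) _ (Finset.mem_toLeft.1 hj) hij).1

/-- PROOF. `none ∈ con T` by `Mod.cut_UZ_sub`, size by `Mod.con_size` (no edge of `Z × Z` in the
rectangle), only edge: `none ∈ con S` is impossible (`Z ⊆ S` and `Z ⊆ T`, loop); `some x, none`: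
`E (inr x) (inl v')` with `inl v' ∈ T`, so `x = w`; `some x, some y`: impossible. -/
theorem Mod.cut_UZ (h : Mod E F i0 j0) {w : U} {v : Z} {S T : Finset (Z ⊕ U)}
    (hc : IsCut (Fintype.card (Z ⊕ U)) E (Sum.inr w) (Sum.inl v) S T) :
    IsCut (Fintype.card (Option U)) (E1 E) (some w) none (con S) (con T) := by
  have hcp := fun x => IsCut.compl h.diag Sum.inr_ne_inl hc x
  have hZT : ∀ z : Z, Sum.inl z ∈ T := fun z => h.cut_UZ_sub hc z
  refine ⟨mem_con_some.2 hc.hu, mem_con_none.2 hZT, h.con_size hc.card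
    (fun a b ha hb hE => Sum.inl_ne_inr (hc.only _ ha _ hb hE).1), ?_⟩
  rintro (_ | x) hx (_ | y) hy hE
  · exact absurd (mem_con_none.1 hx i0) ((hcp _).1 (hZT i0))
  · exact absurd (mem_con_none.1 hx i0) ((hcp _).1 (hZT i0))
  · obtain ⟨v', hv⟩ := hE
    rw [Sum.inr.inj (hc.only _ (mem_con_some.1 hx) _ (hZT v') hv).1]
    exact ⟨rfl, rfl⟩
  · exact absurd (hc.only _ (mem_con_some.1 hx) _ (mem_con_some.1 hy) hE).2 Sum.inr_ne_inl

/-- A marked edge from `w` to `Z` is the only edge from `w` to `Z`. PROOF. Take a cut `(S,T)` of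
`(inr w, inl v)`. `Z ⊆ T` (`Mod.cut_UZ_sub`), so `(inr w, inl v')` is an edge of the
rectangle. -/
theorem Mod.uniq_UZ (h : Mod E F i0 j0) {w : U} {v v' : Z} (hF : F (Sum.inr w) (Sum.inl v))
    (hE : E (Sum.inr w) (Sum.inl v')) : v' = v := by
  obtain ⟨S, T, hc⟩ := h.good.cut _ _ hF
  exact Sum.inl.inj (hc.only _ hc.hu _ (h.cut_UZ_sub hc v') hE).2

/-- Every marked edge of the contraction comes from a marked edge of `E` all of whose cuts
transfer. PROOF. Cases on `o`, `o'` (`cut_UU`, `cut_ZU`, `cut_UZ`; for `none, some w` one has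
`v = i0`, `w = j0` by `h.exit` and `h.good.sub`). -/
theorem Mod.lift1 (h : Mod E F i0 j0) {o o' : Option U} (ho : F1 F o o') :
    ∃ x y, F x y ∧ ∀ S T, IsCut (Fintype.card (Z ⊕ U)) E x y S T →
      IsCut (Fintype.card (Option U)) (E1 E) o o' (con S) (con T) := by
  rcases o with _ | w <;> rcases o' with _ | w'
  · exact absurd ho id
  · obtain ⟨v, hv⟩ := ho
    obtain ⟨rfl, rfl⟩ := h.exit v w' (h.good.sub _ _ hv)
    exact ⟨_, _, hv, fun S T hc => h.cut_ZU hc⟩
  · obtain ⟨v, hv⟩ := ho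
    exact ⟨_, _, hv, fun S T hc => h.cut_UZ hc⟩
  · exact ⟨_, _, ho, fun S T hc => h.cut_UU hc⟩

/-- PROOF. `fi := h.fi1`, `sub` by cases from `h.good.sub`, `cut` by `Mod.lift1` and
`h.good.cut`. -/
theorem Mod.good1 (h : Mod E F i0 j0) : Good (E1 E) (F1 F) := by
  refine ⟨h.fi1, ?_, ?_⟩
  · rintro (_ | w) (_ | w') ho
    · exact absurd ho id
    · obtain ⟨v, hv⟩ := ho
      exact ⟨v, h.good.sub _ _ hv⟩
    · obtain ⟨v, hv⟩ := ho
      exact ⟨v, h.good.sub _ _ hv⟩
    · exact h.good.sub _ _ ho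
  · intro o o' ho
    obtain ⟨x, y, hF, hcut⟩ := h.lift1 ho
    obtain ⟨S, T, hc⟩ := h.good.cut x y hF
    exact ⟨_, _, hcut S T hc⟩

end SA

end MP_c02e9e_co
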