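import Pool.Agent.Lib.MP_c02e9e_co.SA.Base

/-!
# H-paths: definitions
-/

namespace MP_c02e9e_co

namespace SA

open Finset

open scoped Classical

variable {ρ γ : Type}

/-- `(x,y)` is an H-path with row end `u` and column end `v`: the path `u - y - x - v` in which
the row `x` has exactly the edges `(x,y)`, `(x,v)` and the column `y` exactly `(x,y)`, `(u,y)`. -/
structure HPath (A : ρ → γ → Prop) (x : ρ) (y : γ) (u : ρ) (v : γ) : Prop where
  xy : A x y
  xv : A x v
  uy : A u y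
  x2 : ∀ j, A x j → j = y ∨ j = v
  y2 : ∀ i, A i y → i = x ∨ i = u
  ux : u ≠ x
  vy : v ≠ y

/-- Deleting row `x` and column `y` leaves a fully indecomposable relation of order `n - 1`. -/
def Rem (n : ℕ) (A : ρ → γ → Prop) (x : ρ) (y : γ) : Prop :=
  ∀ (S : Finset ρ) (T : Finset γ), S.Nonempty → T.Nonempty → x ∉ S → y ∉ T →
    n ≤ S.card + T.card + 1 → ∃ i ∈ S, ∃ j ∈ T, A i j

variable [Fintype ρ] [Fintype γ]

/-- The H-paths `(x,y)` both of whose ends have degree at least `k`. -/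
noncomputable def HP (A : ρ → γ → Prop) (k : ℕ) : Finset (ρ × γ) :=
  univ.filter (fun p => ∃ u v, HPath A p.1 p.2 u v ∧ k ≤ dR A u ∧ k ≤ dC A v)

theorem mem_HP {A : ρ → γ → Prop} {k : ℕ} {p : ρ × γ} :
    p ∈ HP A k ↔ ∃ u v, HPath A p.1 p.2 u v ∧ k ≤ dR A u ∧ k ≤ dC A v := by
  simp [HP]

theorem HP_mono {A : ρ → γ → Prop} {k l : ℕ} (h : k ≤ l) : HP A l ⊆ HP A k := by
  intro p hp
  rw [mem_HP] at hp ⊢
  obtain ⟨u, v, h1, h2, h3⟩ := hp
  exact ⟨u, v, h1, h.trans h2, h.trans h3⟩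

theorem HPath.swap {A : ρ → γ → Prop} {x : ρ} {y : γ} {u : ρ} {v : γ} (h : HPath A x y u v) :
    HPath (fun j i => A i j) y x v u :=
  ⟨h.xy, h.uy, h.xv, h.y2, h.x2, h.vy, h.ux⟩

/-- The row `x` of an H-path has degree two. -/
theorem HPath.dR_x {A : ρ → γ → Prop} {x : ρ} {y : γ} {u : ρ} {v : γ} (h : HPath A x y u v) :
    dR A x = 2 := by
  unfold dR
  rw [← Finset.card_pair h.vy.symm]
  congr 1
  ext j
  simp only [Finset.mem_filter, Finset.mem_univ, true_and, Finset.mem_insert,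
    Finset.mem_singleton]
  constructor
  · exact h.x2 j
  · rintro (rfl | rfl)
    · exact h.xy
    · exact h.xv

/-- The column `y` of an H-path has degree two. -/
theorem HPath.dC_y {A : ρ → γ → Prop} {x : ρ} {y : γ} {u : ρ} {v : γ} (h : HPath A x y u v) :
    dC A y = 2 := h.swap.dR_x

/-- If `(x,y)` and `(x,y')` are H-paths with big column ends then `y = y'`. -/
theorem HPath.y_unique {A : ρ → γ → Prop} {x : ρ} {y y' : γ} {u u' : ρ} {v v' : γ}
    (h : HPath A x y u v) (h' : HPath A x y' u' v') (hv : 3 ≤ dC A v) (_hv' : 3 ≤ dC A v') :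
    y = y' := by
  rcases h.x2 y' h'.xy with e | e
  · exact e.symm
  · exfalso
    have := h'.dC_y
    rw [e] at this
    omega

theorem HPath.x_unique {A : ρ → γ → Prop} {x x' : ρ} {y : γ} {u u' : ρ} {v v' : γ}
    (h : HPath A x y u v) (h' : HPath A x' y u' v') (hu : 3 ≤ dR A u) (hu' : 3 ≤ dR A u') :
    x = x' := h.swap.y_unique h'.swap hu hu'

theorem HPath.v_unique {A : ρ → γ → Prop} {x : ρ} {y : γ} {u u' : ρ} {v v' : γ}
    (h : HPath A x y u v) (h' : HPath A x y u' v') : v = v' := by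
  rcases h'.x2 v h.xv with e | e
  · exact absurd e h.vy
  · exact e

theorem HPath.u_unique {A : ρ → γ → Prop} {x : ρ} {y : γ} {u u' : ρ} {v v' : γ}
    (h : HPath A x y u v) (h' : HPath A x y u' v') : u = u' := by
  rcases h'.y2 u h.uy with e | e
  · exact absurd e h.ux
  · exact e

end SA

end MP_c02e9e_co
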