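import Pool.Agent.Lib.MP_c02e9e_co.SA.MatA
import Pool.Agent.Lib.MP_c02e9e_co.SA.HDefs

/-!
# Deleting a removable H-path
-/

namespace MP_c02e9e_co

namespace SA

open Finset

open scoped Classical

/-- Nearly decomposable matrices of order `n` with `3 n - d` ones. -/
noncomputable def cls (n d : ℕ) : Finset (BMat n) :=
  univ.filter (fun A => NearlyDecomposable A ∧ nE (rel A) + d = 3 * n)

/-- The matrix without row `x` and column `y`. -/
def del {m : ℕ} (A : BMat (m + 1)) (x y : Fin (m + 1)) : BMat m :=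
  fun i j => A (x.succAbove i) (y.succAbove j)

/-- The matrix obtained from `B` by inserting a row `x` with ones exactly in the columns `y`,
`y.succAbove v` and a column `y` with ones exactly in the rows `x`, `x.succAbove u`. -/
noncomputable def ins {m : ℕ} (x y : Fin (m + 1)) (B : BMat m) (u v : Fin m) : BMat (m + 1) :=
  fun i j => decide (
    (i = x ∧ (j = y ∨ j = y.succAbove v)) ∨ (j = y ∧ (i = x ∨ i = x.succAbove u)) ∨
    (∃ i' j', i = x.succAbove i' ∧ j = y.succAbove j' ∧ B i' j' = true))

/-- The preimage of a set of indices under `x.succAbove`. -/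
noncomputable def pre {m : ℕ} (x : Fin (m + 1)) (S : Finset (Fin (m + 1))) : Finset (Fin m) :=
  univ.filter (fun i => x.succAbove i ∈ S)

theorem mem_pre {m : ℕ} {x : Fin (m + 1)} {S : Finset (Fin (m + 1))} {i : Fin m} :
    i ∈ pre x S ↔ x.succAbove i ∈ S := by simp [pre]

/-- PROOF. `S` is the image of `pre x S` under `x.succAboveEmb`, together with `x` if `x ∈ S`
(`Fin.exists_succAbove_eq`). -/
theorem card_pre {m : ℕ} (x : Fin (m + 1)) (S : Finset (Fin (m + 1))) :
    S.card = (pre x S).card + (if x ∈ S then 1 else 0) := by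
  have h1 : (pre x S).map x.succAboveEmb = S.erase x := by
    ext i
    rw [Finset.mem_map, Finset.mem_erase]
    constructor
    · rintro ⟨a, ha, rfl⟩
      exact ⟨Fin.succAbove_ne x a, mem_pre.1 ha⟩
    · rintro ⟨hi, hiS⟩
      obtain ⟨a, ha⟩ := Fin.exists_succAbove_eq hi
      refine ⟨a, mem_pre.2 ?_, ha⟩
      rw [ha]
      exact hiS
  have h2 : (pre x S).card = (S.erase x).card := by rw [← h1, Finset.card_map]
  by_cases hx : x ∈ S
  · rw [if_pos hx, h2, Finset.card_erase_of_mem hx]
    have := Finset.card_pos.2 ⟨x, hx⟩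
    omega
  · rw [if_neg hx, h2, Finset.erase_eq_of_notMem hx]
    rfl

/-- Restriction of cuts. PROOF. `(x,y)` is an edge different from `(x.succAbove a, y.succAbove b)`,
so not both `x ∈ S` and `y ∈ T`; `card_pre`. -/
theorem IsCut.restrict {m : ℕ} {A : BMat (m + 1)} {x y : Fin (m + 1)} (hxy : rel A x y)
    {a b : Fin m} {S T : Finset (Fin (m + 1))}
    (h : IsCut (m + 1) (rel A) (x.succAbove a) (y.succAbove b) S T) :
    IsCut m (rel (del A x y)) a b (pre x S) (pre y T) := by
  have hne : ¬ (x ∈ S ∧ y ∈ T) := by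
    rintro ⟨hx, hy⟩
    exact Fin.succAbove_ne x a (h.only x hx y hy hxy).1.symm
  refine ⟨mem_pre.2 h.hu, mem_pre.2 h.hv, ?_, ?_⟩
  · have h1 := card_pre x S
    have h2 := card_pre y T
    have h3 := h.card
    by_cases hx : x ∈ S
    · have hy : y ∉ T := fun hy => hne ⟨hx, hy⟩
      rw [if_pos hx] at h1
      rw [if_neg hy] at h2
      omega
    · rw [if_neg hx] at h1
      by_cases hy : y ∈ T
      · rw [if_pos hy] at h2
        omega
      · rw [if_neg hy] at h2
        omega
  · intro i hi j hj hij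
    obtain ⟨e1, e2⟩ := h.only _ (mem_pre.1 hi) _ (mem_pre.1 hj) hij
    exact ⟨Fin.succAbove_right_injective e1, Fin.succAbove_right_injective e2⟩

/-- PROOF. `FIr`: `Rem` applied to the images of `S`, `T` under `succAbove` (`Fin.succAboveEmb`),
of size `|S|`, `|T|`, not containing `x`, `y`. Cuts: `IsCut.restrict`. Use `nd_iff` for `A` and for
`del A x y`. -/
theorem del_nd {m : ℕ} (hm : 2 ≤ m) {A : BMat (m + 1)} (hA : NearlyDecomposable A)
    {x y : Fin (m + 1)} {u v : Fin (m + 1)} (hp : HPath (rel A) x y u v)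
    (hr : Rem (m + 1) (rel A) x y) : NearlyDecomposable (del A x y) := by
  obtain ⟨h1, h2⟩ := (nd_iff (by omega) A).1 hA
  refine (nd_iff hm _).2 ⟨?_, ?_⟩
  · intro S T hS hT hc
    obtain ⟨i, hi, j, hj, hij⟩ := hr (S.map x.succAboveEmb) (T.map y.succAboveEmb)
      hS.map hT.map (by
        rw [Finset.mem_map]
        rintro ⟨a, -, ha⟩
        exact Fin.succAbove_ne x a ha) (by
        rw [Finset.mem_map]
        rintro ⟨a, -, ha⟩
        exact Fin.succAbove_ne y a ha) (by
        rw [Finset.card_map, Finset.card_map]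
        omega)
    rw [Finset.mem_map] at hi hj
    obtain ⟨i', hi', rfl⟩ := hi
    obtain ⟨j', hj', rfl⟩ := hj
    exact ⟨i', hi', j', hj', hij⟩
  · intro a b hab
    obtain ⟨S, T, hc⟩ := h2 _ _ hab
    exact ⟨pre x S, pre y T, hc.restrict hp.xy⟩

/-- PROOF. The edges of `A` not in row `x` or column `y` are in bijection with the edges of
`del A x y` (by `succAbove` in both coordinates); the others are `(x,y)`, `(x,v)`, `(u,y)`
(three different ones). -/
theorem del_nE {m : ℕ} {A : BMat (m + 1)} {x y : Fin (m + 1)} {u v : Fin (m + 1)}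
    (hp : HPath (rel A) x y u v) : nE (rel (del A x y)) + 3 = nE (rel A) := by
  let f : Fin m × Fin m ↪ Fin (m + 1) × Fin (m + 1) :=
    Function.Embedding.prodMap x.succAboveEmb y.succAboveEmb
  have hf : ∀ p, f p = (x.succAbove p.1, y.succAbove p.2) := fun _ => rfl
  have h1 : (univ.filter fun p : Fin (m + 1) × Fin (m + 1) => rel A p.1 p.2) =
      ((univ.filter fun p : Fin m × Fin m => rel (del A x y) p.1 p.2).map f) ∪
        {(x, y), (x, v), (u, y)} := by
    ext ⟨i, j⟩
    simp only [Finset.mem_filter, Finset.mem_univ, true_and, Finset.mem_union, Finset.mem_map,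
      Finset.mem_insert, Finset.mem_singleton, Prod.mk.injEq, hf, Prod.exists]
    constructor
    · intro hij
      by_cases hi : i = x
      · right
        rw [hi] at hij
        rcases hp.x2 j hij with h | h
        · exact Or.inl ⟨hi, h⟩
        · exact Or.inr (Or.inl ⟨hi, h⟩)
      · by_cases hj : j = y
        · right
          rw [hj] at hij
          rcases hp.y2 i hij with h | h
          · exact absurd h hi
          · exact Or.inr (Or.inr ⟨h, hj⟩)
        · left
          obtain ⟨a, ha⟩ := Fin.exists_succAbove_eq hi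
          obtain ⟨b, hb⟩ := Fin.exists_succAbove_eq hj
          refine ⟨a, b, ?_, ha, hb⟩
          change A (x.succAbove a) (y.succAbove b) = true
          rw [ha, hb]
          exact hij
    · rintro (⟨a, b, hab, rfl, rfl⟩ | ⟨rfl, rfl⟩ | ⟨rfl, rfl⟩ | ⟨rfl, rfl⟩)
      · exact hab
      · exact hp.xy
      · exact hp.xv
      · exact hp.uy
  have h2 : Disjoint ((univ.filter fun p : Fin m × Fin m => rel (del A x y) p.1 p.2).map f)
      {(x, y), (x, v), (u, y)} := by
    rw [Finset.disjoint_left]
    intro p hp1 hp2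
    rw [Finset.mem_map] at hp1
    obtain ⟨q, -, rfl⟩ := hp1
    simp only [Finset.mem_insert, Finset.mem_singleton, hf, Prod.mk.injEq] at hp2
    rcases hp2 with h | h | h
    · exact Fin.succAbove_ne x _ h.1
    · exact Fin.succAbove_ne x _ h.1
    · exact Fin.succAbove_ne y _ h.2
  have h3 : ({(x, y), (x, v), (u, y)} : Finset (Fin (m + 1) × Fin (m + 1))).card = 3 := by
    rw [Finset.card_eq_three]
    refine ⟨(x, y), (x, v), (u, y), ?_, ?_, ?_, rfl⟩
    · intro h
      exact hp.vy (Prod.mk.injEq _ _ _ _ ▸ h).2.symm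
    · intro h
      exact hp.ux (Prod.mk.injEq _ _ _ _ ▸ h).1.symm
    · intro h
      exact hp.ux (Prod.mk.injEq _ _ _ _ ▸ h).1.symm
  unfold nE
  rw [h1, Finset.card_union_of_disjoint h2, Finset.card_map, h3]

end SA

end MP_c02e9e_co
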