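import Pool.Agent.Lib.MP_c02e9e_co.SA.DelA

/-!
# The ends of a deleted H-path are an addable pair
-/

namespace MP_c02e9e_co

namespace SA

open Finset

open scoped Classical

/-- PROOF. Write `u = x.succAbove u'` (`u ≠ x`, `Fin.exists_succAbove_eq`), `v = y.succAbove v'`.
* `A = ins x y (del A x y) u' v'`: compare entries (`(i,j)` with `i = x`, `j = y`, or both
  different; an index different from `x` is `x.succAbove _`).
* `3 ≤ dR (rel (del A x y)) u'`: row `u` of `A` has at least four ones, one of them in column
  `y`. Same for `v'`.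
* `Add`: for an edge `(a,b)` of `del A x y` take a cut `(S,T)` in `A` of the corresponding edge and
  the preimages `S'`, `T'` as in `del_nd`. If `u' ∈ S'` and `v' ∈ T'` then `x ∉ S` (else `(x,v)`
  is a second edge), `y ∉ T` (else `(u,y)`), so `|S'| + |T'| = |S| + |T| ≥ m + 1`, which contradicts
  `IsCut.card_eq` for `del A x y`. -/
theorem del_adds {m : ℕ} (hm : 2 ≤ m) {A : BMat (m + 1)} (hA : NearlyDecomposable A)
    {x y : Fin (m + 1)} {u v : Fin (m + 1)} (hp : HPath (rel A) x y u v)
    (hr : Rem (m + 1) (rel A) x y) (hu : 4 ≤ dR (rel A) u) (hv : 4 ≤ dC (rel A) v) :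
    ∃ p ∈ adds (del A x y), A = ins x y (del A x y) p.1 p.2 := by
  obtain ⟨u', hu'⟩ := Fin.exists_succAbove_eq hp.ux
  obtain ⟨v', hv'⟩ := Fin.exists_succAbove_eq hp.vy
  have hD := del_nd hm hA hp hr
  obtain ⟨hDfi, -⟩ := (nd_iff hm _).1 hD
  obtain ⟨-, hAcut⟩ := (nd_iff (by omega) A).1 hA
  refine ⟨(u', v'), ?_, ?_⟩
  · unfold adds
    rw [Finset.mem_filter]
    refine ⟨Finset.mem_univ _, ?_, ?_, ?_⟩
    · -- row
      change 3 ≤ dR (rel (del A x y)) u'
      have h1 := card_pre y (univ.filter (fun j => rel A u j))
      have h2 : pre y (univ.filter (fun j => rel A u j)) =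
          univ.filter (fun j => rel (del A x y) u' j) := by
        ext j
        rw [mem_pre, Finset.mem_filter, Finset.mem_filter]
        simp only [Finset.mem_univ, true_and]
        rw [← hu']
        exact Iff.rfl
      rw [h2] at h1
      unfold dR at hu ⊢
      split_ifs at h1 <;> omega
    · change 3 ≤ dC (rel (del A x y)) v'
      have h1 := card_pre x (univ.filter (fun i => rel A i v))
      have h2 : pre x (univ.filter (fun i => rel A i v)) =
          univ.filter (fun i => rel (del A x y) i v') := by
        ext i
        rw [mem_pre, Finset.mem_filter, Finset.mem_filter]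
        simp only [Finset.mem_univ, true_and]
        rw [← hv']
        exact Iff.rfl
      rw [h2] at h1
      unfold dC at hv ⊢
      split_ifs at h1 <;> omega
    · intro a b hab
      obtain ⟨S, T, hST⟩ := hAcut (x.succAbove a) (y.succAbove b) hab
      have hres := IsCut.restrict hp.xy hST
      refine ⟨pre x S, pre y T, by rw [Fintype.card_fin]; exact hres, ?_⟩
      rintro ⟨h1, h2⟩
      rw [mem_pre] at h1 h2
      simp only at h1 h2
      rw [hu'] at h1
      rw [hv'] at h2
      have hxS : x ∉ S := by
        intro hx
        exact Fin.ne_succAbove x a (hST.only x hx v h2 hp.xv).1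
      have hyT : y ∉ T := by
        intro hy
        exact Fin.ne_succAbove y b (hST.only u h1 y hy hp.uy).2
      have c1 := card_pre x S
      have c2 := card_pre y T
      rw [if_neg hxS] at c1
      rw [if_neg hyT] at c2
      have c3 := hST.card
      have c4 := hres.card_eq hm hDfi (Fintype.card_fin m)
      omega
  · ext i j
    rw [Bool.eq_iff_iff]
    unfold ins
    rw [decide_eq_true_iff]
    simp only
    by_cases hi : i = x
    · by_cases hj : j = y
      · rw [hi, hj]
        exact ⟨fun _ => Or.inl ⟨rfl, Or.inl rfl⟩, fun _ => hp.xy⟩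
      · rw [hi]
        constructor
        · intro h
          rcases hp.x2 j h with h1 | h1
          · exact absurd h1 hj
          · exact Or.inl ⟨rfl, Or.inr (by rw [h1, hv'])⟩
        · rintro (⟨-, h1 | h1⟩ | ⟨h1, -⟩ | ⟨i', j', h1, -⟩)
          · exact absurd h1 hj
          · rw [h1, hv']
            exact hp.xv
          · exact absurd h1 hj
          · exact absurd h1 (Fin.ne_succAbove x i')
    · by_cases hj : j = y
      · rw [hj]
        constructor
        · intro h
          rcases hp.y2 i h with h1 | h1
          · exact absurd h1 hi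
          · exact Or.inr (Or.inl ⟨rfl, Or.inr (by rw [h1, hu'])⟩)
        · rintro (⟨h1, -⟩ | ⟨-, h1 | h1⟩ | ⟨i', j', -, h1, -⟩)
          · exact absurd h1 hi
          · exact absurd h1 hi
          · rw [h1, hu']
            exact hp.uy
          · exact absurd h1 (Fin.ne_succAbove y j')
      · obtain ⟨i', hi'⟩ := Fin.exists_succAbove_eq hi
        obtain ⟨j', hj'⟩ := Fin.exists_succAbove_eq hj
        constructor
        · intro h
          refine Or.inr (Or.inr ⟨i', j', hi'.symm, hj'.symm, ?_⟩)
          unfold del
          rw [hi', hj']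
          exact h
        · rintro (⟨h1, -⟩ | ⟨h1, -⟩ | ⟨i2, j2, h1, h2, h3⟩)
          · exact absurd h1 hi
          · exact absurd h1 hj
          · rw [h1, h2]
            exact h3

end SA

end MP_c02e9e_co
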