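import Pool.Agent.Lib.MP_c02e9e_co.SA.CutU

/-!
# The number of marked edges in the module situation
-/

namespace MP_c02e9e_co

namespace SA

open Finset

open scoped Classical

variable {Z U : Type} [Fintype Z] [Fintype U] {E F : Z ⊕ U → Z ⊕ U → Prop} {i0 : Z} {j0 : U}

/-- The map of the counting argument. -/
def fmap : (Z ⊕ U) × (Z ⊕ U) → (Option U × Option U) ⊕ (Z × Z)
  | (Sum.inl a, Sum.inl b) => Sum.inr (a, b)
  | (Sum.inl _, Sum.inr b) => Sum.inl (none, some b)
  | (Sum.inr w, Sum.inl _) => Sum.inl (some w, none)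
  | (Sum.inr w, Sum.inr w') => Sum.inl (some w, some w')

theorem Mod.nF_le (h : Mod E F i0 j0) : nE F ≤ nE (F1 F) + nE (F0 F) := by
  unfold nE
  rw [← Finset.card_disjSum]
  apply Finset.card_le_card_of_injOn fmap
  · rintro ⟨x, y⟩ hxy
    have hF : F x y := by simpa using hxy
    rw [Finset.mem_coe]
    rcases x with a | a <;> rcases y with b | b
    · simp only [fmap, Finset.inr_mem_disjSum, Finset.mem_filter, Finset.mem_univ, true_and]
      exact hF
    · simp only [fmap, Finset.inl_mem_disjSum, Finset.mem_filter, Finset.mem_univ, true_and]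
      exact ⟨a, hF⟩
    · simp only [fmap, Finset.inl_mem_disjSum, Finset.mem_filter, Finset.mem_univ, true_and]
      exact ⟨b, hF⟩
    · simp only [fmap, Finset.inl_mem_disjSum, Finset.mem_filter, Finset.mem_univ, true_and]
      exact hF
  · rintro ⟨x, y⟩ hxy ⟨x', y'⟩ hxy' heq
    have hF : F x y := by simpa using hxy
    have hF' : F x' y' := by simpa using hxy'
    rcases x with a | a <;> rcases y with b | b <;> rcases x' with a' | a' <;>
      rcases y' with b' | b' <;> simp only [fmap, Sum.inl.injEq, Sum.inr.injEq, Prod.mk.injEq,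
        Option.some.injEq, reduceCtorEq, and_false, false_and, and_true, true_and] at heq
    · rw [heq.1, heq.2]
    · obtain ⟨e1, e2⟩ := h.exit _ _ (h.good.sub _ _ hF)
      obtain ⟨e1', e2'⟩ := h.exit _ _ (h.good.sub _ _ hF')
      rw [e1, e1', heq]
    · subst heq
      rw [h.uniq_UZ hF (h.good.sub _ _ hF')]
    · rw [heq.1, heq.2]

end SA

end MP_c02e9e_co
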