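import Pool.Agent.Lib.MP_c02e9e_co.SA.AnL
import Pool.Agent.Lib.MP_c02e9e_co.SA.AnU2

/-!
# The final asymptotics
-/

namespace MP_c02e9e_co

namespace SA

open Filter Asymptotics Topology

theorem final_bigO :
    (fun n : ℕ => Real.log (numND n) -
      (3 * n * Real.log n - 2 * n * Real.log (Real.log n) - 3 * n)) =O[atTop]
      (fun n : ℕ => n * Real.log (Real.log n) / Real.log n) := by
  obtain ⟨C1, h1⟩ := lower_final
  obtain ⟨C2, h2⟩ := upper_final (fun n hn => numND_pos hn)
  apply IsBigO.of_bound (max C1 C2)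
  have h3 : ∀ᶠ n : ℕ in atTop, Real.exp 1 ≤ Real.log (n:ℝ) :=
    (Real.tendsto_log_atTop.comp tendsto_natCast_atTop_atTop).eventually_ge_atTop _
  filter_upwards [h1, h2, h3] with n h1 h2 h3
  have he : 0 < Real.exp 1 := Real.exp_pos 1
  have hl : 1 ≤ Real.log (Real.log n) := by
    have := Real.log_le_log he h3
    rwa [Real.log_exp] at this
  have hp : 0 ≤ n * Real.log (Real.log n) / Real.log n := by
    apply div_nonneg
    · positivity
    · linarith
  rw [Real.norm_eq_abs, Real.norm_eq_abs, abs_of_nonneg hp, abs_le]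
  have h4 : C1 * (n * Real.log (Real.log n) / Real.log n) ≤
      max C1 C2 * (n * Real.log (Real.log n) / Real.log n) :=
    mul_le_mul_of_nonneg_right (le_max_left _ _) hp
  have h5 : C2 * (n * Real.log (Real.log n) / Real.log n) ≤
      max C1 C2 * (n * Real.log (Real.log n) / Real.log n) :=
    mul_le_mul_of_nonneg_right (le_max_right _ _) hp
  constructor <;> linarith

theorem final_tendsto :
    Tendsto (fun n : ℕ => (numND n : ℝ) ^ ((1:ℝ) / n) * (Real.log n) ^ 2 / (n:ℝ) ^ 3) atTop
      (𝓝 (Real.exp (-3))) := by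
  have h0 := final_bigO
  have hL : Tendsto (fun n : ℕ => Real.log (n:ℝ)) atTop atTop :=
    Real.tendsto_log_atTop.comp tendsto_natCast_atTop_atTop
  have h1 : (fun n : ℕ => Real.log (numND n) -
      (3 * n * Real.log n - 2 * n * Real.log (Real.log n) - 3 * n)) =o[atTop]
      (fun n : ℕ => (n:ℝ)) := by
    refine h0.trans_isLittleO ?_
    have h2 : (fun n : ℕ => Real.log (Real.log (n:ℝ)) / Real.log n) =o[atTop]
        (fun _ : ℕ => (1:ℝ)) := by
      rw [isLittleO_one_iff]
      have h3 : Tendsto (fun x : ℝ => Real.log x / x) atTop (𝓝 0) := by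
        have := Real.isLittleO_log_id_atTop.tendsto_div_nhds_zero
        simpa using this
      exact h3.comp hL
    have h4 := (isBigO_refl (fun n : ℕ => (n:ℝ)) atTop).mul_isLittleO h2
    refine (h4.congr (fun n => ?_) (fun n => ?_))
    · ring
    · ring
  have h2 : Tendsto (fun n : ℕ => (Real.log (numND n) -
      (3 * n * Real.log n - 2 * n * Real.log (Real.log n) - 3 * n)) / n) atTop (𝓝 0) :=
    h1.tendsto_div_nhds_zero
  have h3 : Tendsto (fun n : ℕ => Real.exp ((Real.log (numND n) -
      (3 * n * Real.log n - 2 * n * Real.log (Real.log n) - 3 * n)) / n - 3)) atTop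
      (𝓝 (Real.exp (0 - 3))) :=
    (Real.continuous_exp.tendsto _).comp (h2.sub_const 3)
  rw [zero_sub] at h3
  refine h3.congr' ?_
  filter_upwards [hL.eventually_ge_atTop 1, eventually_ge_atTop 3] with n hn hn3
  have hn0 : (0:ℝ) < n := by positivity
  have hL0 : 0 < Real.log n := by linarith
  have hN : (0:ℝ) < numND n := by exact_mod_cast numND_pos hn3
  have e1 : (numND n : ℝ) ^ ((1:ℝ) / n) = Real.exp (Real.log (numND n) / n) := by
    rw [Real.rpow_def_of_pos hN]
    congr 1
    ring
  have e2 : (Real.log n) ^ 2 = Real.exp (2 * Real.log (Real.log n)) := by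
    rw [mul_comm, Real.exp_mul, Real.exp_log hL0]
    norm_num
  have e3 : (n:ℝ) ^ 3 = Real.exp (3 * Real.log n) := by
    rw [mul_comm, Real.exp_mul, Real.exp_log hn0]
    norm_num
  rw [e1, e2, e3, ← Real.exp_add, ← Real.exp_sub]
  congr 1
  field_simp
  ring

end SA

end MP_c02e9e_co
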