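import Pool.Agent.Lib.MP_c02e9e_co.SA.HCountA

/-!
# The number of H-paths with big ends
-/

namespace MP_c02e9e_co

namespace SA

open Finset

open scoped Classical

variable {ρ γ : Type} [Fintype ρ] [Fintype γ]

omit [Fintype ρ] in
/-- The other neighbour of a row of degree two. -/
theorem other_nb {A : ρ → γ → Prop} {x : ρ} {y : γ} (hx : dR A x = 2) (hxy : A x y) :
    ∃ v, v ≠ y ∧ A x v ∧ ∀ j, A x j → j = y ∨ j = v := by
  unfold dR at hx
  rw [Finset.card_eq_two] at hx
  obtain ⟨a, b, hab, he⟩ := hx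
  have hm : ∀ j, A x j ↔ j = a ∨ j = b := by
    intro j
    have : j ∈ univ.filter (fun j => A x j) ↔ j ∈ ({a, b} : Finset γ) := by rw [he]
    simpa using this
  rcases (hm y).1 hxy with h | h
  · subst h
    exact ⟨b, hab.symm, (hm b).2 (Or.inr rfl), fun j hj => (hm j).1 hj⟩
  · subst h
    exact ⟨a, hab, (hm a).2 (Or.inl rfl), fun j hj => ((hm j).1 hj).symm⟩

/-- PROOF. `(x,y) ∈ eSR ∩ eSC`: row `x` has exactly two neighbours `y` and `v` (`dR A x = 2`,
`Finset.card_eq_two`), `v ≠ y`, `3 ≤ dC A v`; column `y` exactly `x` and `u`. So it is an H-path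
with big ends. -/
theorem inter_sub_HP (A : ρ → γ → Prop) : eSR A ∩ eSC A ⊆ HP A 3 := by
  rintro ⟨x, y⟩ hp
  simp only [eSR, eSC, eS, Finset.mem_inter, Finset.mem_filter, Finset.mem_univ, true_and] at hp
  obtain ⟨⟨⟨hxy, hx, hy⟩, h1⟩, -, h2⟩ := hp
  obtain ⟨v, hvy, hxv, hv⟩ := other_nb hx hxy
  obtain ⟨u, hux, huy, hu⟩ := other_nb (A := fun j i => A i j) (x := y) (y := x) hy hxy
  rw [mem_HP]
  exact ⟨u, v, ⟨hxy, hxv, huy, hv, hu, hux, hvy⟩, h2 u huy hux, h1 v hxv hvy⟩

/-- The H-paths with big ends whose row end has degree three. -/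
theorem HP_fiber (A : ρ → γ → Prop) :
    ((HP A 3).filter (fun p => ∃ u v, HPath A p.1 p.2 u v ∧ dR A u = 3)).card ≤
      3 * (bR A).card := by
  have key : ∀ p ∈ (HP A 3).filter (fun p => ∃ u v, HPath A p.1 p.2 u v ∧ dR A u = 3),
      ∃ u, (∃ v, HPath A p.1 p.2 u v) ∧ dR A u = 3 := by
    intro p hp
    rw [Finset.mem_filter] at hp
    obtain ⟨-, u, v, h1, h2⟩ := hp
    exact ⟨u, ⟨v, h1⟩, h2⟩
  let f : ρ × γ → ρ := fun p =>
    if h : ∃ u, (∃ v, HPath A p.1 p.2 u v) ∧ dR A u = 3 then h.choose else p.1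
  have hf : ∀ p ∈ (HP A 3).filter (fun p => ∃ u v, HPath A p.1 p.2 u v ∧ dR A u = 3),
      (∃ v, HPath A p.1 p.2 (f p) v) ∧ dR A (f p) = 3 := by
    intro p hp
    have h := key p hp
    simp only [f, dif_pos h]
    exact h.choose_spec
  apply Finset.card_le_mul_card_image_of_maps_to (f := f)
  · intro p hp
    simp only [bR, Finset.mem_filter, Finset.mem_univ, true_and]
    rw [(hf p hp).2]
  · intro b _
    rcases Finset.eq_empty_or_nonempty
      (((HP A 3).filter (fun p => ∃ u v, HPath A p.1 p.2 u v ∧ dR A u = 3)).filter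
        (fun p => f p = b)) with he | ⟨p0, hp0⟩
    · rw [he]
      simp
    · rw [Finset.mem_filter] at hp0
      have hb : dR A b = 3 := by
        rw [← hp0.2]
        exact (hf p0 hp0.1).2
      refine le_trans ?_ hb.le
      show _ ≤ (univ.filter (fun j => A b j)).card
      apply Finset.card_le_card_of_injOn Prod.snd
      · intro p hp
        rw [Finset.mem_coe, Finset.mem_filter]
        refine ⟨Finset.mem_univ _, ?_⟩
        rw [Finset.mem_coe, Finset.mem_filter] at hp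
        obtain ⟨v, hv⟩ := (hf p hp.1).1
        rw [hp.2] at hv
        exact hv.uy
      · intro p hp q hq hpq
        rw [Finset.mem_coe, Finset.mem_filter] at hp hq
        obtain ⟨v, hv⟩ := (hf p hp.1).1
        obtain ⟨v', hv'⟩ := (hf q hq.1).1
        rw [hp.2] at hv
        rw [hq.2, ← hpq] at hv'
        exact Prod.ext (hv.x_unique hv' (by rw [hb]) (by rw [hb])) hpq

/-- PROOF. An element `(x,y)` of `HP A 3 \ HP A 4` has an end `u` with `dR A u = 3` or an end `v`
with `dC A v = 3`. In the first case map it to `(u,y)`, an edge at a row of degree three of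
`bR A`: injective (`y` determines `x`: `HPath.x_unique`), and there are at most `3 |bR A|` such
edges. In the second case map it to `(x,v)`, at most `3 |bC A|` edges. -/
theorem HP_three_le (A : ρ → γ → Prop) :
    (HP A 3).card ≤ (HP A 4).card + 3 * (bR A).card + 3 * (bC A).card := by
  have h1 := HP_fiber A
  have h2 := HP_fiber (fun j i => A i j)
  have h2' : ((HP A 3).filter (fun p => ∃ u v, HPath A p.1 p.2 u v ∧ dC A v = 3)).card ≤
      3 * (bC A).card := by
    refine le_trans ?_ h2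
    apply Finset.card_le_card_of_injOn Prod.swap
    · intro p hp
      rw [Finset.mem_coe, Finset.mem_filter, mem_HP] at hp ⊢
      obtain ⟨⟨u, v, h3, h4, h5⟩, u', v', h6, h7⟩ := hp
      exact ⟨⟨v, u, h3.swap, h5, h4⟩, v', u', h6.swap, h7⟩
    · exact Prod.swap_injective.injOn
  have hsub : HP A 3 ⊆ HP A 4 ∪
      ((HP A 3).filter (fun p => ∃ u v, HPath A p.1 p.2 u v ∧ dR A u = 3) ∪
       (HP A 3).filter (fun p => ∃ u v, HPath A p.1 p.2 u v ∧ dC A v = 3)) := by
    intro p hp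
    have hp' := hp
    rw [mem_HP] at hp'
    obtain ⟨u, v, h3, h4, h5⟩ := hp'
    rw [Finset.mem_union, Finset.mem_union, Finset.mem_filter, Finset.mem_filter]
    by_cases h6 : dR A u = 3
    · exact Or.inr (Or.inl ⟨hp, u, v, h3, h6⟩)
    · by_cases h7 : dC A v = 3
      · exact Or.inr (Or.inr ⟨hp, u, v, h3, h7⟩)
      · left
        rw [mem_HP]
        exact ⟨u, v, h3, by omega, by omega⟩
  have h3 := Finset.card_le_card hsub
  have h4 := Finset.card_union_le (HP A 4)
    ((HP A 3).filter (fun p => ∃ u v, HPath A p.1 p.2 u v ∧ dR A u = 3) ∪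
       (HP A 3).filter (fun p => ∃ u v, HPath A p.1 p.2 u v ∧ dC A v = 3))
  have h5 := Finset.card_union_le
    ((HP A 3).filter (fun p => ∃ u v, HPath A p.1 p.2 u v ∧ dR A u = 3))
    ((HP A 3).filter (fun p => ∃ u v, HPath A p.1 p.2 u v ∧ dC A v = 3))
  omega

/-- PROOF. Write `S, X, F, I, b` for `|eS|`, `|eRC| + |eCR|`, `|eF|`, `|iR| + |iC|`,
`|bR| + |bC|`. `row_count`, `col_count`: `2 |sR| + 2 |sC| = 2 S + X`; `sR_add_bR`, `sC_add_bC`:
`|sR| + |sC| = 2 n - b`; `forest_bound`: `F + I ≤ b`; `nE_split`; `b ≤ 2 d` by `nE_le_three`;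
`|HP 3| ≥ |eSR ∩ eSC| ≥ |eSR| + |eSC| - S`; `eSR_ge`, `eSC_ge`, `HP_three_le`; the rest is `omega`:
`S = n + d - 2 b + F`, `|HP 3| ≥ n - 3 d + 4 b - 3 F - 2 I ≥ n - 3 d + b`,
`|HP 4| ≥ n - 3 d - 2 b ≥ n - 7 d`. -/
theorem hp_count {n d : ℕ} (hn : 2 ≤ n) {A : ρ → γ → Prop} (hA : FIr n A)
    (hρ : Fintype.card ρ = n) (hγ : Fintype.card γ = n)
    (hcut : ∀ u v, A u v → ∃ S T, IsCut n A u v S T) (hd : nE A + d = 3 * n) :
    n ≤ (HP A 4).card + 7 * d := by
  have hdR : ∀ i, 2 ≤ dR A i := two_le_dR (fir_iff_fi.1 hA) hγ hn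
  have hdC : ∀ j, 2 ≤ dC A j := two_le_dR (fir_iff_fi.1 hA).swap hρ hn
  have hcut' : ∀ u v, A u v → ∃ S T, Cut n A u v S T := by
    intro u v huv
    obtain ⟨S, T, hc⟩ := hcut u v huv
    exact ⟨S, T, (isCut_iff_cut hn hA hγ).1 hc⟩
  have h1 := row_count hdC
  have h2 := col_count hdR
  have h3 := sR_add_bR hdR
  have h4 := sC_add_bC hdC
  have h5 := forest_bound (fir_iff_fi.1 hA) hρ hγ hcut'
  have h6 := nE_split hdR hdC
  have h7 := nE_le_three hn hA hρ hγ hcut
  have h8 := eSR_ge hdC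
  have h9 := eSC_ge hdR
  have h10 := Finset.card_le_card (inter_sub_HP A)
  have h11 := HP_three_le A
  have h12 := Finset.card_union_add_card_inter (eSR A) (eSC A)
  have h13 : (eSR A ∪ eSC A).card ≤ (eS A).card := by
    apply Finset.card_le_card
    apply Finset.union_subset
    · exact Finset.filter_subset _ _
    · exact Finset.filter_subset _ _
  rw [hρ] at h3
  rw [hγ] at h4
  omega

end SA

end MP_c02e9e_co
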