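import Pool.Agent.Lib.MP_c02e9e_co.SA.HDefs

/-!
# The number of small-small edges with big further neighbours
-/

namespace MP_c02e9e_co

namespace SA

open Finset

open scoped Classical

variable {ρ γ : Type} [Fintype ρ] [Fintype γ]

theorem nE_split {A : ρ → γ → Prop} (hR : ∀ i, 2 ≤ dR A i) (hC : ∀ j, 2 ≤ dC A j) :
    nE A = (eS A).card + (eRC A).card + (eCR A).card + (eF A).card := by
  unfold nE
  have h0 := Finset.card_filter_add_card_filter_not
    (s := univ.filter (fun p : ρ × γ => A p.1 p.2)) (fun p => dR A p.1 = 2)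
  have h1 := Finset.card_filter_add_card_filter_not
    (s := (univ.filter (fun p : ρ × γ => A p.1 p.2)).filter (fun p => dR A p.1 = 2))
    (fun p => dC A p.2 = 2)
  have h2 := Finset.card_filter_add_card_filter_not
    (s := (univ.filter (fun p : ρ × γ => A p.1 p.2)).filter (fun p => ¬ dR A p.1 = 2))
    (fun p => dC A p.2 = 2)
  have e1 : ((univ.filter (fun p : ρ × γ => A p.1 p.2)).filter (fun p => dR A p.1 = 2)).filter
      (fun p => dC A p.2 = 2) = eS A := by
    ext p
    simp only [Finset.mem_filter, Finset.mem_univ, true_and, eS]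
    tauto
  have e2 : ((univ.filter (fun p : ρ × γ => A p.1 p.2)).filter (fun p => dR A p.1 = 2)).filter
      (fun p => ¬ dC A p.2 = 2) = eRC A := by
    ext p
    have := hC p.2
    simp only [Finset.mem_filter, Finset.mem_univ, true_and, eRC]
    constructor
    · rintro ⟨⟨h3, h4⟩, h5⟩
      exact ⟨h3, h4, by omega⟩
    · rintro ⟨h3, h4, h5⟩
      exact ⟨⟨h3, h4⟩, by omega⟩
  have e3 : ((univ.filter (fun p : ρ × γ => A p.1 p.2)).filter (fun p => ¬ dR A p.1 = 2)).filter
      (fun p => dC A p.2 = 2) = eCR A := by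
    ext p
    have := hR p.1
    simp only [Finset.mem_filter, Finset.mem_univ, true_and, eCR]
    constructor
    · rintro ⟨⟨h3, h4⟩, h5⟩
      exact ⟨h3, by omega, h5⟩
    · rintro ⟨h3, h4, h5⟩
      exact ⟨⟨h3, by omega⟩, h5⟩
  have e4 : ((univ.filter (fun p : ρ × γ => A p.1 p.2)).filter (fun p => ¬ dR A p.1 = 2)).filter
      (fun p => ¬ dC A p.2 = 2) = eF A := by
    ext p
    have := hR p.1
    have := hC p.2
    simp only [Finset.mem_filter, Finset.mem_univ, true_and, eF]
    constructor
    · rintro ⟨⟨h3, h4⟩, h5⟩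
      exact ⟨h3, by omega, by omega⟩
    · rintro ⟨h3, h4, h5⟩
      exact ⟨⟨h3, by omega⟩, by omega⟩
  rw [e1, e2] at h1
  rw [e3, e4] at h2
  omega

theorem nE_le_three {n : ℕ} (hn : 2 ≤ n) {A : ρ → γ → Prop} (hA : FIr n A)
    (hρ : Fintype.card ρ = n) (hγ : Fintype.card γ = n)
    (hcut : ∀ u v, A u v → ∃ S T, IsCut n A u v S T) :
    2 * nE A + ((bR A).card + (bC A).card) ≤ 6 * n := by
  have hcut' : ∀ u v, A u v → ∃ S T, Cut n A u v S T := by
    intro u v huv
    obtain ⟨S, T, h⟩ := hcut u v huv
    exact ⟨S, T, (isCut_iff_cut hn hA hγ).1 h⟩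
  obtain ⟨κ, h1, h2, h3, h4⟩ := numeric hn hA hρ hγ hcut'
  have hR : ∀ i, 2 ≤ dR A i := two_le_dR hA hγ hn
  have hC : ∀ j, 2 ≤ dC A j := two_le_dR (A := fun j i => A i j) hA.swap hρ hn
  have h5 := nE_split hR hC
  omega

/-- The small-small edges `(x,y)` such that the other neighbour of `x` is big. -/
noncomputable def eSR (A : ρ → γ → Prop) : Finset (ρ × γ) :=
  (eS A).filter (fun p => ∀ j, A p.1 j → j ≠ p.2 → 3 ≤ dC A j)

/-- The small-small edges `(x,y)` such that the other neighbour of `y` is big. -/
noncomputable def eSC (A : ρ → γ → Prop) : Finset (ρ × γ) :=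
  (eS A).filter (fun p => ∀ i, A i p.2 → i ≠ p.1 → 3 ≤ dR A i)

/-- Rows of degree two both of whose neighbours are small. -/
noncomputable def bb (A : ρ → γ → Prop) : Finset ρ :=
  univ.filter (fun i => dR A i = 2 ∧ ∀ j, A i j → dC A j = 2)

theorem bb_le {A : ρ → γ → Prop} :
    2 * (bb A).card + (eSR A).card ≤ (eS A).card := by
  have hE : ((bb A).sigma (fun i => univ.filter (fun j => A i j))).card = 2 * (bb A).card := by
    rw [Finset.card_sigma, Finset.sum_congr rfl (g := fun _ => 2), Finset.sum_const, smul_eq_mul,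
      mul_comm]
    intro i hi
    simp only [bb, Finset.mem_filter, Finset.mem_univ, true_and] at hi
    exact hi.1
  set B : Finset (ρ × γ) :=
    ((bb A).sigma (fun i => univ.filter (fun j => A i j))).image (fun p => (p.1, p.2)) with hB
  have hBc : B.card = 2 * (bb A).card := by
    rw [hB, Finset.card_image_of_injective, hE]
    rintro ⟨a, b⟩ ⟨c, d⟩ hh
    simp only [Prod.mk.injEq] at hh
    obtain ⟨rfl, rfl⟩ := hh
    rfl
  have hmem : ∀ p : ρ × γ, p ∈ B ↔ (dR A p.1 = 2 ∧ ∀ j, A p.1 j → dC A j = 2) ∧ A p.1 p.2 := by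
    intro p
    rw [hB, Finset.mem_image]
    constructor
    · rintro ⟨q, hq, rfl⟩
      simp only [Finset.mem_sigma, bb, Finset.mem_filter, Finset.mem_univ, true_and] at hq
      exact hq
    · intro hp
      refine ⟨⟨p.1, p.2⟩, ?_, rfl⟩
      simp only [Finset.mem_sigma, bb, Finset.mem_filter, Finset.mem_univ, true_and]
      exact hp
  have hdis : Disjoint B (eSR A) := by
    rw [Finset.disjoint_left]
    intro p hp hp'
    rw [hmem] at hp
    simp only [eSR, eS, Finset.mem_filter, Finset.mem_univ, true_and] at hp'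
    obtain ⟨⟨h1, h2⟩, h3⟩ := hp
    -- the other neighbour
    have h4 : 1 < (univ.filter (fun j => A p.1 j)).card := by
      have : (univ.filter (fun j => A p.1 j)).card = 2 := h1
      omega
    obtain ⟨j, hj, hjp⟩ := Finset.exists_mem_ne h4 p.2
    simp only [Finset.mem_filter, Finset.mem_univ, true_and] at hj
    have h5 := hp'.2 j hj hjp
    have h6 := h2 j hj
    omega
  rw [← hBc, ← Finset.card_union_of_disjoint hdis]
  apply Finset.card_le_card
  intro p hp
  rw [Finset.mem_union] at hp
  rcases hp with hp | hp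
  · rw [hmem] at hp
    simp only [eS, Finset.mem_filter, Finset.mem_univ, true_and]
    exact ⟨hp.2, hp.1.1, hp.1.2 _ hp.2⟩
  · exact (Finset.mem_filter.1 hp).1

theorem sR_le_bb {A : ρ → γ → Prop} (hC : ∀ j, 2 ≤ dC A j) :
    (sR A).card ≤ (iR A).card + (eSR A).card + (bb A).card := by
  have hsub : sR A ⊆ iR A ∪ (eSR A).image Prod.fst ∪ bb A := by
    intro x hx
    simp only [sR, Finset.mem_filter, Finset.mem_univ, true_and] at hx
    rw [Finset.mem_union, Finset.mem_union]
    by_cases h1 : ∀ j, A x j → 3 ≤ dC A j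
    · left; left
      simp only [iR, Finset.mem_filter, Finset.mem_univ, true_and]
      exact ⟨hx, h1⟩
    · push Not at h1
      obtain ⟨y, hy, hy3⟩ := h1
      have hy2 : dC A y = 2 := by have := hC y; omega
      by_cases h2 : ∀ j, A x j → dC A j = 2
      · right
        simp only [bb, Finset.mem_filter, Finset.mem_univ, true_and]
        exact ⟨hx, h2⟩
      · left; right
        push Not at h2
        obtain ⟨v, hv, hv2⟩ := h2
        have hv3 : 3 ≤ dC A v := by have := hC v; omega
        have hyv : y ≠ v := by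
          rintro rfl
          omega
        rw [Finset.mem_image]
        refine ⟨(x, y), ?_, rfl⟩
        simp only [eSR, eS, Finset.mem_filter, Finset.mem_univ, true_and]
        refine ⟨⟨hy, hx, hy2⟩, ?_⟩
        intro j hj hjy
        have hset : ({y, v} : Finset γ) = univ.filter (fun j => A x j) := by
          apply Finset.eq_of_subset_of_card_le
          · intro z hz
            rw [Finset.mem_insert, Finset.mem_singleton] at hz
            simp only [Finset.mem_filter, Finset.mem_univ, true_and]
            rcases hz with rfl | rfl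
            · exact hy
            · exact hv
          · rw [Finset.card_pair hyv]
            exact le_of_eq hx
        have hj' : j ∈ univ.filter (fun j => A x j) := by simpa using hj
        rw [← hset, Finset.mem_insert, Finset.mem_singleton] at hj'
        rcases hj' with rfl | rfl
        · exact absurd rfl hjy
        · exact hv3
  calc (sR A).card ≤ (iR A ∪ (eSR A).image Prod.fst ∪ bb A).card := Finset.card_le_card hsub
    _ ≤ (iR A ∪ (eSR A).image Prod.fst).card + (bb A).card := Finset.card_union_le _ _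
    _ ≤ (iR A).card + ((eSR A).image Prod.fst).card + (bb A).card := by
        have := Finset.card_union_le (iR A) ((eSR A).image Prod.fst)
        omega
    _ ≤ (iR A).card + (eSR A).card + (bb A).card := by
        have := Finset.card_image_le (s := eSR A) (f := Prod.fst)
        omega

theorem eSR_ge {A : ρ → γ → Prop} (hC : ∀ j, 2 ≤ dC A j) :
    2 * (sR A).card ≤ 2 * (iR A).card + (eSR A).card + (eS A).card := by
  have h1 := bb_le (A := A)
  have h2 := sR_le_bb hC
  omega

theorem eSC_ge {A : ρ → γ → Prop} (hR : ∀ i, 2 ≤ dR A i) :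
    2 * (sC A).card ≤ 2 * (iC A).card + (eSC A).card + (eS A).card := by
  have h := eSR_ge (A := fun j i => A i j) hR
  have e1 : (eSR (fun j i => A i j)).card = (eSC A).card := by
    rw [← Finset.card_image_of_injective (eSC A) Prod.swap_injective]
    congr 1
    ext p
    simp only [eSR, eSC, eS, Finset.mem_filter, Finset.mem_univ, true_and, Finset.mem_image]
    constructor
    · rintro ⟨⟨h1, h2, h3⟩, h4⟩
      exact ⟨p.swap, ⟨⟨h1, h3, h2⟩, h4⟩, Prod.swap_swap p⟩
    · rintro ⟨q, ⟨⟨h1, h2, h3⟩, h4⟩, rfl⟩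
      exact ⟨⟨h1, h3, h2⟩, h4⟩
  have e2 : (eS (fun j i => A i j)).card = (eS A).card := by
    rw [← Finset.card_image_of_injective (eS A) Prod.swap_injective]
    congr 1
    ext p
    simp only [eS, Finset.mem_filter, Finset.mem_univ, true_and, Finset.mem_image]
    constructor
    · rintro ⟨h1, h2, h3⟩
      exact ⟨p.swap, ⟨h1, h3, h2⟩, Prod.swap_swap p⟩
    · rintro ⟨q, ⟨h1, h2, h3⟩, rfl⟩
      exact ⟨h1, h3, h2⟩
  rw [e1, e2] at h
  exact h

end SA

end MP_c02e9e_co
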