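import Pool.Agent.Lib.MP_c02e9e_co.SA.Base

/-!
# A fully indecomposable relation has a perfect matching (Hall)
-/

namespace MP_c02e9e_co

namespace SA

open Finset

open scoped Classical

/-- PROOF. Hall's theorem `Fintype.all_card_le_filter_rel_iff_exists_injective`: for a finset `A`
let `T` be the set of all `j` with no edge from `A` to `j`. If `A` or `T` is empty the inequality
`|A| ≤ |N(A)|` is trivial, otherwise `|A| + |T| ≥ |V|` is impossible by `h`, so
`|A| < |V| - |T| = |N(A)|`. An injective self map of a finite type is a permutation
(`Equiv.ofBijective _ (Finite.injective_iff_bijective.1 hf)`). -/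
theorem exists_matching {V : Type} [Fintype V] {E : V → V → Prop}
    (h : FIr (Fintype.card V) E) : ∃ σ : Equiv.Perm V, ∀ i, E i (σ i) := by
  have hall : ∀ A : Finset V, A.card ≤ (univ.filter (fun b => ∃ a ∈ A, E a b)).card := by
    intro A
    rcases A.eq_empty_or_nonempty with rfl | hA
    · rw [Finset.card_empty]
      exact Nat.zero_le _
    · by_contra hlt
      push Not at hlt
      have hAc := Finset.card_le_univ A
      have hNc : (univ \ univ.filter (fun b => ∃ a ∈ A, E a b)).card =
          Fintype.card V - (univ.filter (fun b => ∃ a ∈ A, E a b)).card := by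
        rw [Finset.card_sdiff_of_subset (Finset.subset_univ _), Finset.card_univ]
      have hT : (univ \ univ.filter (fun b => ∃ a ∈ A, E a b)).Nonempty := by
        rw [← Finset.card_pos, hNc]
        omega
      obtain ⟨i, hi, j, hj, hij⟩ := h A _ hA hT (by rw [hNc]; omega)
      rw [Finset.mem_sdiff, Finset.mem_filter] at hj
      exact hj.2 ⟨Finset.mem_univ _, i, hi, hij⟩
  obtain ⟨f, hf, hE⟩ := (Fintype.all_card_le_filter_rel_iff_exists_injective E).1 hall
  exact ⟨Equiv.ofBijective f (Finite.injective_iff_bijective.1 hf), hE⟩

end SA

end MP_c02e9e_co
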