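import Pool.Agent.Lib.MP_c02e9e_co.SA.LDefs

/-!
# The datum is determined by the matrix and the extra information
-/

namespace MP_c02e9e_co

namespace SA

open Finset

open scoped Classical

/-- Decoding of a path. -/
theorem path_decode {k : ℕ} {X Y : Type} {M : X → Y → Prop} {u u' : Fin (k + 1) → X}
    {c c' : Fin k → Y} (hu : Function.Injective u) (hc : Function.Injective c)
    (hM : ∀ i j, M (u i) (c j) ↔ (i = j.castSucc ∨ i = j.succ))
    (hM' : ∀ i j, M (u' i) (c' j) ↔ (i = j.castSucc ∨ i = j.succ))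
    (hru : ∀ i, ∃ i', u i = u' i') (hrc : ∀ j, ∃ j', c j = c' j') (h0 : u 0 = u' 0) :
    (∀ i, u i = u' i) ∧ (∀ j, c j = c' j) := by
  have key : ∀ i : Fin (k + 1), u i = u' i ∧ ∀ l : Fin k, l.castSucc < i → c l = c' l := by
    intro i
    induction i using Fin.induction with
    | zero => exact ⟨h0, fun l hl => absurd hl (Fin.not_lt_zero _)⟩
    | succ j ih =>
      obtain ⟨ih1, ih2⟩ := ih
      have hcj : c j = c' j := by
        obtain ⟨j', hj'⟩ := hrc j
        have h1 : M (u j.castSucc) (c j) := (hM _ _).2 (Or.inl rfl)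
        rw [ih1, hj'] at h1
        rcases (hM' _ _).1 h1 with h2 | h2
        · rw [hj', Fin.castSucc_injective _ h2]
        · exfalso
          have hlt : j'.castSucc < j.castSucc := by
            rw [h2]
            exact Fin.castSucc_lt_succ
          have h3 := ih2 j' hlt
          rw [← h3] at hj'
          have h4 := hc hj'
          rw [h4] at hlt
          exact lt_irrefl _ hlt
      have huj : u j.succ = u' j.succ := by
        obtain ⟨i', hi'⟩ := hru j.succ
        have h1 : M (u j.succ) (c j) := (hM _ _).2 (Or.inr rfl)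
        rw [hi', hcj] at h1
        rcases (hM' _ _).1 h1 with h2 | h2
        · exfalso
          rw [h2, ← ih1] at hi'
          have h3 := hu hi'
          have h4 : j.castSucc < j.succ := Fin.castSucc_lt_succ
          rw [h3] at h4
          exact lt_irrefl _ h4
        · rw [hi', h2]
      refine ⟨huj, ?_⟩
      intro l hl
      rcases (Fin.lt_or_eq_of_le (Fin.le_castSucc_iff.2 hl)) with h5 | h5
      · exact ih2 l h5
      · have h6 := Fin.castSucc_injective _ h5
        rw [h6]
        exact hcj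
  refine ⟨fun i => (key i).1, fun j => (key j.succ).2 j Fin.castSucc_lt_succ⟩

theorem lmat_extra_injective {k q n : ℕ} :
    Function.Injective (fun t : LData k q n => (lmat t, extra t)) := by
  rintro ⟨eR, eC, α, β⟩ ⟨eR', eC', α', β'⟩ h
  simp only [Prod.mk.injEq] at h
  obtain ⟨hmat, hex⟩ := h
  -- the common matrix
  set M : BMat n := lmat (eR, eC, α, β) with hMdef
  have hM : ∀ a b, M (eR a) (eC b) = true ↔ adjL α β a b := fun a b =>
    lmat_apply (eR, eC, α, β) a b
  have hM' : ∀ a b, M (eR' a) (eC' b) = true ↔ adjL α' β' a b := fun a b => by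
    rw [hmat]
    exact lmat_apply (eR', eC', α', β') a b
  simp only [extra, Prod.mk.injEq] at hex
  obtain ⟨h1, h2, h3, h4, h5, h6⟩ := hex
  have h1' : ∀ j, eR (Sum.inr (Sum.inr (Sum.inr j))) = eR' (Sum.inr (Sum.inr (Sum.inr j))) :=
    fun j => DFunLike.congr_fun h1 j
  have h2' : ∀ i, eR (Sum.inr (Sum.inr (Sum.inl i))) = eR' (Sum.inr (Sum.inr (Sum.inl i))) :=
    fun i => congrFun h2 i
  have h3' : ∀ i, ∃ i', eR (Sum.inl i) = eR' (Sum.inl i') := by
    intro i
    have h7 := congrArg Subtype.val h3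
    simp only at h7
    have h8 : eR (Sum.inl i) ∈ univ.map ((Function.Embedding.inl).trans eR.toEmbedding) :=
      Finset.mem_map.2 ⟨i, Finset.mem_univ _, rfl⟩
    rw [h7, Finset.mem_map] at h8
    obtain ⟨i', -, hi'⟩ := h8
    exact ⟨i', hi'.symm⟩
  have h3'' : ∀ i, ∃ i', eR' (Sum.inl i) = eR (Sum.inl i') := by
    intro i
    have h7 := congrArg Subtype.val h3
    simp only at h7
    have h8 : eR' (Sum.inl i) ∈ univ.map ((Function.Embedding.inl).trans eR'.toEmbedding) :=
      Finset.mem_map.2 ⟨i, Finset.mem_univ _, rfl⟩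
    rw [← h7, Finset.mem_map] at h8
    obtain ⟨i', -, hi'⟩ := h8
    exact ⟨i', hi'.symm⟩
  have h4' : ∀ i, ∃ i', eC (Sum.inl i) = eC' (Sum.inl i') := by
    intro i
    have h7 := congrArg Subtype.val h4
    simp only at h7
    have h8 : eC (Sum.inl i) ∈ univ.map ((Function.Embedding.inl).trans eC.toEmbedding) :=
      Finset.mem_map.2 ⟨i, Finset.mem_univ _, rfl⟩
    rw [h7, Finset.mem_map] at h8
    obtain ⟨i', -, hi'⟩ := h8
    exact ⟨i', hi'.symm⟩
  have h4'' : ∀ i, ∃ i', eC' (Sum.inl i) = eC (Sum.inl i') := by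
    intro i
    have h7 := congrArg Subtype.val h4
    simp only at h7
    have h8 : eC' (Sum.inl i) ∈ univ.map ((Function.Embedding.inl).trans eC'.toEmbedding) :=
      Finset.mem_map.2 ⟨i, Finset.mem_univ _, rfl⟩
    rw [← h7, Finset.mem_map] at h8
    obtain ⟨i', -, hi'⟩ := h8
    exact ⟨i', hi'.symm⟩
  -- H-rows
  have hHR : ∀ p, eR (Sum.inr (Sum.inr p)) = eR' (Sum.inr (Sum.inr p)) := by
    rintro (i | j)
    · exact h2' i
    · exact h1' j
  -- H-columns
  have hHC : ∀ p, eC (Sum.inr (Sum.inr p)) = eC' (Sum.inr (Sum.inr p)) := by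
    intro p
    obtain ⟨b, hb⟩ := eC'.surjective (eC (Sum.inr (Sum.inr p)))
    have h7 : M (eR (Sum.inr (Sum.inr p))) (eC (Sum.inr (Sum.inr p))) = true :=
      (hM _ _).2 rfl
    rw [hHR, ← hb, hM'] at h7
    rcases b with i | j | p'
    · obtain ⟨i', hi'⟩ := h4'' i
      rw [hi'] at hb
      exact absurd (eC.injective hb) (by simp)
    · exact absurd h7 (by simp [adjL])
    · have h8 : p = p' := h7
      rw [← hb, h8]
  -- ends of the H-paths
  have hEC : ∀ p, eC (Sum.inl (he β p)) = eC' (Sum.inl (he β' p)) := by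
    intro p
    obtain ⟨i, hi⟩ := h4' (he β p)
    have h7 : M (eR (Sum.inr (Sum.inr p))) (eC (Sum.inl (he β p))) = true :=
      (hM _ _).2 rfl
    rw [hHR, hi, hM'] at h7
    have h8 : he β' p = i := h7
    rw [hi, h8]
  have hER : ∀ p, eR (Sum.inl (he α p)) = eR' (Sum.inl (he α' p)) := by
    intro p
    obtain ⟨i, hi⟩ := h3' (he α p)
    have h7 : M (eR (Sum.inl (he α p))) (eC (Sum.inr (Sum.inr p))) = true :=
      (hM _ _).2 rfl
    rw [hHC, hi, hM'] at h7
    have h8 : he α' p = i := h7
    rw [hi, h8]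
  -- T-columns and T-rows
  have hTC : ∀ j, ∃ j', eC (Sum.inr (Sum.inl j)) = eC' (Sum.inr (Sum.inl j')) := by
    intro j
    obtain ⟨b, hb⟩ := eC'.surjective (eC (Sum.inr (Sum.inl j)))
    rcases b with i | j' | p'
    · obtain ⟨i', hi'⟩ := h4'' i
      rw [hi'] at hb
      exact absurd (eC.injective hb) (by simp)
    · exact ⟨j', hb.symm⟩
    · rw [← hHC] at hb
      exact absurd (eC.injective hb) (by simp)
  have hTR : ∀ j, ∃ j', eR (Sum.inr (Sum.inl j)) = eR' (Sum.inr (Sum.inl j')) := by
    intro j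
    obtain ⟨b, hb⟩ := eR'.surjective (eR (Sum.inr (Sum.inl j)))
    rcases b with i | j' | p'
    · obtain ⟨i', hi'⟩ := h3'' i
      rw [hi'] at hb
      exact absurd (eR.injective hb) (by simp)
    · exact ⟨j', hb.symm⟩
    · rw [← hHR] at hb
      exact absurd (eR.injective hb) (by simp)
  obtain ⟨k1, k2⟩ := path_decode (M := fun a b => M a b = true)
    (u := fun i => eR (Sum.inl i)) (u' := fun i => eR' (Sum.inl i))
    (c := fun j => eC (Sum.inr (Sum.inl j))) (c' := fun j => eC' (Sum.inr (Sum.inl j)))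
    (fun a b hab => by simpa using hab) (fun a b hab => by simpa using hab)
    (fun i j => hM _ _) (fun i j => hM' _ _) h3' hTC h5
  obtain ⟨k3, k4⟩ := path_decode (M := fun a b => M b a = true)
    (u := fun i => eC (Sum.inl i)) (u' := fun i => eC' (Sum.inl i))
    (c := fun j => eR (Sum.inr (Sum.inl j))) (c' := fun j => eR' (Sum.inr (Sum.inl j)))
    (fun a b hab => by simpa using hab) (fun a b hab => by simpa using hab)
    (fun i j => hM _ _) (fun i j => hM' _ _) h4' hTR h6
  have hR : eR = eR' := by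
    ext1 a
    rcases a with i | j | p
    · exact k1 i
    · exact k4 j
    · exact hHR p
  have hC : eC = eC' := by
    ext1 a
    rcases a with i | j | p
    · exact k3 i
    · exact k2 j
    · exact hHC p
  have hα : α = α' := by
    funext j
    have h7 := hER (Sum.inr j)
    rw [← hR] at h7
    have h8 := Sum.inl_injective (eR.injective h7)
    exact h8
  have hβ : β = β' := by
    funext j
    have h7 := hEC (Sum.inr j)
    rw [← hC] at h7
    have h8 := Sum.inl_injective (eC.injective h7)
    exact h8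
  rw [hR, hC, hα, hβ]

end SA

end MP_c02e9e_co
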