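import Pool.Agent.Lib.MP_c02e9e_co.SA.LFI
import Pool.Agent.Lib.MP_c02e9e_co.SA.LInj

/-!
# Lower bound, combinatorial form
-/

namespace MP_c02e9e_co

namespace SA

open Finset

open scoped Classical

theorem card_LData {k q n : ℕ} (hn : n = 2 * k + 3 + q) :
    Fintype.card (LData k q n) =
      n.factorial * (n.factorial * ((k + 1) ^ q * (k + 1) ^ q)) := by
  have hI : Fintype.card (IX k q) = n := by
    simp only [IX, Fintype.card_sum, Fintype.card_fin]
    omega
  have e : IX k q ≃ Fin n := Fintype.equivFinOfCardEq hI
  have h1 : Fintype.card (IX k q ≃ Fin n) = n.factorial := by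
    rw [Fintype.card_equiv e, hI]
  simp only [LData, Fintype.card_prod, h1, Fintype.card_fun, Fintype.card_fin]

/-- PROOF. The map `t ↦ (lmat t, extra t)` is injective with first component among the nearly
decomposable matrices. `|LData| = (n!)^2 ((k+1)^q)^2` (`Fintype.card_equiv`: for
`IX k q ≃ Fin n`, of cardinality `n!` since `|IX k q| = 2 k + 3 + q = n`). The extra information
takes values in a type of cardinality
`n.descFactorial q * n^2 * C(n,k+1) * C(n,k+1) * n * n` (`Fintype.card_embedding_eq`,
`Fintype.card_finset_len`). Multiply by `(2 k + 3)!`: `n.descFactorial q * (n - q)! = n!`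
(`Nat.factorial_mul_descFactorial`), and cancel `n!`. -/
theorem lower_comb {k q n : ℕ} (hn : n = 2 * k + 3 + q) :
    n.factorial * (k + 1) ^ (2 * q) * (2 * k + 3).factorial ≤
      numND n * (n.choose (k + 1)) ^ 2 * n ^ 4 := by
  have hinj : Function.Injective (fun t : LData k q n =>
      ((⟨lmat t, lmat_nd hn t⟩ : {A : BMat n // NearlyDecomposable A}), extra t)) := by
    intro t t' h
    simp only [Prod.mk.injEq, Subtype.mk.injEq] at h
    exact lmat_extra_injective (Prod.ext h.1 h.2)
  have h1 := Fintype.card_le_of_injective _ hinj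
  rw [card_LData hn, Fintype.card_prod] at h1
  have h2 : Fintype.card {A : BMat n // NearlyDecomposable A} = numND n := by
    rw [numND, Nat.card_eq_fintype_card]
  have h3 : Fintype.card ((Fin q ↪ Fin n) × (Fin 2 → Fin n) ×
      {U : Finset (Fin n) // U.card = k + 1} × {W : Finset (Fin n) // W.card = k + 1} ×
        Fin n × Fin n) =
      n.descFactorial q * (n ^ 2 * (n.choose (k + 1) * (n.choose (k + 1) * (n * n)))) := by
    simp only [Fintype.card_prod, Fintype.card_embedding_eq, Fintype.card_fun, Fintype.card_fin,
      Fintype.card_finset_len]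
  rw [h2, h3] at h1
  have h4 : (2 * k + 3).factorial * n.descFactorial q = n.factorial := by
    have := Nat.factorial_mul_descFactorial (n := n) (k := q) (by omega)
    rw [show n - q = 2 * k + 3 by omega] at this
    exact this
  have h5 : 0 < n.factorial := Nat.factorial_pos n
  apply Nat.le_of_mul_le_mul_left (c := n.factorial) _ h5
  calc n.factorial * (n.factorial * (k + 1) ^ (2 * q) * (2 * k + 3).factorial)
      = (n.factorial * (n.factorial * ((k + 1) ^ q * (k + 1) ^ q))) * (2 * k + 3).factorial := by
        rw [two_mul q, pow_add]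
        ring
    _ ≤ (numND n * (n.descFactorial q * (n ^ 2 * (n.choose (k + 1) *
          (n.choose (k + 1) * (n * n)))))) * (2 * k + 3).factorial :=
        Nat.mul_le_mul_right _ h1
    _ = ((2 * k + 3).factorial * n.descFactorial q) *
          (numND n * (n.choose (k + 1)) ^ 2 * n ^ 4) := by ring
    _ = n.factorial * (numND n * (n.choose (k + 1)) ^ 2 * n ^ 4) := by rw [h4]

theorem numND_pos {n : ℕ} (hn : 3 ≤ n) : 0 < numND n := by
  have h := lower_comb (k := 0) (q := n - 3) (n := n) (by omega)
  have h1 : 0 < n.factorial * (0 + 1) ^ (2 * (n - 3)) * (2 * 0 + 3).factorial := by positivity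
  rcases Nat.eq_zero_or_pos (numND n) with h2 | h2
  · rw [h2, Nat.zero_mul, Nat.zero_mul] at h
    exact absurd h1 (not_lt.2 h)
  · exact h2

end SA

end MP_c02e9e_co
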