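import Pool.Agent.Lib.MP_c02e9e_co.SA.AnU2

/-!
# The number of nearly decomposable matrices with a given number of ones: upper bound
-/

namespace MP_c02e9e_co

namespace SA

open Finset

open scoped Classical

/-- Sharp form of Theorem A for the number of addable pairs. -/
theorem adds_bound_sharp {n d : ℕ} (hn : 2 ≤ n) {A : BMat n} (hA : NearlyDecomposable A)
    (hd : nE (rel A) + d = 3 * n) : (adds A).card ≤ (d - 1) ^ 2 / 4 := by
  obtain ⟨r, c, h1, h2, -, -⟩ := thmA (by rw [Fintype.card_fin]; exact hn) (good_of_nd hn hA)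
  rw [Fintype.card_fin] at h1
  have h3 : (adds A).card = nE (Hp (rel A) (rel A)) := by
    unfold adds nE
    congr 1
    ext p
    rw [Finset.mem_filter, Finset.mem_filter]
    unfold Hp richR richC
    constructor
    · rintro ⟨h0, a, b, c⟩
      exact ⟨h0, Or.inr a, Or.inr b, c⟩
    · rintro ⟨h0, a, b, c⟩
      refine ⟨h0, ?_, ?_, c⟩
      · rcases a with ⟨j, hj, hj'⟩ | a
        · exact absurd hj hj'
        · exact a
      · rcases b with ⟨j, hj, hj'⟩ | b
        · exact absurd hj hj'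
        · exact b
  rw [h3, Nat.le_div_iff_mul_le (by norm_num)]
  have h4 : r + c ≤ d - 1 := by omega
  calc nE (Hp (rel A) (rel A)) * 4 ≤ (r * c) * 4 := Nat.mul_le_mul_right 4 h2
    _ ≤ (r + c) ^ 2 := by
        zify
        nlinarith [sq_nonneg ((r:ℤ) - c)]
    _ ≤ (d - 1) ^ 2 := Nat.pow_le_pow_left h4 2

theorem recursion_sharp {m d : ℕ} (hm : 2 ≤ m) :
    (m + 1 - 8 * d) * (cls (m + 1) d).card ≤ (m + 1) ^ 2 * ((d - 1) ^ 2 / 4 * (cls m d).card) := by
  set R : BMat (m + 1) → Finset (Fin (m + 1) × Fin (m + 1)) := fun A =>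
    (HP (rel A) 4).filter (fun p => Rem (m + 1) (rel A) p.1 p.2) with hR
  set Om : Finset (Σ _ : BMat (m + 1), Fin (m + 1) × Fin (m + 1)) :=
    (cls (m + 1) d).sigma (fun A => R A) with hOm
  set TT : Finset ((Fin (m + 1) × Fin (m + 1)) × (Σ _ : BMat m, Fin m × Fin m)) :=
    (univ : Finset (Fin (m + 1) × Fin (m + 1))) ×ˢ ((cls m d).sigma (fun B => adds B)) with hTT
  have h1 : (m + 1 - 8 * d) * (cls (m + 1) d).card ≤ Om.card := by
    rw [hOm, Finset.card_sigma]
    calc (m + 1 - 8 * d) * (cls (m + 1) d).card = ∑ _A ∈ cls (m + 1) d, (m + 1 - 8 * d) := by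
          rw [Finset.sum_const, smul_eq_mul, mul_comm]
      _ ≤ ∑ A ∈ cls (m + 1) d, (R A).card := by
          apply Finset.sum_le_sum
          intro A hA
          obtain ⟨-, hnd, hd⟩ := Finset.mem_filter.1 hA
          obtain ⟨hfi, hcut⟩ := (nd_iff (by omega) A).1 hnd
          have := rem_count (n := m + 1) (d := d) (by omega) hfi (Fintype.card_fin _)
            (Fintype.card_fin _) hcut hd
          change m + 1 - 8 * d ≤ ((HP (rel A) 4).filter
            (fun p => Rem (m + 1) (rel A) p.1 p.2)).card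
          omega
  have h2 : Om ⊆ TT.image (fun t => (⟨ins t.1.1 t.1.2 t.2.1 t.2.2.1 t.2.2.2, t.1⟩ :
      Σ _ : BMat (m + 1), Fin (m + 1) × Fin (m + 1))) := by
    rintro ⟨A, p⟩ hAp
    rw [hOm, Finset.mem_sigma] at hAp
    obtain ⟨hA, hp⟩ := hAp
    simp only at hA hp
    obtain ⟨hp1, hrem⟩ := Finset.mem_filter.1 hp
    obtain ⟨u, v, hpath, hu, hv⟩ := mem_HP.1 hp1
    obtain ⟨-, hnd, hd⟩ := Finset.mem_filter.1 hA
    obtain ⟨q, hq, hAq⟩ := del_adds hm hnd hpath hrem hu hv
    have hnE := del_nE hpath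
    rw [Finset.mem_image]
    refine ⟨(p, ⟨del A p.1 p.2, q⟩), ?_, ?_⟩
    · rw [hTT, Finset.mem_product, Finset.mem_sigma]
      refine ⟨Finset.mem_univ _, ?_, hq⟩
      refine Finset.mem_filter.2 ⟨Finset.mem_univ _, del_nd hm hnd hpath hrem, ?_⟩
      simp only
      omega
    · simp only
      rw [← hAq]
  have h3 : Om.card ≤ TT.card := (Finset.card_le_card h2).trans Finset.card_image_le
  have h4 : TT.card = (m + 1) ^ 2 * ∑ B ∈ cls m d, (adds B).card := by
    rw [hTT, Finset.card_product, Finset.card_sigma, Finset.card_univ, Fintype.card_prod,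
      Fintype.card_fin, pow_two]
  have h5 : ∑ B ∈ cls m d, (adds B).card ≤ (d - 1) ^ 2 / 4 * (cls m d).card := by
    calc ∑ B ∈ cls m d, (adds B).card ≤ ∑ _B ∈ cls m d, (d - 1) ^ 2 / 4 := by
          apply Finset.sum_le_sum
          intro B hB
          obtain ⟨-, hnd, hd⟩ := Finset.mem_filter.1 hB
          exact adds_bound_sharp hm hnd hd
      _ = (d - 1) ^ 2 / 4 * (cls m d).card := by rw [Finset.sum_const, smul_eq_mul, mul_comm]
  calc (m + 1 - 8 * d) * (cls (m + 1) d).card ≤ TT.card := h1.trans h3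
    _ = (m + 1) ^ 2 * (∑ B ∈ cls m d, (adds B).card) := h4
    _ ≤ (m + 1) ^ 2 * ((d - 1) ^ 2 / 4 * (cls m d).card) := Nat.mul_le_mul_left _ h5

theorem iter_sharp {d s : ℕ} (hs : s = (d - 1) ^ 2 / 4) (hd : 1 ≤ d) (j : ℕ) :
    (cls (16 * d + j) d).card * (8 * d + j).factorial * ((16 * d).factorial) ^ 2 ≤
      ((16 * d + j).factorial) ^ 2 * s ^ j * (8 * d).factorial * (cls (16 * d) d).card := by
  induction j with
  | zero =>
    simp only [Nat.add_zero, pow_zero, mul_one]
    exact le_of_eq (by ring)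
  | succ j ih =>
    have hm : 2 ≤ 16 * d + j := by omega
    have h1 := recursion_sharp (m := 16 * d + j) (d := d) hm
    have e1 : 16 * d + j + 1 - 8 * d = 8 * d + j + 1 := by omega
    rw [e1, ← hs] at h1
    have e2 : (8 * d + (j + 1)).factorial = (8 * d + j + 1) * (8 * d + j).factorial := by
      rw [← Nat.add_assoc, Nat.factorial_succ]
    have e3 : (16 * d + (j + 1)).factorial = (16 * d + j + 1) * (16 * d + j).factorial := by
      rw [← Nat.add_assoc, Nat.factorial_succ]
    have e4 : (cls (16 * d + (j + 1)) d).card = (cls (16 * d + j + 1) d).card := rfl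
    rw [e2, e3, e4]
    calc (cls (16 * d + j + 1) d).card * ((8 * d + j + 1) * (8 * d + j).factorial) *
          ((16 * d).factorial) ^ 2
        = ((8 * d + j + 1) * (cls (16 * d + j + 1) d).card) *
            ((8 * d + j).factorial * ((16 * d).factorial) ^ 2) := by ring
      _ ≤ ((16 * d + j + 1) ^ 2 * (s * (cls (16 * d + j) d).card)) *
            ((8 * d + j).factorial * ((16 * d).factorial) ^ 2) :=
          Nat.mul_le_mul_right _ h1
      _ = (16 * d + j + 1) ^ 2 * s * ((cls (16 * d + j) d).card *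
            (8 * d + j).factorial * ((16 * d).factorial) ^ 2) := by ring
      _ ≤ (16 * d + j + 1) ^ 2 * s * (((16 * d + j).factorial) ^ 2 * s ^ j *
            (8 * d).factorial * (cls (16 * d) d).card) := Nat.mul_le_mul_left _ ih
      _ = ((16 * d + j + 1) * (16 * d + j).factorial) ^ 2 * s ^ (j + 1) *
            (8 * d).factorial * (cls (16 * d) d).card := by ring

/-- `⌊(d-1)²/4⌋ ≥ d²/12` for `d ≥ 3`. -/
theorem sq_le_s {d s : ℕ} (hs : s = (d - 1) ^ 2 / 4) (hd : 3 ≤ d) : d ^ 2 ≤ 12 * s := by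
  obtain ⟨e, rfl⟩ : ∃ e, d = e + 3 := ⟨d - 3, by omega⟩
  have h1 : e + 3 - 1 = e + 2 := by omega
  rw [h1] at hs
  rcases Nat.even_or_odd' e with ⟨c, hc | hc⟩
  · subst hc
    have : (2 * c + 2) ^ 2 / 4 = (c + 1) ^ 2 := by
      rw [show (2 * c + 2) ^ 2 = 4 * (c + 1) ^ 2 by ring]
      exact Nat.mul_div_cancel_left _ (by norm_num)
    rw [this] at hs
    rw [hs]
    nlinarith
  · subst hc
    have : (2 * c + 1 + 2) ^ 2 / 4 = (c + 1) * (c + 2) := by
      rw [show (2 * c + 1 + 2) ^ 2 = 1 + 4 * ((c + 1) * (c + 2)) by ring]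
      omega
    rw [this] at hs
    rw [hs]
    nlinarith

theorem four_s_le {d s : ℕ} (hs : s = (d - 1) ^ 2 / 4) : 4 * s ≤ d ^ 2 := by
  have h1 : 4 * s ≤ (d - 1) ^ 2 := by
    rw [hs]
    exact Nat.mul_div_le _ _
  exact h1.trans (Nat.pow_le_pow_left (by omega) 2)

theorem log_s_ge {d s : ℕ} (hs : s = (d - 1) ^ 2 / 4) (hd : 3 ≤ d) :
    2 * Real.log d - 2.49 ≤ Real.log s := by
  have h := sq_le_s hs hd
  have hd0 : (0 : ℝ) < d := by exact_mod_cast (by omega : 0 < d)
  have hs0 : 0 < s := by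
    rcases Nat.eq_zero_or_pos s with h0 | h0
    · rw [h0] at h
      have : 0 < d ^ 2 := by positivity
      omega
    · exact h0
  have hs0' : (0 : ℝ) < s := by exact_mod_cast hs0
  have hR : (d : ℝ) ^ 2 ≤ 12 * s := by exact_mod_cast h
  have h1 := Real.log_le_log (by positivity) hR
  rw [Real.log_pow, Real.log_mul (by norm_num) hs0'.ne'] at h1
  have h12 : Real.log 12 ≤ 2.49 := by
    rw [Real.log_le_iff_le_exp (by norm_num)]
    have h2 : Real.exp 2.49 = Real.exp 1 ^ 2 * Real.exp 0.49 := by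
      rw [← Real.exp_nat_mul, ← Real.exp_add]
      norm_num
    rw [h2]
    have h3 := Real.exp_one_gt_d9
    have h4 : 1 + 0.49 + 0.49 ^ 2 / 2 + 0.49 ^ 3 / 6 ≤ Real.exp 0.49 := by
      have := Real.sum_le_exp_of_nonneg (x := 0.49) (by norm_num) 4
      simp only [Finset.sum_range_succ, Finset.sum_range_zero] at this
      norm_num [Nat.factorial] at this ⊢
      linarith
    have h5 : (2.7182818283 : ℝ) ^ 2 ≤ Real.exp 1 ^ 2 := by
      apply pow_le_pow_left₀ (by norm_num) h3.le
    calc (12 : ℝ) ≤ 2.7182818283 ^ 2 * (1 + 0.49 + 0.49 ^ 2 / 2 + 0.49 ^ 3 / 6) := by norm_num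
      _ ≤ Real.exp 1 ^ 2 * Real.exp 0.49 := by
          apply mul_le_mul h5 h4 (by norm_num) (by positivity)
  push_cast at h1
  linarith

theorem log_s_le {d s : ℕ} (hs : s = (d - 1) ^ 2 / 4) (hd : 3 ≤ d) :
    Real.log s ≤ 2 * Real.log d - 2 * Real.log 2 := by
  have h := four_s_le hs
  have h' := sq_le_s hs hd
  have hd0 : (0 : ℝ) < d := by exact_mod_cast (by omega : 0 < d)
  have hs0 : 0 < s := by
    rcases Nat.eq_zero_or_pos s with h0 | h0
    · rw [h0] at h'
      have : 0 < d ^ 2 := by positivity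
      omega
    · exact h0
  have hs0' : (0 : ℝ) < s := by exact_mod_cast hs0
  have hR : 4 * (s : ℝ) ≤ d ^ 2 := by exact_mod_cast h
  have h1 := Real.log_le_log (by positivity) hR
  rw [Real.log_pow, Real.log_mul (by norm_num) hs0'.ne',
    show (4 : ℝ) = 2 ^ 2 by norm_num, Real.log_pow] at h1
  push_cast at h1
  linarith

theorem cls_small_sharp {n d s : ℕ} (hs : s = (d - 1) ^ 2 / 4) (hd : 3 ≤ d) (hn : 16 * d ≤ n)
    (hpos : 0 < (cls n d).card) :
    Real.log ((cls n d).card) ≤ n * Real.log n - n + n * Real.log s -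
      d * Real.log n + 9 * d * Real.log (n / d) + 150 * d + 2 * Real.log n + 2 := by
  have hd0 : (0 : ℝ) < d := by exact_mod_cast (by omega : 0 < d)
  have hn0 : (0 : ℝ) < n := by exact_mod_cast (by omega : 0 < n)
  have h16R : 16 * (d : ℝ) ≤ n := by exact_mod_cast hn
  have hposR : (0 : ℝ) < ((cls n d).card : ℝ) := by exact_mod_cast hpos
  have hsge := log_s_ge hs hd
  have hs0 : 0 < s := by
    have h' := sq_le_s hs hd
    rcases Nat.eq_zero_or_pos s with h0 | h0
    · rw [h0] at h'
      have : 0 < d ^ 2 := by positivity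
      omega
    · exact h0
  have hs0' : (0 : ℝ) < s := by exact_mod_cast hs0
  obtain ⟨j, hj⟩ := Nat.exists_eq_add_of_le hn
  have hit := iter_sharp hs (by omega) j
  rw [← hj] at hit
  have hc0 : 0 < (cls (16 * d) d).card := by
    rcases Nat.eq_zero_or_pos (cls (16 * d) d).card with h | h
    · rw [h, Nat.mul_zero] at hit
      have : 0 < (cls n d).card * (8 * d + j).factorial * ((16 * d).factorial) ^ 2 := by
        positivity
      omega
    · exact h
  have hc0R : (0 : ℝ) < ((cls (16 * d) d).card : ℝ) := by exact_mod_cast hc0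
  have hitR : ((cls n d).card : ℝ) * ((8 * d + j).factorial : ℝ) *
      ((16 * d).factorial : ℝ) ^ 2 ≤
      (n.factorial : ℝ) ^ 2 * (s : ℝ) ^ j * ((8 * d).factorial : ℝ) *
        ((cls (16 * d) d).card : ℝ) := by exact_mod_cast hit
  have hf1 : (0 : ℝ) < ((8 * d + j).factorial : ℝ) := by exact_mod_cast Nat.factorial_pos _
  have hf2 : (0 : ℝ) < ((16 * d).factorial : ℝ) := by exact_mod_cast Nat.factorial_pos _
  have hf3 : (0 : ℝ) < (n.factorial : ℝ) := by exact_mod_cast Nat.factorial_pos _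
  have hf4 : (0 : ℝ) < ((8 * d).factorial : ℝ) := by exact_mod_cast Nat.factorial_pos _
  have hlog := Real.log_le_log (by positivity) hitR
  rw [Real.log_mul (by positivity) (by positivity), Real.log_mul (by positivity) hf1.ne',
    Real.log_mul (by positivity) hc0R.ne',
    Real.log_mul (by positivity) hf4.ne', Real.log_mul (by positivity) (by positivity),
    Real.log_pow, Real.log_pow, Real.log_pow] at hlog
  -- the small class
  have htr := Real.log_le_log hc0R (cls_trivial (n := 16 * d) (d := d) (by omega) (by omega))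
  rw [Real.log_exp] at htr
  -- factorials
  have g1 := log_factorial_le n (by omega)
  have g2 := log_factorial_le' (8 * d)
  have g3 := le_factorial (16 * d) (by omega)
  have g4 := le_factorial (8 * d + j) (by omega)
  -- logarithms of multiples of d
  have l8 : Real.log ((8 * d : ℕ) : ℝ) = 3 * Real.log 2 + Real.log d := by
    push_cast
    rw [Real.log_mul (by norm_num) hd0.ne', show (8 : ℝ) = 2 ^ 3 by norm_num, Real.log_pow]
    push_cast
    ring
  have l16 : Real.log ((16 * d : ℕ) : ℝ) = 4 * Real.log 2 + Real.log d := by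
    push_cast
    rw [Real.log_mul (by norm_num) hd0.ne', show (16 : ℝ) = 2 ^ 4 by norm_num, Real.log_pow]
    push_cast
    ring
  have hjR : (j : ℝ) = n - 16 * d := by
    have : (n : ℝ) = 16 * d + j := by exact_mod_cast hj
    linarith
  have hmR : ((8 * d + j : ℕ) : ℝ) = n - 8 * d := by
    push_cast
    rw [hjR]
    ring
  have hm0 : (0 : ℝ) < n - 8 * d := by linarith
  have g5 : ((n : ℝ) - 8 * d) * Real.log n - n ≤ Real.log ((8 * d + j).factorial : ℝ) := by
    refine le_trans ?_ g4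
    rw [hmR]
    have h := Real.log_le_sub_one_of_pos (show (0 : ℝ) < n / (n - 8 * d) by positivity)
    rw [Real.log_div hn0.ne' hm0.ne'] at h
    have h' := mul_le_mul_of_nonneg_left h hm0.le
    have e : ((n : ℝ) - 8 * d) * (n / (n - 8 * d) - 1) = 8 * d := by
      field_simp
      ring
    rw [e] at h'
    nlinarith
  rw [l8] at g2
  rw [l16] at g3 htr
  have l2 := Real.log_two_lt_d9
  rw [Real.log_div hn0.ne' hd0.ne']
  push_cast at hlog g2 g3 htr
  rw [hjR] at hlog
  have h2d : (d : ℝ) * Real.log 2 ≤ d * 0.6931471808 := mul_le_mul_of_nonneg_left l2.le hd0.le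
  have hsd : (d : ℝ) * (2 * Real.log d - 2.49) ≤ d * Real.log s :=
    mul_le_mul_of_nonneg_left hsge hd0.le
  nlinarith

end SA

end MP_c02e9e_co
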