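import Pool.Agent.Lib.MP_c02e9e_co.SA.OnesLow
import Pool.Agent.Lib.MP_c02e9e_co.SA.OnesUp

/-!
# The number of nearly decomposable matrices with a given number of ones
-/

namespace MP_c02e9e_co

namespace SA

/-- `⌊(d-1)²/4⌋` is the product of `⌊(d-1)/2⌋` and `⌈(d-1)/2⌉`. -/
theorem split_s {d : ℕ} (hd : 3 ≤ d) : ∃ k l : ℕ, k + l + 3 = d ∧
    (k + 1) * (l + 1) = (d - 1) ^ 2 / 4 ∧ d ≤ 4 * (k + 1) ∧ d ≤ 4 * (l + 1) := by
  obtain ⟨e, rfl⟩ : ∃ e, d = e + 3 := ⟨d - 3, by omega⟩
  have h1 : e + 3 - 1 = e + 2 := by omega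
  rw [h1]
  rcases Nat.even_or_odd' e with ⟨c, hc | hc⟩
  · subst hc
    refine ⟨c, c, by omega, ?_, by omega, by omega⟩
    rw [show (2 * c + 2) ^ 2 = 4 * ((c + 1) * (c + 1)) by ring]
    exact (Nat.mul_div_cancel_left _ (by norm_num)).symm
  · subst hc
    refine ⟨c, c + 1, by omega, ?_, by omega, by omega⟩
    rw [show (2 * c + 1 + 2) ^ 2 = 1 + 4 * ((c + 1) * (c + 1 + 1)) by ring]
    omega

theorem cls_pos {n d : ℕ} (hd : 3 ≤ d) (hn : d ≤ n) : 0 < (cls n d).card := by
  obtain ⟨k, l, hkl, -, -, -⟩ := split_s hd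
  have h := lower_comb_cls (k := k) (l := l) (q := n - d) (n := n) (by omega)
  rw [hkl] at h
  have h1 : 0 < n.factorial * ((k + 1) * (l + 1)) ^ (n - d) * d.factorial := by positivity
  rcases Nat.eq_zero_or_pos (cls n d).card with h2 | h2
  · rw [h2, Nat.zero_mul, Nat.zero_mul] at h
    exact absurd h1 (not_lt.2 h)
  · exact h2

theorem low_all {n d s : ℕ} (hs : s = (d - 1) ^ 2 / 4) (hd : 3 ≤ d) (hn : d ≤ n) :
    n * Real.log n - n + n * Real.log s - d * Real.log n - 4 * d - 5 * Real.log n - 2 ≤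
      Real.log ((cls n d).card) := by
  have hd0 : (0 : ℝ) < d := by exact_mod_cast (by omega : 0 < d)
  have hd3 : (3 : ℝ) ≤ d := by exact_mod_cast hd
  have hn0 : (0 : ℝ) < n := by exact_mod_cast (by omega : 0 < n)
  have hn1 : (1 : ℝ) ≤ n := by exact_mod_cast (by omega : 1 ≤ n)
  have hdn : (d : ℝ) ≤ n := by exact_mod_cast hn
  have hpos : (0 : ℝ) < ((cls n d).card : ℝ) := by exact_mod_cast cls_pos hd hn
  obtain ⟨k, l, hkl, hsp, hk4, hl4⟩ := split_s hd
  rw [← hs] at hsp
  have h := lower_comb_cls (k := k) (l := l) (q := n - d) (n := n) (by omega)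
  rw [hkl, hsp] at h
  have hs0 : 0 < s := by rw [← hsp]; positivity
  have hs0' : (0 : ℝ) < s := by exact_mod_cast hs0
  have hR : (n.factorial : ℝ) * (s : ℝ) ^ (n - d) * (d.factorial : ℝ) ≤
      ((cls n d).card : ℝ) * ((n.choose (k + 1) : ℝ) * (n.choose (l + 1) : ℝ)) * (n : ℝ) ^ 4 := by
    exact_mod_cast h
  have hf1 : (0 : ℝ) < (n.factorial : ℝ) := by exact_mod_cast Nat.factorial_pos n
  have hf2 : (0 : ℝ) < (d.factorial : ℝ) := by exact_mod_cast Nat.factorial_pos _
  have hc1 : (0 : ℝ) < (n.choose (k + 1) : ℝ) := by exact_mod_cast Nat.choose_pos (by omega)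
  have hc2 : (0 : ℝ) < (n.choose (l + 1) : ℝ) := by exact_mod_cast Nat.choose_pos (by omega)
  have hlog := Real.log_le_log (by positivity) hR
  rw [Real.log_mul (by positivity) hf2.ne', Real.log_mul hf1.ne' (by positivity),
    Real.log_mul (by positivity) (by positivity), Real.log_mul hpos.ne' (by positivity),
    Real.log_mul hc1.ne' hc2.ne', Real.log_pow, Real.log_pow] at hlog
  have h1 := le_factorial n (by omega)
  have h2 := le_factorial d (by omega)
  have h3 := log_choose_le (n := n) (k := k + 1) (by omega) (by omega)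
  have h4 := log_choose_le (n := n) (k := l + 1) (by omega) (by omega)
  have hK0 : (0 : ℝ) < (k : ℝ) + 1 := by positivity
  have hM0 : (0 : ℝ) < (l : ℝ) + 1 := by positivity
  push_cast at h3 h4
  rw [Real.log_div hn0.ne' hK0.ne'] at h3
  rw [Real.log_div hn0.ne' hM0.ne'] at h4
  have hq : ((n - d : ℕ) : ℝ) = n - d := by
    push_cast [Nat.cast_sub hn]
    ring
  rw [hq] at hlog
  have hKM : (k : ℝ) + 1 + (l + 1) = d - 1 := by
    have : ((k + l + 3 : ℕ) : ℝ) = d := by exact_mod_cast hkl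
    push_cast at this
    linarith
  have hK4 : (d : ℝ) ≤ 4 * (k + 1) := by exact_mod_cast hk4
  have hM4 : (d : ℝ) ≤ 4 * (l + 1) := by exact_mod_cast hl4
  have lK : Real.log d - 2 * Real.log 2 ≤ Real.log ((k : ℝ) + 1) := by
    have h5 := Real.log_le_log hd0 hK4
    rw [Real.log_mul (by norm_num) hK0.ne', show (4 : ℝ) = 2 ^ 2 by norm_num, Real.log_pow] at h5
    push_cast at h5
    linarith
  have lM : Real.log d - 2 * Real.log 2 ≤ Real.log ((l : ℝ) + 1) := by
    have h5 := Real.log_le_log hd0 hM4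
    rw [Real.log_mul (by norm_num) hM0.ne', show (4 : ℝ) = 2 ^ 2 by norm_num, Real.log_pow] at h5
    push_cast at h5
    linarith
  have lK' := mul_le_mul_of_nonneg_left lK hK0.le
  have lM' := mul_le_mul_of_nonneg_left lM hM0.le
  have hsle := log_s_le hs hd
  have hsle' := mul_le_mul_of_nonneg_left hsle hd0.le
  have hld : Real.log d ≤ Real.log n := Real.log_le_log hd0 hdn
  have hL : 0 ≤ Real.log (n : ℝ) := Real.log_nonneg hn1
  have h2p : 0 < Real.log 2 := Real.log_pos (by norm_num)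
  have e1 : ((k : ℝ) + 1) * (Real.log n - Real.log ((k : ℝ) + 1)) +
      ((l : ℝ) + 1) * (Real.log n - Real.log ((l : ℝ) + 1)) ≤
      (d - 1) * Real.log n - (d - 1) * (Real.log d - 2 * Real.log 2) := by
    have e2 : ((k : ℝ) + 1) * (Real.log n - Real.log ((k : ℝ) + 1)) +
      ((l : ℝ) + 1) * (Real.log n - Real.log ((l : ℝ) + 1)) =
      ((k : ℝ) + 1 + (l + 1)) * Real.log n - (((k : ℝ) + 1) * Real.log ((k : ℝ) + 1) +
      ((l : ℝ) + 1) * Real.log ((l : ℝ) + 1)) := by ring
    rw [e2, ← hKM]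
    nlinarith
  push_cast at hlog
  nlinarith

theorem up_all {n d s : ℕ} (hs : s = (d - 1) ^ 2 / 4) (hd : 3 ≤ d) (hn : d ≤ n) :
    Real.log ((cls n d).card) ≤ n * Real.log n - n + n * Real.log s - d * Real.log n +
      32 * d * Real.log (2 * n / d) + 150 * d + 2 * Real.log n + 2 := by
  have hd0 : (0 : ℝ) < d := by exact_mod_cast (by omega : 0 < d)
  have hn0 : (0 : ℝ) < n := by exact_mod_cast (by omega : 0 < n)
  have hn1 : (1 : ℝ) ≤ n := by exact_mod_cast (by omega : 1 ≤ n)
  have hL : 0 ≤ Real.log (n : ℝ) := Real.log_nonneg hn1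
  have hdn : (d : ℝ) ≤ n := by exact_mod_cast hn
  have hcp := cls_pos hd hn
  have hpos : (0 : ℝ) < ((cls n d).card : ℝ) := by exact_mod_cast hcp
  have hx : Real.log (2 * n / d) = Real.log 2 + Real.log n - Real.log d := by
    rw [Real.log_div (by positivity) hd0.ne', Real.log_mul (by norm_num) hn0.ne']
  have hy : Real.log (n / d) = Real.log n - Real.log d := Real.log_div hn0.ne' hd0.ne'
  have h2 : 0 < Real.log 2 := Real.log_pos (by norm_num)
  have hld : Real.log d ≤ Real.log n := Real.log_le_log hd0 hdn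
  have hxy : Real.log (n / d) ≤ Real.log (2 * n / d) := by rw [hx, hy]; linarith
  have hy0 : 0 ≤ Real.log (n / d) := by rw [hy]; linarith
  have hx0 : 0 ≤ Real.log (2 * n / d) := hy0.trans hxy
  have hsge := log_s_ge hs hd
  rcases Nat.lt_or_ge n (16 * d) with h | h
  · have h3 := Real.log_le_log hpos (cls_trivial (n := n) (d := d) (by omega) (by omega))
    rw [Real.log_exp] at h3
    have h4 : (n : ℝ) ≤ 16 * d := by exact_mod_cast h.le
    have h5 : (n : ℝ) * Real.log (2 * n / d) ≤ 16 * d * Real.log (2 * n / d) :=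
      mul_le_mul_of_nonneg_right h4 hx0
    have h6 : (n : ℝ) * Real.log (2 * n / d) = n * Real.log 2 + n * Real.log n - n * Real.log d := by
      rw [hx]; ring
    have h7 : (n : ℝ) * (2 * Real.log d - 2.49) ≤ n * Real.log s :=
      mul_le_mul_of_nonneg_left hsge hn0.le
    have h8 : 0 ≤ (n : ℝ) * Real.log 2 := by positivity
    nlinarith
  · have h3 := cls_small_sharp hs hd h hcp
    have h4 : 9 * (d : ℝ) * Real.log (n / d) ≤ 32 * d * Real.log (2 * n / d) := by
      have h5 := mul_le_mul_of_nonneg_left hxy (show (0 : ℝ) ≤ 9 * d by positivity)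
      have h6 : 9 * (d : ℝ) * Real.log (2 * n / d) ≤ 32 * d * Real.log (2 * n / d) :=
        mul_le_mul_of_nonneg_right (by linarith) hx0
      linarith
    linarith

/-- Uniform two-sided estimate for the number of nearly decomposable matrices of order `n` with
exactly `3 n - d` ones, for all `3 ≤ d ≤ n`. -/
theorem count_by_ones {n d : ℕ} (hd : 3 ≤ d) (hn : d ≤ n) :
    |Real.log (numNDOnes n (3 * n - d)) -
      (n * Real.log n - n + n * Real.log ((d - 1) ^ 2 / 4 : ℕ) - d * Real.log n)| ≤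
      300 * (d * Real.log (2 * n / d)) := by
  rw [← card_cls_eq (by omega)]
  have hl := low_all (s := (d - 1) ^ 2 / 4) rfl hd hn
  have hu := up_all (s := (d - 1) ^ 2 / 4) rfl hd hn
  have hd0 : (0 : ℝ) < d := by exact_mod_cast (by omega : 0 < d)
  have hd3 : (3 : ℝ) ≤ d := by exact_mod_cast hd
  have hn0 : (0 : ℝ) < n := by exact_mod_cast (by omega : 0 < n)
  have hdn : (d : ℝ) ≤ n := by exact_mod_cast hn
  have h1 : Real.log 2 ≤ Real.log (2 * n / d) := by
    apply Real.log_le_log (by norm_num)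
    rw [le_div_iff₀ hd0]
    linarith
  have h2 := Real.log_two_gt_d9
  have h3 : (d : ℝ) * (0.69) ≤ d * Real.log (2 * n / d) :=
    mul_le_mul_of_nonneg_left (by linarith) hd0.le
  have h4 : Real.log n ≤ d * Real.log (2 * n / d) := by
    have h5 : Real.log n = Real.log (2 * n / d) + Real.log (d / 2) := by
      rw [← Real.log_mul (by positivity) (by positivity)]
      congr 1
      field_simp
    have h6 : Real.log ((d : ℝ) / 2) ≤ d / 2 - 1 := Real.log_le_sub_one_of_pos (by positivity)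
    have h7 : ((d : ℝ) - 1) * 0.69 ≤ (d - 1) * Real.log (2 * n / d) :=
      mul_le_mul_of_nonneg_left (by linarith) (by linarith)
    nlinarith
  rw [abs_le]
  constructor
  · nlinarith
  · nlinarith

end SA

end MP_c02e9e_co
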