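import Pool.Agent.Lib.MP_c02e9e_co.SA.LDPDefs
import Pool.Agent.Lib.MP_c02e9e_co.SA.OnesFinal
import Pool.Agent.Lib.MP_c02e9e_co.SA.Final

/-!
# Large deviations of the number of ones of a nearly decomposable matrix
-/

namespace MP_c02e9e_co

namespace SA

open Filter Topology Finset

open scoped Classical

/-- The main term of `log N_n` without its linear part. -/
noncomputable def TT (n : ℕ) : ℝ := 3 * n * Real.log n - 2 * n * Real.log (Real.log n)

theorem tend_L : Tendsto (fun n : ℕ => Real.log (n : ℝ)) atTop atTop :=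
  Real.tendsto_log_atTop.comp tendsto_natCast_atTop_atTop

theorem tend_l : Tendsto (fun n : ℕ => Real.log (Real.log (n : ℝ))) atTop atTop :=
  Real.tendsto_log_atTop.comp tend_L

theorem tend_lL : Tendsto (fun n : ℕ => Real.log (Real.log (n : ℝ)) / Real.log n) atTop (𝓝 0) := by
  have h3 : Tendsto (fun x : ℝ => Real.log x / x) atTop (𝓝 0) := by
    have := Real.isLittleO_log_id_atTop.tendsto_div_nhds_zero
    simpa using this
  exact h3.comp tend_L

theorem tend_Ln : Tendsto (fun n : ℕ => Real.log (n : ℝ) / n) atTop (𝓝 0) := by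
  have h3 : Tendsto (fun x : ℝ => Real.log x / x) atTop (𝓝 0) := by
    have := Real.isLittleO_log_id_atTop.tendsto_div_nhds_zero
    simpa using this
  exact h3.comp tendsto_natCast_atTop_atTop

theorem tend_invL : Tendsto (fun n : ℕ => (Real.log (n : ℝ))⁻¹) atTop (𝓝 0) :=
  tendsto_inv_atTop_zero.comp tend_L

theorem tend_invn : Tendsto (fun n : ℕ => ((n : ℝ))⁻¹) atTop (𝓝 0) :=
  tendsto_inv_atTop_zero.comp tendsto_natCast_atTop_atTop

theorem v_tendsto : Tendsto (fun n : ℕ => (Real.log (numND n) - TT n) / n) atTop (𝓝 (-3)) := by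
  have h0 := final_bigO
  have h1 : (fun n : ℕ => Real.log (numND n) -
      (3 * n * Real.log n - 2 * n * Real.log (Real.log n) - 3 * n)) =o[atTop]
      (fun n : ℕ => (n:ℝ)) := by
    refine h0.trans_isLittleO ?_
    have h2 : (fun n : ℕ => Real.log (Real.log (n:ℝ)) / Real.log n) =o[atTop]
        (fun _ : ℕ => (1:ℝ)) := by
      rw [Asymptotics.isLittleO_one_iff]
      exact tend_lL
    have h4 := (Asymptotics.isBigO_refl (fun n : ℕ => (n:ℝ)) atTop).mul_isLittleO h2
    refine (h4.congr (fun n => ?_) (fun n => ?_))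
    · ring
    · ring
  have h2 := h1.tendsto_div_nhds_zero
  have h3 := h2.sub_const 3
  rw [zero_sub] at h3
  refine h3.congr' ?_
  filter_upwards [eventually_ge_atTop 1] with n hn
  have hn0 : (n : ℝ) ≠ 0 := by positivity
  unfold TT
  field_simp
  ring

/-- Lower bound for one class. -/
theorem low_bound {n d : ℕ} (hd : 4 ≤ d) (hn : d ≤ n) {t : ℝ} (ht : t = d * Real.log n / n) :
    TT n + n * (2 * Real.log (t / 2) - t - 1) - 4 * (n / d) - 4 * d - 5 * Real.log n - 2 ≤
      Real.log ((cls n d).card) := by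
  have hl := low_all (n := n) (d := d) (s := (d - 1) ^ 2 / 4) rfl (by omega) hn
  have hd0 : (0 : ℝ) < d := by exact_mod_cast (by omega : 0 < d)
  have hn0 : (0 : ℝ) < n := by exact_mod_cast (by omega : 0 < n)
  have hn3 : (3 : ℝ) ≤ n := by exact_mod_cast (by omega : 3 ≤ n)
  have hL1 : 1 ≤ Real.log (n : ℝ) := by
    rw [Real.le_log_iff_exp_le hn0]
    have := Real.exp_one_lt_d9
    linarith
  have hL0 : 0 < Real.log (n : ℝ) := by linarith
  -- s ≥ d (d - 2) / 4
  have hs : d * (d - 2) ≤ 4 * ((d - 1) ^ 2 / 4) := by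
    obtain ⟨e, rfl⟩ : ∃ e, d = e + 2 := ⟨d - 2, by omega⟩
    have e1 : e + 2 - 1 = e + 1 := by omega
    have e2 : e + 2 - 2 = e := by omega
    rw [e1, e2]
    have h1 : (e + 1) ^ 2 = (e + 2) * e + 1 := by ring
    rcases Nat.even_or_odd' e with ⟨c, hc | hc⟩
    · subst hc
      have h2 : (2 * c + 1) ^ 2 = 1 + 4 * (c * (c + 1)) := by ring
      rw [h2]
      have h3 : (1 + 4 * (c * (c + 1))) / 4 = c * (c + 1) := by omega
      rw [h3]
      nlinarith
    · subst hc
      have h2 : (2 * c + 1 + 1) ^ 2 = 4 * ((c + 1) * (c + 1)) := by ring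
      rw [h2, Nat.mul_div_cancel_left _ (by norm_num)]
      nlinarith
  have hsR : (d : ℝ) * (d - 2) ≤ 4 * (((d - 1) ^ 2 / 4 : ℕ) : ℝ) := by
    have h1 : ((d * (d - 2) : ℕ) : ℝ) ≤ ((4 * ((d - 1) ^ 2 / 4) : ℕ) : ℝ) := by exact_mod_cast hs
    have h2 : ((d - 2 : ℕ) : ℝ) = (d : ℝ) - 2 := by
      push_cast [Nat.cast_sub (show 2 ≤ d by omega)]
      ring
    rw [Nat.cast_mul, Nat.cast_mul, h2] at h1
    exact_mod_cast h1
  have hd4 : (4 : ℝ) ≤ d := by exact_mod_cast hd
  have hls : 2 * Real.log d - 2 * Real.log 2 - 4 / d ≤ Real.log (((d - 1) ^ 2 / 4 : ℕ) : ℝ) := by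
    have hp : 0 < (d : ℝ) * (d - 2) := by
      apply mul_pos hd0
      linarith
    have h1 := Real.log_le_log hp hsR
    have hs0 : (0 : ℝ) < (((d - 1) ^ 2 / 4 : ℕ) : ℝ) := by nlinarith
    rw [Real.log_mul (by norm_num) hs0.ne', show (4 : ℝ) = 2 ^ 2 by norm_num, Real.log_pow] at h1
    have h2 : Real.log ((d : ℝ) * (d - 2)) = 2 * Real.log d + Real.log (1 - 2 / d) := by
      have e : (d : ℝ) * (d - 2) = d ^ 2 * (1 - 2 / d) := by
        field_simp
      have h3 : (0 : ℝ) < 1 - 2 / d := by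
        rw [sub_pos, div_lt_one hd0]
        linarith
      rw [e, Real.log_mul (by positivity) h3.ne', Real.log_pow]
      push_cast
      ring
    have h4 : -(4 / (d : ℝ)) ≤ Real.log (1 - 2 / d) := by
      have h3 : (0 : ℝ) < 1 - 2 / d := by
        rw [sub_pos, div_lt_one hd0]
        linarith
      have h5 := Real.one_sub_inv_le_log_of_pos h3
      refine le_trans ?_ h5
      have e : 1 - (1 - 2 / (d : ℝ))⁻¹ = -(2 / (d - 2)) := by
        have h6 : (d : ℝ) - 2 ≠ 0 := by
          have : 0 < (d : ℝ) - 2 := by linarith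
          exact this.ne'
        field_simp
        ring
      rw [e, neg_le_neg_iff, div_le_div_iff₀ (by linarith) hd0]
      linarith
    push_cast at h1
    rw [h2] at h1
    linarith
  have hmul := mul_le_mul_of_nonneg_left hls hn0.le
  have hlt : Real.log (t / 2) = Real.log d + Real.log (Real.log n) - Real.log n - Real.log 2 := by
    rw [ht, Real.log_div (by positivity) (by norm_num), Real.log_div (by positivity) hn0.ne',
      Real.log_mul hd0.ne' hL0.ne']
  have hnt : n * t = d * Real.log n := by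
    rw [ht]
    field_simp
  have e4 : (n : ℝ) * (4 / d) = 4 * (n / d) := by ring
  rw [hlt]
  unfold TT
  have e5 : (n : ℝ) * (2 * (Real.log d + Real.log (Real.log n) - Real.log n - Real.log 2) - t - 1) =
      2 * n * Real.log d + 2 * n * Real.log (Real.log n) - 2 * n * Real.log n -
        2 * n * Real.log 2 - d * Real.log n - n := by
    rw [← hnt]
    ring
  rw [e5]
  nlinarith

/-- Upper bound for one class in the range `16 d ≤ n`. -/
theorem up_bound {n d : ℕ} (hd : 1 ≤ d) (hn : 16 * d ≤ n) {t : ℝ} (ht : t = d * Real.log n / n) :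
    ((cls n d).card : ℝ) ≤ Real.exp (TT n + n * (2 * Real.log (t / 2) - t - 1) +
      9 * n / (Real.log n) ^ 2 + t * n * ((18 * Real.log (Real.log n) + 129) / Real.log n) +
      2 * Real.log n + 2) := by
  refine (cls_small hd hn).trans (Real.exp_le_exp.2 ?_)
  have hd0 : (0 : ℝ) < d := by exact_mod_cast (by omega : 0 < d)
  have hn0 : (0 : ℝ) < n := by exact_mod_cast (by omega : 0 < n)
  have hn3 : (3 : ℝ) ≤ n := by exact_mod_cast (by omega : 3 ≤ n)
  have hL1 : 1 ≤ Real.log (n : ℝ) := by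
    rw [Real.le_log_iff_exp_le hn0]
    have := Real.exp_one_lt_d9
    linarith
  have hL0 : 0 < Real.log (n : ℝ) := by linarith
  set L := Real.log (n : ℝ) with hL
  set l := Real.log L with hl
  have h1 : 9 * (d : ℝ) * Real.log (n / d) ≤ 9 * n / L ^ 2 + 18 * d * l := by
    have h := Real.log_le_sub_one_of_pos (show 0 < (n : ℝ) / (d * L ^ 2) by positivity)
    have e : Real.log ((n : ℝ) / (d * L ^ 2)) = Real.log (n / d) - 2 * l := by
      rw [Real.log_div hn0.ne' (by positivity), Real.log_mul hd0.ne' (by positivity),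
        Real.log_pow, Real.log_div hn0.ne' hd0.ne']
      push_cast
      ring
    rw [e] at h
    have h' : Real.log (n / d) ≤ n / (d * L ^ 2) + 2 * l := by linarith
    have h2 := mul_le_mul_of_nonneg_left h' (show (0 : ℝ) ≤ 9 * d by positivity)
    have e2 : 9 * (d : ℝ) * (n / (d * L ^ 2) + 2 * l) = 9 * n / L ^ 2 + 18 * d * l := by
      field_simp
      ring
    rw [e2] at h2
    exact h2
  have hlt : Real.log (t / 2) = Real.log d + l - L - Real.log 2 := by
    rw [ht, Real.log_div (by positivity) (by norm_num), Real.log_div (by positivity) hn0.ne',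
      Real.log_mul hd0.ne' hL0.ne']
  have hnt : n * t = d * L := by
    rw [ht]
    field_simp
  have hld : Real.log ((d : ℝ) / 2) = Real.log d - Real.log 2 := Real.log_div hd0.ne' (by norm_num)
  have e3 : t * n * ((18 * l + 129) / L) = 18 * d * l + 129 * d := by
    rw [mul_comm t (n : ℝ), hnt]
    field_simp
  rw [hlt, hld, e3]
  unfold TT
  rw [← hL, ← hl]
  have e5 : (n : ℝ) * (2 * (Real.log d + l - L - Real.log 2) - t - 1) =
      2 * n * Real.log d + 2 * n * l - 2 * n * L - 2 * n * Real.log 2 - d * L - n := by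
    rw [← hnt]
    ring
  rw [e5]
  nlinarith

theorem such_le_sum {n : ℕ} (hn : 2 ≤ n) (P : ℕ → Prop) :
    numNDSuch n P ≤ ∑ d ∈ (Finset.Icc 1 (3 * n)).filter (fun d => P (3 * n - d)), (cls n d).card := by
  unfold numNDSuch
  rw [Nat.card_eq_fintype_card, Fintype.card_subtype]
  refine le_trans (Finset.card_le_card ?_) Finset.card_biUnion_le
  intro A hA
  rw [Finset.mem_filter] at hA
  obtain ⟨-, h1, h2⟩ := hA
  have h3 := ones_lt hn h1
  rw [nE_rel_eq_ones] at h3
  rw [Finset.mem_biUnion]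
  refine ⟨3 * n - ones A, ?_, ?_⟩
  · rw [Finset.mem_filter, Finset.mem_Icc]
    refine ⟨⟨by omega, by omega⟩, ?_⟩
    have e : 3 * n - (3 * n - ones A) = ones A := by omega
    rw [e]
    exact h2
  · unfold cls
    rw [Finset.mem_filter, nE_rel_eq_ones]
    exact ⟨Finset.mem_univ _, h1, by omega⟩

theorem cls_le_such {n d : ℕ} (hd : d ≤ 3 * n) {P : ℕ → Prop} (hP : P (3 * n - d)) :
    (cls n d).card ≤ numNDSuch n P := by
  unfold numNDSuch
  rw [Nat.card_eq_fintype_card, Fintype.card_subtype]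
  apply Finset.card_le_card
  intro A hA
  unfold cls at hA
  rw [Finset.mem_filter, nE_rel_eq_ones] at hA
  obtain ⟨-, h1, h2⟩ := hA
  rw [Finset.mem_filter]
  refine ⟨Finset.mem_univ _, h1, ?_⟩
  have e : ones A = 3 * n - d := by omega
  rw [e]
  exact hP

end SA

end MP_c02e9e_co
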