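import Pool.Agent.Lib.MP_c02e9e_co.SA.OnesDefs

/-!
# Large deviations of the number of ones: definitions
-/

namespace MP_c02e9e_co

/-- The number of nearly decomposable matrices in `B_n` whose number of ones satisfies `P`. -/
noncomputable def numNDSuch (n : ℕ) (P : ℕ → Prop) : ℕ :=
  Nat.card {A : BMat n // NearlyDecomposable A ∧ P (ones A)}

end MP_c02e9e_co
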