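import Pool.Agent.Lib.MP_c02e9e_co.SA.LDP

/-!
# Large deviations of the number of ones of a nearly decomposable matrix: limits
-/

namespace MP_c02e9e_co

namespace SA

open Filter Topology Finset

open scoped Classical

theorem tend_nL : Tendsto (fun n : ℕ => (n : ℝ) / Real.log n) atTop atTop := by
  have h1 : Tendsto (fun n : ℕ => Real.log (n : ℝ) / n) atTop (𝓝[>] 0) := by
    rw [tendsto_nhdsWithin_iff]
    refine ⟨tend_Ln, ?_⟩
    filter_upwards [eventually_ge_atTop 2] with n hn
    have hn2 : (1 : ℝ) < n := by exact_mod_cast (by omega : 1 < n)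
    exact div_pos (Real.log_pos hn2) (by linarith)
  have h2 := h1.inv_tendsto_nhdsGT_zero
  refine h2.congr (fun n => ?_)
  rw [Pi.inv_apply, inv_div]

/-- The relative error. -/
noncomputable def er (n : ℕ) : ℝ := (18 * Real.log (Real.log (n : ℝ)) + 129) / Real.log n

theorem tend_er : Tendsto er atTop (𝓝 0) := by
  have h := (tend_lL.const_mul 18).add (tend_invL.const_mul 129)
  simp only [mul_zero, add_zero] at h
  refine h.congr (fun n => ?_)
  unfold er
  ring

/-- The total error. -/
noncomputable def EE (a : ℝ) (n : ℕ) : ℝ :=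
  9 * n / (Real.log n) ^ 2 + a * n * er n + 2 * Real.log n + 2 + Real.log (3 * n)

theorem tend_EE (a : ℝ) : Tendsto (fun n : ℕ => EE a n / n) atTop (𝓝 0) := by
  have h1 := ((tend_invL.mul tend_invL).const_mul 9).add ((tend_er.const_mul a).add
    ((tend_Ln.const_mul 3).add ((tend_invn.const_mul (2 + Real.log 3)))))
  simp only [mul_zero, add_zero] at h1
  refine h1.congr' ?_
  filter_upwards [eventually_ge_atTop 2] with n hn
  have hn2 : (1 : ℝ) < n := by exact_mod_cast (by omega : 1 < n)
  have hn0 : (0 : ℝ) < n := by linarith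
  have hL0 : 0 < Real.log (n : ℝ) := Real.log_pos hn2
  unfold EE
  rw [Real.log_mul (by norm_num) hn0.ne']
  field_simp
  ring

theorem final_step {a : ℝ} (ha : 0 < a) {P : ℕ → ℕ → Prop} {d : ℕ → ℕ}
    (hd : Tendsto (fun n : ℕ => (d n : ℝ) * Real.log n / n) atTop (𝓝 a))
    (hlow : ∀ᶠ n in atTop, P n (3 * n - d n))
    (hup : ∀ᶠ n : ℕ in atTop, ∀ e : ℕ, 1 ≤ e → e ≤ 3 * n → P n (3 * n - e) →
      ((cls n e).card : ℝ) ≤ Real.exp (TT n + n * (2 * Real.log (a / 2) - a - 1) +
        9 * n / (Real.log n) ^ 2 + a * n * er n + 2 * Real.log n + 2)) :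
    Tendsto (fun n : ℕ => Real.log ((numNDSuch n (P n) : ℝ) / numND n) / n) atTop
      (𝓝 (2 + 2 * Real.log (a / 2) - a)) := by
  -- the parameter tends to infinity
  have hdinf : Tendsto (fun n : ℕ => (d n : ℝ)) atTop atTop := by
    have h1 := hd.pos_mul_atTop ha tend_nL
    refine h1.congr' ?_
    filter_upwards [eventually_ge_atTop 2] with n hn
    have hn2 : (1 : ℝ) < n := by exact_mod_cast (by omega : 1 < n)
    have hn0 : (0 : ℝ) < n := by linarith
    have hL0 : 0 < Real.log (n : ℝ) := Real.log_pos hn2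
    field_simp
  have hdn : Tendsto (fun n : ℕ => (d n : ℝ) / n) atTop (𝓝 0) := by
    have h1 := hd.mul tend_invL
    rw [mul_zero] at h1
    refine h1.congr' ?_
    filter_upwards [eventually_ge_atTop 2] with n hn
    have hn2 : (1 : ℝ) < n := by exact_mod_cast (by omega : 1 < n)
    have hn0 : (0 : ℝ) < n := by linarith
    have hL0 : 0 < Real.log (n : ℝ) := Real.log_pos hn2
    field_simp
  have hd4 : ∀ᶠ n : ℕ in atTop, 4 ≤ d n := by
    filter_upwards [hdinf.eventually_ge_atTop 4] with n hn
    exact_mod_cast hn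
  have hdle : ∀ᶠ n : ℕ in atTop, d n ≤ n := by
    filter_upwards [hdn.eventually_lt_const (show (0 : ℝ) < 1 by norm_num),
      eventually_ge_atTop 1] with n hn hn1
    have hn0 : (0 : ℝ) < n := by exact_mod_cast hn1
    rw [div_lt_one hn0] at hn
    exact_mod_cast hn.le
  -- lower function
  have hlowlim : Tendsto (fun n : ℕ => 2 * Real.log (((d n : ℝ) * Real.log n / n) / 2) -
      ((d n : ℝ) * Real.log n / n) - 1 - 4 * ((d n : ℝ))⁻¹ - 4 * ((d n : ℝ) / n) -
      5 * (Real.log n / n) - 2 * ((n : ℝ))⁻¹) atTop (𝓝 (2 * Real.log (a / 2) - a - 1)) := by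
    have h1 : Tendsto (fun n : ℕ => Real.log (((d n : ℝ) * Real.log n / n) / 2)) atTop
        (𝓝 (Real.log (a / 2))) :=
      (hd.div_const 2).log (by positivity)
    have h2 := (tendsto_inv_atTop_zero.comp hdinf)
    have h3 := ((((((h1.const_mul 2).sub hd).sub_const 1).sub (h2.const_mul 4)).sub
      (hdn.const_mul 4)).sub (tend_Ln.const_mul 5)).sub (tend_invn.const_mul 2)
    simp only [mul_zero, sub_zero] at h3
    exact h3
  have huplim : Tendsto (fun n : ℕ => (2 * Real.log (a / 2) - a - 1) + EE a n / n) atTop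
      (𝓝 (2 * Real.log (a / 2) - a - 1)) := by
    have h := (tend_EE a).const_add (2 * Real.log (a / 2) - a - 1)
    rwa [add_zero] at h
  have hu : Tendsto (fun n : ℕ => (Real.log (numNDSuch n (P n)) - TT n) / n) atTop
      (𝓝 (2 * Real.log (a / 2) - a - 1)) := by
    refine tendsto_of_tendsto_of_tendsto_of_le_of_le' hlowlim huplim ?_ ?_
    · filter_upwards [hd4, hdle, hlow, eventually_ge_atTop 2] with n h4 hle hP hn
      have hn2 : (1 : ℝ) < n := by exact_mod_cast (by omega : 1 < n)
      have hn0 : (0 : ℝ) < n := by linarith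
      have hd0 : (0 : ℝ) < d n := by exact_mod_cast (by omega : 0 < d n)
      have h1 := low_bound h4 hle rfl
      have h2 : (0 : ℝ) < ((cls n (d n)).card : ℝ) := by
        exact_mod_cast cls_pos (by omega) hle
      have h3 : ((cls n (d n)).card : ℝ) ≤ (numNDSuch n (P n) : ℝ) := by
        exact_mod_cast cls_le_such (by omega) hP
      have h5 := Real.log_le_log h2 h3
      rw [le_div_iff₀ hn0]
      have e : (2 * Real.log (((d n : ℝ) * Real.log n / n) / 2) -
        ((d n : ℝ) * Real.log n / n) - 1 - 4 * ((d n : ℝ))⁻¹ - 4 * ((d n : ℝ) / n) -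
        5 * (Real.log n / n) - 2 * ((n : ℝ))⁻¹) * n =
        n * (2 * Real.log (((d n : ℝ) * Real.log n / n) / 2) -
          ((d n : ℝ) * Real.log n / n) - 1) - 4 * (n / d n) - 4 * d n - 5 * Real.log n - 2 := by
        field_simp
      rw [e]
      linarith
    · filter_upwards [hup, hd4, hdle, hlow, eventually_ge_atTop 2] with n hupn h4 hle hP hn
      have hn2 : (1 : ℝ) < n := by exact_mod_cast (by omega : 1 < n)
      have hn0 : (0 : ℝ) < n := by linarith
      set X : ℝ := TT n + n * (2 * Real.log (a / 2) - a - 1) +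
        9 * n / (Real.log n) ^ 2 + a * n * er n + 2 * Real.log n + 2 with hX
      have h1 : (numNDSuch n (P n) : ℝ) ≤ 3 * n * Real.exp X := by
        have h2 : (numNDSuch n (P n) : ℝ) ≤
            ∑ e ∈ (Finset.Icc 1 (3 * n)).filter (fun e => P n (3 * n - e)), ((cls n e).card : ℝ) := by
          exact_mod_cast such_le_sum hn (P n)
        refine h2.trans ((Finset.sum_le_card_nsmul _ _ (Real.exp X) ?_).trans ?_)
        · intro e he
          rw [Finset.mem_filter, Finset.mem_Icc] at he
          exact hupn e he.1.1 he.1.2 he.2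
        · rw [nsmul_eq_mul]
          apply mul_le_mul_of_nonneg_right _ (Real.exp_pos _).le
          have h3 : ((Finset.Icc 1 (3 * n)).filter (fun e => P n (3 * n - e))).card ≤ 3 * n := by
            refine (Finset.card_filter_le _ _).trans ?_
            rw [Nat.card_Icc]
            omega
          exact_mod_cast h3
      have h2 : (0 : ℝ) < ((cls n (d n)).card : ℝ) := by
        exact_mod_cast cls_pos (by omega) hle
      have h3 : ((cls n (d n)).card : ℝ) ≤ (numNDSuch n (P n) : ℝ) := by
        exact_mod_cast cls_le_such (by omega) hP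
      have h5 := Real.log_le_log (lt_of_lt_of_le h2 h3) h1
      rw [Real.log_mul (by positivity) (Real.exp_pos _).ne', Real.log_exp] at h5
      rw [div_le_iff₀ hn0, add_mul, div_mul_cancel₀ _ hn0.ne']
      unfold EE
      rw [hX] at h5
      linarith
  have hfin := hu.sub v_tendsto
  have e : 2 * Real.log (a / 2) - a - 1 - -3 = 2 + 2 * Real.log (a / 2) - a := by ring
  rw [e] at hfin
  refine hfin.congr' ?_
  filter_upwards [hd4, hdle, hlow, eventually_ge_atTop 3] with n h4 hle hP hn
  have h2 : (0 : ℝ) < ((cls n (d n)).card : ℝ) := by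
    exact_mod_cast cls_pos (by omega) hle
  have h3 : ((cls n (d n)).card : ℝ) ≤ (numNDSuch n (P n) : ℝ) := by
    exact_mod_cast cls_le_such (by omega) hP
  have h6 : (0 : ℝ) < (numND n : ℝ) := by exact_mod_cast numND_pos hn
  rw [Real.log_div (lt_of_lt_of_le h2 h3).ne' h6.ne']
  ring

/-- The main inequality for the exponents. -/
theorem key_ineq {a t δ : ℝ} (ha : 0 < a) (ht : 0 < t) (h : (t - a) * (2 / a - 1 + δ) ≤ 0) :
    2 * Real.log (t / 2) - t - 1 + t * δ ≤ 2 * Real.log (a / 2) - a - 1 + a * δ := by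
  have h1 : Real.log (t / 2) = Real.log (a / 2) + Real.log (t / a) := by
    rw [← Real.log_mul (by positivity) (by positivity)]
    congr 1
    field_simp
  have h2 := Real.log_le_sub_one_of_pos (show 0 < t / a by positivity)
  have h3 : (t - a) * (2 / a - 1 + δ) = 2 * (t / a) - 2 - t + a + t * δ - a * δ := by
    field_simp
    ring
  rw [h1]
  linarith

theorem round_tendsto {a : ℝ} {d : ℕ → ℕ}
    (h : ∀ᶠ n : ℕ in atTop, |(d n : ℝ) - a * n / Real.log n| ≤ 1) :
    Tendsto (fun n : ℕ => (d n : ℝ) * Real.log n / n) atTop (𝓝 a) := by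
  rw [tendsto_iff_dist_tendsto_zero]
  refine squeeze_zero' (Eventually.of_forall (fun n => dist_nonneg)) ?_ tend_Ln
  filter_upwards [h, eventually_ge_atTop 2] with n hn hn2
  have hn1 : (1 : ℝ) < n := by exact_mod_cast (by omega : 1 < n)
  have hn0 : (0 : ℝ) < n := by linarith
  have hL0 : 0 < Real.log (n : ℝ) := Real.log_pos hn1
  rw [Real.dist_eq]
  have e : (d n : ℝ) * Real.log n / n - a = ((d n : ℝ) - a * n / Real.log n) * (Real.log n / n) := by
    field_simp
  rw [e, abs_mul, abs_of_pos (div_pos hL0 hn0)]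
  calc |(d n : ℝ) - a * n / Real.log n| * (Real.log n / n) ≤ 1 * (Real.log n / n) :=
        mul_le_mul_of_nonneg_right hn (div_pos hL0 hn0).le
    _ = Real.log n / n := one_mul _

theorem ge_tendsto {a : ℝ} (ha : 0 < a) (ha2 : a < 2) :
    Tendsto (fun n : ℕ => Real.log
      ((numNDSuch n (fun m => 3 * (n : ℝ) - a * n / Real.log n ≤ (m : ℝ)) : ℝ) / numND n) / n) atTop
      (𝓝 (2 + 2 * Real.log (a / 2) - a)) := by
  refine final_step (P := fun n m => 3 * (n : ℝ) - a * n / Real.log n ≤ (m : ℝ))
    (d := fun n => ⌊a * n / Real.log n⌋₊) ha ?_ ?_ ?_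
  · apply round_tendsto
    filter_upwards [eventually_ge_atTop 2] with n hn2
    have hn1 : (1 : ℝ) < n := by exact_mod_cast (by omega : 1 < n)
    have hL0 : 0 < Real.log (n : ℝ) := Real.log_pos hn1
    have h0 : 0 ≤ a * n / Real.log n := by positivity
    have h1 := Nat.floor_le h0
    have h2 := Nat.lt_floor_add_one (a * n / Real.log n)
    rw [abs_le]
    constructor <;> linarith
  · filter_upwards [eventually_ge_atTop 2, tend_L.eventually_ge_atTop 1] with n hn2 hL1
    have hn1 : (1 : ℝ) < n := by exact_mod_cast (by omega : 1 < n)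
    have hL0 : 0 < Real.log (n : ℝ) := Real.log_pos hn1
    have h0 : 0 ≤ a * n / Real.log n := by positivity
    have h1 := Nat.floor_le h0
    have h3 : a * n / Real.log n ≤ 2 * n := by
      rw [div_le_iff₀ hL0]
      nlinarith
    have h4 : ⌊a * n / Real.log n⌋₊ ≤ 3 * n := by
      have h5 : ((⌊a * n / Real.log n⌋₊ : ℕ) : ℝ) ≤ ((3 * n : ℕ) : ℝ) := by
        push_cast
        linarith
      exact_mod_cast h5
    rw [Nat.cast_sub h4]
    push_cast
    linarith
  · filter_upwards [eventually_ge_atTop 2, tend_L.eventually_ge_atTop 32,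
      tend_l.eventually_ge_atTop 0] with n hn2 hL32 hl0 e he1 he3 hP
    have hn1 : (1 : ℝ) < n := by exact_mod_cast (by omega : 1 < n)
    have hn0 : (0 : ℝ) < n := by linarith
    have hL0 : 0 < Real.log (n : ℝ) := Real.log_pos hn1
    have he0 : (0 : ℝ) < e := by exact_mod_cast (by omega : 0 < e)
    rw [Nat.cast_sub he3] at hP
    push_cast at hP
    have hle : (e : ℝ) ≤ a * n / Real.log n := by linarith
    have hle' : (e : ℝ) * Real.log n ≤ a * n := by rwa [le_div_iff₀ hL0] at hle
    have h16 : 16 * e ≤ n := by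
      have : 16 * (e : ℝ) ≤ n := by nlinarith
      exact_mod_cast this
    refine (up_bound he1 h16 rfl).trans (Real.exp_le_exp.2 ?_)
    set t := (e : ℝ) * Real.log n / n with ht
    have ht0 : 0 < t := by positivity
    have hta : t ≤ a := by
      rw [ht, div_le_iff₀ hn0]
      exact hle'
    have her : 0 ≤ er n := by
      unfold er
      positivity
    have h2a : 1 ≤ 2 / a := by
      rw [le_div_iff₀ ha]
      linarith
    have hk := key_ineq (δ := er n) ha ht0 (by
      apply mul_nonpos_of_nonpos_of_nonneg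
      · linarith
      · linarith)
    have hk' := mul_le_mul_of_nonneg_left hk hn0.le
    have e1 : t * n * ((18 * Real.log (Real.log (n : ℝ)) + 129) / Real.log n) = n * (t * er n) := by
      unfold er
      ring
    rw [e1]
    nlinarith

theorem le_tendsto {a : ℝ} (ha2 : 2 < a) :
    Tendsto (fun n : ℕ => Real.log
      ((numNDSuch n (fun m => (m : ℝ) ≤ 3 * (n : ℝ) - a * n / Real.log n) : ℝ) / numND n) / n) atTop
      (𝓝 (2 + 2 * Real.log (a / 2) - a)) := by
  have ha : 0 < a := by linarith
  refine final_step (P := fun n m => (m : ℝ) ≤ 3 * (n : ℝ) - a * n / Real.log n)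
    (d := fun n => ⌈a * n / Real.log n⌉₊) ha ?_ ?_ ?_
  · apply round_tendsto
    filter_upwards [eventually_ge_atTop 2] with n hn2
    have hn1 : (1 : ℝ) < n := by exact_mod_cast (by omega : 1 < n)
    have hL0 : 0 < Real.log (n : ℝ) := Real.log_pos hn1
    have h0 : 0 ≤ a * n / Real.log n := by positivity
    have h1 := Nat.le_ceil (a * n / Real.log n)
    have h2 := Nat.ceil_lt_add_one h0
    rw [abs_le]
    constructor <;> linarith
  · filter_upwards [eventually_ge_atTop 2, tend_L.eventually_ge_atTop a] with n hn2 hLa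
    have hn1 : (1 : ℝ) < n := by exact_mod_cast (by omega : 1 < n)
    have hL0 : 0 < Real.log (n : ℝ) := Real.log_pos hn1
    have h0 : 0 ≤ a * n / Real.log n := by positivity
    have h1 := Nat.le_ceil (a * n / Real.log n)
    have h2 := Nat.ceil_lt_add_one h0
    have h3 : a * n / Real.log n ≤ n := by
      rw [div_le_iff₀ hL0]
      nlinarith
    have h4 : ⌈a * n / Real.log n⌉₊ ≤ 3 * n := by
      have h5 : ((⌈a * n / Real.log n⌉₊ : ℕ) : ℝ) ≤ ((3 * n : ℕ) : ℝ) := by
        push_cast
        linarith
      exact_mod_cast h5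
    rw [Nat.cast_sub h4]
    push_cast
    linarith
  · have hneg : (2 : ℝ) / a - 1 < 0 := by
      rw [sub_neg, div_lt_one ha]
      exact ha2
    have her2 : ∀ᶠ n : ℕ in atTop, 2 / a - 1 + er n ≤ 0 := by
      have h := tend_er.const_add (2 / a - 1)
      rw [add_zero] at h
      filter_upwards [h.eventually_lt_const hneg] with n hn
      exact hn.le
    have hbig : ∀ᶠ n : ℕ in atTop,
        (1 : ℝ) + 2 * Real.log (Real.log n) - (2 * Real.log (a / 2) - a - 1) ≤ Real.log n / 16 := by
      have h := ((tend_lL.const_mul 2).add (tend_invL.const_mul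
        (1 - (2 * Real.log (a / 2) - a - 1))))
      simp only [mul_zero, add_zero] at h
      filter_upwards [h.eventually_lt_const (show (0 : ℝ) < 1 / 16 by norm_num),
        tend_L.eventually_ge_atTop 1] with n hn hL1
      have hL0 : 0 < Real.log (n : ℝ) := by linarith
      have h2 := mul_lt_mul_of_pos_right hn hL0
      have e : (2 * (Real.log (Real.log (n : ℝ)) / Real.log n) + (1 - (2 * Real.log (a / 2) - a - 1)) *
        (Real.log (n : ℝ))⁻¹) * Real.log n =
        2 * Real.log (Real.log n) + (1 - (2 * Real.log (a / 2) - a - 1)) := by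
        field_simp
      rw [e] at h2
      linarith
    filter_upwards [eventually_ge_atTop 2, tend_L.eventually_ge_atTop 32,
      tend_l.eventually_ge_atTop 0, her2, hbig] with n hn2 hL32 hl0 her2 hbig e he1 he3 hP
    have hn1 : (1 : ℝ) < n := by exact_mod_cast (by omega : 1 < n)
    have hn0 : (0 : ℝ) < n := by linarith
    have hL0 : 0 < Real.log (n : ℝ) := Real.log_pos hn1
    have he0 : (0 : ℝ) < e := by exact_mod_cast (by omega : 0 < e)
    rw [Nat.cast_sub he3] at hP
    push_cast at hP
    have hle : a * n / Real.log n ≤ (e : ℝ) := by linarith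
    have hle' : a * n ≤ (e : ℝ) * Real.log n := by rwa [div_le_iff₀ hL0] at hle
    have her : 0 ≤ er n := by
      unfold er
      positivity
    rcases Nat.lt_or_ge n (16 * e) with h | h
    · refine (cls_trivial (by omega) he3).trans (Real.exp_le_exp.2 ?_)
      have h1 : (n : ℝ) ≤ 16 * e := by exact_mod_cast h.le
      have h2 : (n : ℝ) * Real.log n ≤ 16 * e * Real.log n := mul_le_mul_of_nonneg_right h1 hL0.le
      have h3 := mul_le_mul_of_nonneg_left hbig hn0.le
      have h4 : 0 ≤ 9 * (n : ℝ) / (Real.log n) ^ 2 := by positivity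
      have h5 : 0 ≤ a * n * er n := by positivity
      unfold TT
      nlinarith
    · refine (up_bound he1 h rfl).trans (Real.exp_le_exp.2 ?_)
      set t := (e : ℝ) * Real.log n / n with ht
      have ht0 : 0 < t := by positivity
      have hta : a ≤ t := by
        rw [ht, le_div_iff₀ hn0]
        exact hle'
      have hk := key_ineq (δ := er n) ha ht0 (by
        apply mul_nonpos_of_nonneg_of_nonpos
        · linarith
        · exact her2)
      have hk' := mul_le_mul_of_nonneg_left hk hn0.le
      have e1 : t * n * ((18 * Real.log (Real.log (n : ℝ)) + 129) / Real.log n) = n * (t * er n) := by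
        unfold er
        ring
      rw [e1]
      nlinarith

end SA

end MP_c02e9e_co
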