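import Pool.Agent.Lib.MP_c02e9e_co.SA.Base

/-!
# The family for the lower bound: definitions

Rows and columns are indexed by `IX k q`: `k + 1` big vertices (`inl i`), `k` interior vertices of
the T-paths (`inr (inl j)`), and `2 + q` H-paths (`inr (inr p)`), of which two are fixed
(they join `u_0` with `v_0` and `u_k` with `v_k`) and `q` are free, with arbitrary ends.
-/

namespace MP_c02e9e_co

namespace SA

open Finset

open scoped Classical

/-- The index type of rows and of columns. -/
abbrev IX (k q : ℕ) := Fin (k + 1) ⊕ (Fin k ⊕ (Fin 2 ⊕ Fin q))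

/-- The end of an H-path. -/
def he {k q : ℕ} (α : Fin q → Fin (k + 1)) : Fin 2 ⊕ Fin q → Fin (k + 1)
  | Sum.inl i => if i = 0 then 0 else Fin.last k
  | Sum.inr j => α j

/-- The relation of the family. -/
def adjL {k q : ℕ} (α β : Fin q → Fin (k + 1)) : IX k q → IX k q → Prop
  | Sum.inl _, Sum.inl _ => False
  | Sum.inl i, Sum.inr (Sum.inl j) => i = j.castSucc ∨ i = j.succ
  | Sum.inl i, Sum.inr (Sum.inr p) => he α p = i
  | Sum.inr (Sum.inl j), Sum.inl i => i = j.castSucc ∨ i = j.succ
  | Sum.inr (Sum.inl _), Sum.inr _ => False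
  | Sum.inr (Sum.inr p), Sum.inl i => he β p = i
  | Sum.inr (Sum.inr _), Sum.inr (Sum.inl _) => False
  | Sum.inr (Sum.inr p), Sum.inr (Sum.inr p') => p = p'

/-- The data: labels of the rows and of the columns, ends of the free H-paths. -/
abbrev LData (k q n : ℕ) := (IX k q ≃ Fin n) × (IX k q ≃ Fin n) × (Fin q → Fin (k + 1)) ×
  (Fin q → Fin (k + 1))

/-- The matrix of a datum. -/
noncomputable def lmat {k q n : ℕ} (t : LData k q n) : BMat n :=
  fun i j => decide (adjL t.2.2.1 t.2.2.2 (t.1.symm i) (t.2.1.symm j))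

theorem lmat_apply {k q n : ℕ} (t : LData k q n) (a b : IX k q) :
    lmat t (t.1 a) (t.2.1 b) = true ↔ adjL t.2.2.1 t.2.2.2 a b := by
  simp [lmat]

/-- The extra information which, together with the matrix, determines the datum: labels of the
rows of the free H-paths, of the two fixed H-paths, the sets of labels of the big rows and of the
big columns, the labels of `u_0` and `v_0`. -/
noncomputable def extra {k q n : ℕ} (t : LData k q n) :
    (Fin q ↪ Fin n) × (Fin 2 → Fin n) × {U : Finset (Fin n) // U.card = k + 1} ×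
      {W : Finset (Fin n) // W.card = k + 1} × Fin n × Fin n :=
  (⟨fun j => t.1 (Sum.inr (Sum.inr (Sum.inr j))), fun a b h => by simpa using h⟩,
   fun i => t.1 (Sum.inr (Sum.inr (Sum.inl i))),
   ⟨univ.map ((Function.Embedding.inl).trans t.1.toEmbedding), by simp⟩,
   ⟨univ.map ((Function.Embedding.inl).trans t.2.1.toEmbedding), by simp⟩,
   t.1 (Sum.inl 0), t.2.1 (Sum.inl 0))

end SA

end MP_c02e9e_co
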