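import Pool.Agent.Lib.MP_c02e9e_co.SA.LDefs

/-!
# The matrices of the family are nearly decomposable
-/

namespace MP_c02e9e_co

namespace SA

open Finset

open scoped Classical

/-- The perfect matching: `u_i ↦` T-column `i` for `i < k`, `u_k ↦` H-column `inl 1`,
T-row `j ↦ v_j`, H-row `inl 1 ↦ v_k`, all other H-rows to their H-column. -/
def matL {k q : ℕ} : IX k q → IX k q
  | Sum.inl i => if h : i = Fin.last k then Sum.inr (Sum.inr (Sum.inl 1))
      else Sum.inr (Sum.inl (i.castPred h))
  | Sum.inr (Sum.inl j) => Sum.inl j.castSucc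
  | Sum.inr (Sum.inr (Sum.inl i)) => if i = 0 then Sum.inr (Sum.inr (Sum.inl 0))
      else Sum.inl (Fin.last k)
  | Sum.inr (Sum.inr (Sum.inr j)) => Sum.inr (Sum.inr (Sum.inr j))

theorem matL_injective {k q : ℕ} : Function.Injective (matL (k := k) (q := q)) := by
  have h : Function.Involutive (matL (k := k) (q := q)) := by
    intro r
    rcases r with i | j | p | j
    · by_cases h : i = Fin.last k
      · subst h
        simp [matL]
      · simp [matL, h]
    · have h1 : j.castSucc ≠ Fin.last k := Fin.castSucc_ne_last j
      simp [matL, h1]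
    · by_cases h : p = 0
      · subst h
        simp [matL]
      · have hp1 : p = 1 := by omega
        subst hp1
        simp [matL]
    · simp [matL]
  exact h.injective

theorem adjL_mat {k q : ℕ} (α β : Fin q → Fin (k + 1)) (r : IX k q) :
    adjL α β r (matL r) := by
  rcases r with i | j | p | j
  · by_cases h : i = Fin.last k
    · subst h
      simp [matL, adjL, he]
    · simp [matL, adjL, h]
  · simp [matL, adjL]
  · by_cases h : p = 0
    · subst h
      simp [matL, adjL]
    · simp [matL, adjL, he, h]
  · simp [matL, adjL]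

/-- PROOF. `fi_of_matching` with `matL`. Let `S` be nonempty and closed (`r ∈ S`, `adjL r (matL r')`
imply `r' ∈ S`). Arcs `r → r'`: `u_{j+1} → u_j` (T-column `j`, `matL (u_j)`), `u_0 →` H-row `inl 0`,
H-row `inl 0 → matL⁻¹(v_0)`, which is T-row `0` if `k > 0` and H-row `inl 1` if `k = 0`;
T-row `j →` T-row `j + 1` if `j + 1 < k`, T-row `k - 1 →` H-row `inl 1` (both via `v_{j+1}`);
H-row `inl 1 → u_k` (via H-column `inl 1`); H-row `p →` the row matched to `v_{he β p}`;
`u_{α j} →` H-row `inr j`. So from every element of `S` one reaches some T-row or H-row `inl 1`, then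
H-row `inl 1`, then `u_k`, all `u_i` (downward induction), H-row `inl 0`, `matL⁻¹(v_0)`, all T-rows
(upward induction), all free H-rows (from `u_{α j}`). -/
theorem adjL_fi {k q n : ℕ} (hn : n = 2 * k + 3 + q) (α β : Fin q → Fin (k + 1)) :
    FI n (adjL α β) := by
  have hcard : Fintype.card (IX k q) = n := by
    simp only [Fintype.card_sum, Fintype.card_fin]
    omega
  refine fi_of_matching hcard hcard _ matL matL_injective (adjL_mat α β) ?_
  intro S hS hcl
  -- the rows matched to `v_i`
  have hV : ∀ r ∈ S, ∀ i : Fin (k + 1), adjL α β r (Sum.inl i) →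
      ∀ r' : IX k q, matL r' = Sum.inl i → r' ∈ S := by
    intro r hr i hri r' hr'
    exact hcl r hr r' (by rw [hr']; exact hri)
  have hstep : ∀ j : Fin k, (∀ r' : IX k q, matL r' = Sum.inl j.castSucc → r' ∈ S) →
      ∀ r' : IX k q, matL r' = Sum.inl j.succ → r' ∈ S := by
    intro j hj
    have h1 : (Sum.inr (Sum.inl j) : IX k q) ∈ S := hj _ rfl
    exact hV _ h1 _ (Or.inr rfl)
  have hlast : ∀ i : Fin (k + 1), (∀ r' : IX k q, matL r' = Sum.inl i → r' ∈ S) →
      ∀ r' : IX k q, matL r' = Sum.inl (Fin.last k) → r' ∈ S := by
    intro i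
    induction i using Fin.reverseInduction with
    | last => exact fun h => h
    | cast i ih => exact fun h => ih (hstep i h)
  have hh1 : ∀ i : Fin (k + 1), (∀ r' : IX k q, matL r' = Sum.inl i → r' ∈ S) →
      (Sum.inr (Sum.inr (Sum.inl 1)) : IX k q) ∈ S := by
    intro i hi
    exact hlast i hi _ (by simp [matL])
  have ha : ∀ j : Fin k, (Sum.inl j.succ : IX k q) ∈ S → (Sum.inl j.castSucc : IX k q) ∈ S := by
    intro j hj
    refine hcl _ hj _ ?_
    have h1 : j.castSucc ≠ Fin.last k := Fin.castSucc_ne_last j
    simp [matL, adjL, h1]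
  have hb : (Sum.inl 0 : IX k q) ∈ S → (Sum.inr (Sum.inr (Sum.inl 0)) : IX k q) ∈ S := by
    intro h
    exact hcl _ h _ (by simp [matL, adjL, he])
  have h0 : (Sum.inl 0 : IX k q) ∈ S → ∀ r' : IX k q, matL r' = Sum.inl 0 → r' ∈ S := by
    intro h
    exact hV _ (hb h) 0 (by simp [adjL, he])
  have hdown : ∀ i : Fin (k + 1), (Sum.inl i : IX k q) ∈ S → (Sum.inl 0 : IX k q) ∈ S := by
    intro i
    induction i using Fin.induction with
    | zero => exact fun h => h
    | succ i ih => exact fun h => ih (ha i h)
  have h1 : (Sum.inr (Sum.inr (Sum.inl 1)) : IX k q) ∈ S := by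
    obtain ⟨r, hr⟩ := hS
    rcases r with i | j | p
    · exact hh1 0 (h0 (hdown i hr))
    · exact hh1 j.castSucc (hV _ hr _ (Or.inl rfl))
    · exact hh1 (he β p) (hV _ hr _ rfl)
  have hk : (Sum.inl (Fin.last k) : IX k q) ∈ S := by
    refine hcl _ h1 _ ?_
    simp [matL, adjL]
  have hu : ∀ i : Fin (k + 1), (Sum.inl i : IX k q) ∈ S := by
    intro i
    induction i using Fin.reverseInduction with
    | last => exact hk
    | cast i ih => exact ha i ih
  have hv : ∀ i : Fin (k + 1), ∀ r' : IX k q, matL r' = Sum.inl i → r' ∈ S := by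
    intro i
    induction i using Fin.induction with
    | zero => exact h0 (hu 0)
    | succ i ih => exact hstep i ih
  apply Finset.eq_univ_of_forall
  intro r
  rcases r with i | j | p | j
  · exact hu i
  · exact hv j.castSucc _ rfl
  · by_cases hp : p = 0
    · subst hp
      exact hb (hu 0)
    · have hp1 : p = 1 := by omega
      subst hp1
      exact h1
  · exact hcl _ (hu (α j)) _ rfl

/-- Every edge of the family has an end of degree at most two. PROOF. There are no edges between
big vertices. T-rows and T-columns have exactly two neighbours; H-row `p` has the neighbours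
H-column `p` and `v_{he β p}`; H-column `p` has the neighbours H-row `p` and `u_{he α p}`.
(Same shape as `adj_small` in `H90Lower`.) -/
theorem adjL_small {k q : ℕ} (α β : Fin q → Fin (k + 1)) (r c : IX k q) (h : adjL α β r c) :
    (∃ c', ∀ c'', adjL α β r c'' → c'' = c ∨ c'' = c') ∨
    (∃ r', ∀ r'', adjL α β r'' c → r'' = r ∨ r'' = r') := by
  rcases r with i | j | p
  · right
    rcases c with i' | j | p
    · exact absurd h (by simp [adjL])
    · rcases h with h | h
      · refine ⟨Sum.inl j.succ, ?_⟩
        intro r'' hr
        rcases r'' with i'' | j'' | p''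
        · rcases hr with hr | hr
          · left; rw [hr, h]
          · right; rw [hr]
        · exact hr.elim
        · exact hr.elim
      · refine ⟨Sum.inl j.castSucc, ?_⟩
        intro r'' hr
        rcases r'' with i'' | j'' | p''
        · rcases hr with hr | hr
          · right; rw [hr]
          · left; rw [hr, h]
        · exact hr.elim
        · exact hr.elim
    · refine ⟨Sum.inr (Sum.inr p), ?_⟩
      intro r'' hr
      rcases r'' with i'' | j'' | p''
      · left
        simp only [adjL] at h hr
        rw [← h, ← hr]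
      · exact hr.elim
      · right
        simp only [adjL] at hr
        rw [hr]
  · left
    rcases c with i | j' | p'
    · rcases h with h | h
      · refine ⟨Sum.inl j.succ, ?_⟩
        intro c'' hc
        rcases c'' with i'' | c''
        · rcases hc with hc | hc
          · left; rw [hc, h]
          · right; rw [hc]
        · exact hc.elim
      · refine ⟨Sum.inl j.castSucc, ?_⟩
        intro c'' hc
        rcases c'' with i'' | c''
        · rcases hc with hc | hc
          · right; rw [hc]
          · left; rw [hc, h]
        · exact hc.elim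
    · exact h.elim
    · exact h.elim
  · left
    rcases c with i | j' | p'
    · refine ⟨Sum.inr (Sum.inr p), ?_⟩
      intro c'' hc
      rcases c'' with i'' | j'' | p''
      · left
        simp only [adjL] at h hc
        rw [← h, ← hc]
      · exact hc.elim
      · right
        simp only [adjL] at hc
        rw [hc]
    · exact h.elim
    · refine ⟨Sum.inl (he β p), ?_⟩
      intro c'' hc
      rcases c'' with i'' | j'' | p''
      · right
        simp only [adjL] at hc
        rw [hc]
      · exact hc.elim
      · left
        simp only [adjL] at h hc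
        rw [← h, ← hc]

/-- PROOF. `nd_of` of `H90Lower`, as in `famMat_nd` (rows and columns are renamed by `t.1`,
`t.2.1`). -/
theorem lmat_nd {k q n : ℕ} (hn : n = 2 * k + 3 + q) (t : LData k q n) :
    NearlyDecomposable (lmat t) := by
  apply nd_of (by omega)
  · intro S T hS hT hc
    obtain ⟨i, hi, j, hj, hij⟩ := adjL_fi hn t.2.2.1 t.2.2.2 (S.map t.1.symm.toEmbedding)
      (T.map t.2.1.symm.toEmbedding) (hS.map) (hT.map) (by simpa using hc)
    rw [Finset.mem_map] at hi hj
    obtain ⟨i', hi', rfl⟩ := hi
    obtain ⟨j', hj', rfl⟩ := hj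
    refine ⟨i', hi', j', hj', ?_⟩
    simpa [rel, lmat] using hij
  · intro i j hij
    have hij' : adjL t.2.2.1 t.2.2.2 (t.1.symm i) (t.2.1.symm j) := by simpa [lmat] using hij
    rcases adjL_small t.2.2.1 t.2.2.2 _ _ hij' with ⟨c', hc'⟩ | ⟨r', hr'⟩
    · left
      refine ⟨t.2.1 c', ?_⟩
      intro j'' hj''
      have : adjL t.2.2.1 t.2.2.2 (t.1.symm i) (t.2.1.symm j'') := by simpa [lmat] using hj''
      rcases hc' _ this with h | h
      · left; exact t.2.1.symm.injective h
      · right; rw [← h, Equiv.apply_symm_apply]
    · right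
      refine ⟨t.1 r', ?_⟩
      intro i'' hi''
      have : adjL t.2.2.1 t.2.2.2 (t.1.symm i'') (t.2.1.symm j) := by simpa [lmat] using hi''
      rcases hr' _ this with h | h
      · left; exact t.1.symm.injective h
      · right; rw [← h, Equiv.apply_symm_apply]

end SA

end MP_c02e9e_co
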