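import Pool.Agent.Lib.MP_c02e9e_co.SA.LCount

/-!
# The family with `k + 1` big rows and `l + 1` big columns: definitions

Rows: `k + 1` big rows (`inl i`), `l` interior rows of the path through the big columns
(`inr (inl j)`), `2 + q` H-rows (`inr (inr p)`). Columns: `l + 1` big columns, `k` interior columns of
the path through the big rows, `2 + q` H-columns.
-/

namespace MP_c02e9e_co

namespace SA

open Finset

open scoped Classical

/-- The index type of rows; the columns are indexed by `RX l k q`. -/
abbrev RX (k l q : ℕ) := Fin (k + 1) ⊕ (Fin l ⊕ (Fin 2 ⊕ Fin q))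

/-- The relation of the family. -/
def adjM {k l q : ℕ} (α : Fin q → Fin (k + 1)) (β : Fin q → Fin (l + 1)) :
    RX k l q → RX l k q → Prop
  | Sum.inl _, Sum.inl _ => False
  | Sum.inl i, Sum.inr (Sum.inl j) => i = j.castSucc ∨ i = j.succ
  | Sum.inl i, Sum.inr (Sum.inr p) => he α p = i
  | Sum.inr (Sum.inl j), Sum.inl i => i = j.castSucc ∨ i = j.succ
  | Sum.inr (Sum.inl _), Sum.inr _ => False
  | Sum.inr (Sum.inr p), Sum.inl i => he β p = i
  | Sum.inr (Sum.inr _), Sum.inr (Sum.inl _) => False
  | Sum.inr (Sum.inr p), Sum.inr (Sum.inr p') => p = p'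

/-- The data: labels of the rows and of the columns, ends of the free H-paths. -/
abbrev MData (k l q n : ℕ) := (RX k l q ≃ Fin n) × (RX l k q ≃ Fin n) × (Fin q → Fin (k + 1)) ×
  (Fin q → Fin (l + 1))

/-- The matrix of a datum. -/
noncomputable def mmat {k l q n : ℕ} (t : MData k l q n) : BMat n :=
  fun i j => decide (adjM t.2.2.1 t.2.2.2 (t.1.symm i) (t.2.1.symm j))

theorem mmat_apply {k l q n : ℕ} (t : MData k l q n) (a : RX k l q) (b : RX l k q) :
    mmat t (t.1 a) (t.2.1 b) = true ↔ adjM t.2.2.1 t.2.2.2 a b := by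
  simp [mmat]

/-- The extra information which, together with the matrix, determines the datum. -/
noncomputable def mextra {k l q n : ℕ} (t : MData k l q n) :
    (Fin q ↪ Fin n) × (Fin 2 → Fin n) × {U : Finset (Fin n) // U.card = k + 1} ×
      {W : Finset (Fin n) // W.card = l + 1} × Fin n × Fin n :=
  (⟨fun j => t.1 (Sum.inr (Sum.inr (Sum.inr j))), fun a b h => by simpa using h⟩,
   fun i => t.1 (Sum.inr (Sum.inr (Sum.inl i))),
   ⟨univ.map ((Function.Embedding.inl).trans t.1.toEmbedding), by simp⟩,
   ⟨univ.map ((Function.Embedding.inl).trans t.2.1.toEmbedding), by simp⟩,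
   t.1 (Sum.inl 0), t.2.1 (Sum.inl 0))

end SA

end MP_c02e9e_co
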