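import Pool.Agent.Lib.MP_c02e9e_co.SA.M2Defs

/-!
# The datum is determined by the matrix and the extra information
-/

namespace MP_c02e9e_co

namespace SA

open Finset

open scoped Classical

theorem mmat_extra_injective {k l q n : ℕ} :
    Function.Injective (fun t : MData k l q n => (mmat t, mextra t)) := by
  rintro ⟨eR, eC, α, β⟩ ⟨eR', eC', α', β'⟩ h
  simp only [Prod.mk.injEq] at h
  obtain ⟨hmat, hex⟩ := h
  -- the common matrix
  set M : BMat n := mmat (eR, eC, α, β) with hMdef
  have hM : ∀ a b, M (eR a) (eC b) = true ↔ adjM α β a b := fun a b =>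
    mmat_apply (eR, eC, α, β) a b
  have hM' : ∀ a b, M (eR' a) (eC' b) = true ↔ adjM α' β' a b := fun a b => by
    rw [hmat]
    exact mmat_apply (eR', eC', α', β') a b
  simp only [mextra, Prod.mk.injEq] at hex
  obtain ⟨h1, h2, h3, h4, h5, h6⟩ := hex
  have h1' : ∀ j, eR (Sum.inr (Sum.inr (Sum.inr j))) = eR' (Sum.inr (Sum.inr (Sum.inr j))) :=
    fun j => DFunLike.congr_fun h1 j
  have h2' : ∀ i, eR (Sum.inr (Sum.inr (Sum.inl i))) = eR' (Sum.inr (Sum.inr (Sum.inl i))) :=
    fun i => congrFun h2 i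
  have h3' : ∀ i, ∃ i', eR (Sum.inl i) = eR' (Sum.inl i') := by
    intro i
    have h7 := congrArg Subtype.val h3
    simp only at h7
    have h8 : eR (Sum.inl i) ∈ univ.map ((Function.Embedding.inl).trans eR.toEmbedding) :=
      Finset.mem_map.2 ⟨i, Finset.mem_univ _, rfl⟩
    rw [h7, Finset.mem_map] at h8
    obtain ⟨i', -, hi'⟩ := h8
    exact ⟨i', hi'.symm⟩
  have h3'' : ∀ i, ∃ i', eR' (Sum.inl i) = eR (Sum.inl i') := by
    intro i
    have h7 := congrArg Subtype.val h3
    simp only at h7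
    have h8 : eR' (Sum.inl i) ∈ univ.map ((Function.Embedding.inl).trans eR'.toEmbedding) :=
      Finset.mem_map.2 ⟨i, Finset.mem_univ _, rfl⟩
    rw [← h7, Finset.mem_map] at h8
    obtain ⟨i', -, hi'⟩ := h8
    exact ⟨i', hi'.symm⟩
  have h4' : ∀ i, ∃ i', eC (Sum.inl i) = eC' (Sum.inl i') := by
    intro i
    have h7 := congrArg Subtype.val h4
    simp only at h7
    have h8 : eC (Sum.inl i) ∈ univ.map ((Function.Embedding.inl).trans eC.toEmbedding) :=
      Finset.mem_map.2 ⟨i, Finset.mem_univ _, rfl⟩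
    rw [h7, Finset.mem_map] at h8
    obtain ⟨i', -, hi'⟩ := h8
    exact ⟨i', hi'.symm⟩
  have h4'' : ∀ i, ∃ i', eC' (Sum.inl i) = eC (Sum.inl i') := by
    intro i
    have h7 := congrArg Subtype.val h4
    simp only at h7
    have h8 : eC' (Sum.inl i) ∈ univ.map ((Function.Embedding.inl).trans eC'.toEmbedding) :=
      Finset.mem_map.2 ⟨i, Finset.mem_univ _, rfl⟩
    rw [← h7, Finset.mem_map] at h8
    obtain ⟨i', -, hi'⟩ := h8
    exact ⟨i', hi'.symm⟩
  -- H-rows
  have hHR : ∀ p, eR (Sum.inr (Sum.inr p)) = eR' (Sum.inr (Sum.inr p)) := by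
    rintro (i | j)
    · exact h2' i
    · exact h1' j
  -- H-columns
  have hHC : ∀ p, eC (Sum.inr (Sum.inr p)) = eC' (Sum.inr (Sum.inr p)) := by
    intro p
    obtain ⟨b, hb⟩ := eC'.surjective (eC (Sum.inr (Sum.inr p)))
    have h7 : M (eR (Sum.inr (Sum.inr p))) (eC (Sum.inr (Sum.inr p))) = true :=
      (hM _ _).2 rfl
    rw [hHR, ← hb, hM'] at h7
    rcases b with i | j | p'
    · obtain ⟨i', hi'⟩ := h4'' i
      rw [hi'] at hb
      exact absurd (eC.injective hb) (by simp)
    · exact absurd h7 (by simp [adjM])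
    · have h8 : p = p' := h7
      rw [← hb, h8]
  -- ends of the H-paths
  have hEC : ∀ p, eC (Sum.inl (he β p)) = eC' (Sum.inl (he β' p)) := by
    intro p
    obtain ⟨i, hi⟩ := h4' (he β p)
    have h7 : M (eR (Sum.inr (Sum.inr p))) (eC (Sum.inl (he β p))) = true :=
      (hM _ _).2 rfl
    rw [hHR, hi, hM'] at h7
    have h8 : he β' p = i := h7
    rw [hi, h8]
  have hER : ∀ p, eR (Sum.inl (he α p)) = eR' (Sum.inl (he α' p)) := by
    intro p
    obtain ⟨i, hi⟩ := h3' (he α p)
    have h7 : M (eR (Sum.inl (he α p))) (eC (Sum.inr (Sum.inr p))) = true :=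
      (hM _ _).2 rfl
    rw [hHC, hi, hM'] at h7
    have h8 : he α' p = i := h7
    rw [hi, h8]
  -- T-columns and T-rows
  have hTC : ∀ j, ∃ j', eC (Sum.inr (Sum.inl j)) = eC' (Sum.inr (Sum.inl j')) := by
    intro j
    obtain ⟨b, hb⟩ := eC'.surjective (eC (Sum.inr (Sum.inl j)))
    rcases b with i | j' | p'
    · obtain ⟨i', hi'⟩ := h4'' i
      rw [hi'] at hb
      exact absurd (eC.injective hb) (by simp)
    · exact ⟨j', hb.symm⟩
    · rw [← hHC] at hb
      exact absurd (eC.injective hb) (by simp)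
  have hTR : ∀ j, ∃ j', eR (Sum.inr (Sum.inl j)) = eR' (Sum.inr (Sum.inl j')) := by
    intro j
    obtain ⟨b, hb⟩ := eR'.surjective (eR (Sum.inr (Sum.inl j)))
    rcases b with i | j' | p'
    · obtain ⟨i', hi'⟩ := h3'' i
      rw [hi'] at hb
      exact absurd (eR.injective hb) (by simp)
    · exact ⟨j', hb.symm⟩
    · rw [← hHR] at hb
      exact absurd (eR.injective hb) (by simp)
  obtain ⟨k1, k2⟩ := path_decode (M := fun a b => M a b = true)
    (u := fun i => eR (Sum.inl i)) (u' := fun i => eR' (Sum.inl i))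
    (c := fun j => eC (Sum.inr (Sum.inl j))) (c' := fun j => eC' (Sum.inr (Sum.inl j)))
    (fun a b hab => by simpa using hab) (fun a b hab => by simpa using hab)
    (fun i j => hM _ _) (fun i j => hM' _ _) h3' hTC h5
  obtain ⟨k3, k4⟩ := path_decode (M := fun a b => M b a = true)
    (u := fun i => eC (Sum.inl i)) (u' := fun i => eC' (Sum.inl i))
    (c := fun j => eR (Sum.inr (Sum.inl j))) (c' := fun j => eR' (Sum.inr (Sum.inl j)))
    (fun a b hab => by simpa using hab) (fun a b hab => by simpa using hab)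
    (fun i j => hM _ _) (fun i j => hM' _ _) h4' hTR h6
  have hR : eR = eR' := by
    ext1 a
    rcases a with i | j | p
    · exact k1 i
    · exact k4 j
    · exact hHR p
  have hC : eC = eC' := by
    ext1 a
    rcases a with i | j | p
    · exact k3 i
    · exact k2 j
    · exact hHC p
  have hα : α = α' := by
    funext j
    have h7 := hER (Sum.inr j)
    rw [← hR] at h7
    have h8 := Sum.inl_injective (eR.injective h7)
    exact h8
  have hβ : β = β' := by
    funext j
    have h7 := hEC (Sum.inr j)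
    rw [← hC] at h7
    have h8 := Sum.inl_injective (eC.injective h7)
    exact h8
  rw [hR, hC, hα, hβ]

end SA

end MP_c02e9e_co
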