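import Pool.Agent.Lib.MP_c02e9e_co.SA.ThmA

/-!
# Theorem A for nearly decomposable matrices
-/

namespace MP_c02e9e_co

namespace SA

open Finset

open scoped Classical

/-- The addable pairs of big vertices of a matrix. -/
noncomputable def adds {n : ℕ} (A : BMat n) : Finset (Fin n × Fin n) :=
  univ.filter (fun p => 3 ≤ dR (rel A) p.1 ∧ 3 ≤ dC (rel A) p.2 ∧
    Add (rel A) (rel A) p.1 p.2)

/-- PROOF. `→`: `fi_of_nd`, `cut_of_nd` of `H90Upper` (`Cut` has `card` with equality).
`←`: not partly decomposable by `FIr`; `n = 1` is excluded; for an entry `(i,j)` with `A i j = true`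
take its cut `(S,T)`; `|S| + |T| = n` by `IsCut.card_eq`; after changing the entry to `false` the
rectangle is zero, so the new matrix is partly decomposable (compare `nd_of` in `H90Lower`). -/
theorem nd_iff {n : ℕ} (hn : 2 ≤ n) (A : BMat n) : NearlyDecomposable A ↔
    FIr n (rel A) ∧ ∀ u v, rel A u v → ∃ S T, IsCut n (rel A) u v S T := by
  constructor
  · intro h
    refine ⟨fir_iff_fi.2 (fi_of_nd hn h), fun u v huv => ?_⟩
    obtain ⟨S, T, hc⟩ := cut_of_nd hn h u v huv
    exact ⟨S, T, (isCut_iff_cut hn (fir_iff_fi.2 (fi_of_nd hn h)) (Fintype.card_fin n)).2 hc⟩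
  · rintro ⟨h1, h2⟩
    refine ⟨⟨?_, fun h => by omega⟩, ?_⟩
    · rintro ⟨S, T, hS, hT, hST, hz⟩
      obtain ⟨i, hi, j, hj, hij⟩ := h1 S T hS hT hST.ge
      rw [rel, hz i hi j hj] at hij
      exact absurd hij (by decide)
    · intro i j hij hfi
      apply hfi.1
      obtain ⟨S, T, hc⟩ := h2 i j hij
      refine ⟨S, T, ⟨i, hc.hu⟩, ⟨j, hc.hv⟩, hc.card_eq hn h1 (Fintype.card_fin n), ?_⟩
      intro a ha b hb
      by_cases hab : a = i ∧ b = j
      · exact if_pos hab
      · refine (if_neg hab).trans ?_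
        by_contra hne
        rw [Bool.not_eq_false] at hne
        exact hab (hc.only a ha b hb hne)

theorem good_of_nd {n : ℕ} (hn : 2 ≤ n) {A : BMat n} (hA : NearlyDecomposable A) :
    Good (rel A) (rel A) := by
  obtain ⟨h1, h2⟩ := (nd_iff hn A).1 hA
  refine ⟨?_, fun _ _ h => h, ?_⟩
  · rw [Fintype.card_fin]; exact h1
  · rw [Fintype.card_fin]; exact h2

/-- Number of ones and number of addable pairs of a nearly decomposable matrix. -/
theorem adds_bound {n d : ℕ} (hn : 2 ≤ n) {A : BMat n} (hA : NearlyDecomposable A)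
    (hd : nE (rel A) + d = 3 * n) : 4 * (adds A).card ≤ d ^ 2 := by
  obtain ⟨r, c, h1, h2, -, -⟩ := thmA (by rw [Fintype.card_fin]; exact hn) (good_of_nd hn hA)
  rw [Fintype.card_fin] at h1
  have h3 : (adds A).card = nE (Hp (rel A) (rel A)) := by
    unfold adds nE
    congr 1
    ext p
    simp only [Finset.mem_filter, Finset.mem_univ, true_and, Hp, richR, richC]
    constructor
    · rintro ⟨a, b, c⟩
      exact ⟨Or.inr a, Or.inr b, c⟩
    · rintro ⟨a, b, c⟩
      refine ⟨?_, ?_, c⟩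
      · rcases a with ⟨j, hj, hj'⟩ | a
        · exact absurd hj hj'
        · exact a
      · rcases b with ⟨j, hj, hj'⟩ | b
        · exact absurd hj hj'
        · exact b
  rw [h3]
  have h4 : r + c ≤ d := by omega
  calc 4 * nE (Hp (rel A) (rel A)) ≤ 4 * (r * c) := Nat.mul_le_mul_left 4 h2
    _ ≤ (r + c) ^ 2 := by
        zify
        nlinarith [sq_nonneg ((r:ℤ) - c)]
    _ ≤ d ^ 2 := Nat.pow_le_pow_left h4 2

theorem ones_lt {n : ℕ} (hn : 2 ≤ n) {A : BMat n} (hA : NearlyDecomposable A) :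
    nE (rel A) + 1 ≤ 3 * n := by
  obtain ⟨r, c, h1, -, -, -⟩ := thmA (by rw [Fintype.card_fin]; exact hn) (good_of_nd hn hA)
  rw [Fintype.card_fin] at h1
  omega

end SA

end MP_c02e9e_co
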