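import Pool.Agent.Lib.MP_c02e9e_co.SA.Base

/-!
# The module situation

`V = Z ⊕ U`; the relation `E` has full diagonal, is fully indecomposable, its restriction to `Z`
is fully indecomposable, and the only edge from a row in `Z` to a column in `U` is the marked
edge `(i0, j0)`.

`E1`, `F1` live on `Option U` (`Z` is contracted to `none`), `E0`, `F0` live on `Z`.
-/

namespace MP_c02e9e_co

namespace SA

open Finset

open scoped Classical

variable {Z U : Type}

/-- `Z` contracted to the point `none`, which gets an (unmarked) loop. -/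
def E1 (E : Z ⊕ U → Z ⊕ U → Prop) : Option U → Option U → Prop
  | none, none => True
  | none, some w => ∃ v, E (Sum.inl v) (Sum.inr w)
  | some w, none => ∃ v, E (Sum.inr w) (Sum.inl v)
  | some w, some w' => E (Sum.inr w) (Sum.inr w')

/-- The marked edges of the contraction. -/
def F1 (F : Z ⊕ U → Z ⊕ U → Prop) : Option U → Option U → Prop
  | none, none => False
  | none, some w => ∃ v, F (Sum.inl v) (Sum.inr w)
  | some w, none => ∃ v, F (Sum.inr w) (Sum.inl v)
  | some w, some w' => F (Sum.inr w) (Sum.inr w')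

/-- Entrance columns of `Z`: those with an edge in a row of `U`. -/
def Entr (E : Z ⊕ U → Z ⊕ U → Prop) (v : Z) : Prop := ∃ w, E (Sum.inr w) (Sum.inl v)

/-- The relation on `Z`: the restriction of `E` plus all pairs (exit row, entrance column). -/
def E0 (E : Z ⊕ U → Z ⊕ U → Prop) (i0 a b : Z) : Prop :=
  E (Sum.inl a) (Sum.inl b) ∨ (a = i0 ∧ Entr E b)

/-- The marked edges inside `Z`. -/
def F0 (F : Z ⊕ U → Z ⊕ U → Prop) (a b : Z) : Prop := F (Sum.inl a) (Sum.inl b)

variable [Fintype Z] [Fintype U]

/-- The module situation. -/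
structure Mod (E F : Z ⊕ U → Z ⊕ U → Prop) (i0 : Z) (j0 : U) : Prop where
  good : Good E F
  diag : ∀ x, E x x
  two : 2 ≤ Fintype.card Z
  fiZ : FIr (Fintype.card Z) (fun a b : Z => E (Sum.inl a) (Sum.inl b))
  deg : 3 ≤ dR E (Sum.inl i0)
  mark : F (Sum.inl i0) (Sum.inr j0)
  exit : ∀ a b, E (Sum.inl a) (Sum.inr b) → a = i0 ∧ b = j0

/-- The image of a set of rows (columns) under the contraction of `Z`: `none` belongs to it iff
all of `Z` belongs to the set. -/
noncomputable def con (S : Finset (Z ⊕ U)) : Finset (Option U) :=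
  univ.filter (fun o => match o with
    | none => ∀ z : Z, Sum.inl z ∈ S
    | some w => Sum.inr w ∈ S)

theorem mem_con_none {S : Finset (Z ⊕ U)} : none ∈ con S ↔ ∀ z : Z, Sum.inl z ∈ S := by
  simp [con]

theorem mem_con_some {S : Finset (Z ⊕ U)} {w : U} : some w ∈ con S ↔ Sum.inr w ∈ S := by
  simp [con]

/-- `|con S| ≥ |S ∩ U|`. -/
theorem card_con_ge (S : Finset (Z ⊕ U)) : S.toRight.card ≤ (con S).card := by
  have h : (S.toRight.map Function.Embedding.some) ⊆ con S := by
    intro o ho
    rw [Finset.mem_map] at ho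
    obtain ⟨w, hw, rfl⟩ := ho
    rw [Finset.mem_toRight] at hw
    exact mem_con_some.2 hw
  have := Finset.card_le_card h
  rwa [Finset.card_map] at this

/-- `|con S| ≥ |S ∩ U| + 1` if `Z ⊆ S`. -/
theorem card_con_ge' {S : Finset (Z ⊕ U)} (hS : ∀ z : Z, Sum.inl z ∈ S) :
    S.toRight.card + 1 ≤ (con S).card := by
  have h : insert none (S.toRight.map Function.Embedding.some) ⊆ con S := by
    intro o ho
    rw [Finset.mem_insert, Finset.mem_map] at ho
    rcases ho with rfl | ⟨w, hw, rfl⟩
    · exact mem_con_none.2 hS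
    · rw [Finset.mem_toRight] at hw
      exact mem_con_some.2 hw
  have := Finset.card_le_card h
  rwa [Finset.card_insert_of_notMem (by simp), Finset.card_map] at this

theorem card_toLeft_add (S : Finset (Z ⊕ U)) : S.toLeft.card + S.toRight.card = S.card :=
  Finset.card_toLeft_add_card_toRight

end SA

end MP_c02e9e_co
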