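import Pool.Agent.Lib.MP_c02e9e_co.SA.ModDefs

/-!
# The two pieces of the module situation are fully indecomposable; reachability
-/

namespace MP_c02e9e_co

namespace SA

open Finset

open scoped Classical

variable {Z U : Type} [Fintype Z] [Fintype U] {E F : Z ⊕ U → Z ⊕ U → Prop} {i0 : Z} {j0 : U}

/-- `j0` reaches every element of `U` inside `U`. -/
theorem Mod.reach (h : Mod E F i0 j0) {P : U → Prop} (h0 : P j0)
    (hcl : ∀ a b, P a → E (Sum.inr a) (Sum.inr b) → P b) (w : U) : P w := by
  have key := h.good.fi.closed_pred (P := fun x : Z ⊕ U => Sum.elim (fun _ => True) P x)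
    ⟨Sum.inl i0, trivial⟩ (by
      rintro (a | a) (b | b) ha hab
      · trivial
      · show P b
        rw [(h.exit a b hab).2]
        exact h0
      · trivial
      · exact hcl a b ha hab) (Sum.inr w)
  exact key

/-- Every `w : U` reaches inside `U` a row with an edge in `Z`. -/
theorem Mod.back (h : Mod E F i0 j0) (w : U) : ∃ v, Entr E v ∧ ∀ P : U → Prop,
    (∀ a, E (Sum.inr a) (Sum.inl v) → P a) →
    (∀ a b, P b → E (Sum.inr a) (Sum.inr b) → P a) → P w := by
  let R : U → Prop := Relation.ReflTransGen (fun a b : U => E (Sum.inr a) (Sum.inr b)) w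
  by_cases hex : ∃ b v, R b ∧ E (Sum.inr b) (Sum.inl v)
  · obtain ⟨b, v, hb, hbv⟩ := hex
    refine ⟨v, ⟨b, hbv⟩, ?_⟩
    intro P h1 h2
    have hPb : P b := h1 b hbv
    have hrec : ∀ c, Relation.ReflTransGen (fun a b : U => E (Sum.inr a) (Sum.inr b)) c b →
        P c := by
      intro c hc
      induction hc using Relation.ReflTransGen.head_induction_on with
      | refl => exact hPb
      | head hab _ ih => exact h2 _ _ ih hab
    exact hrec w hb
  · exfalso
    push Not at hex
    have key := h.good.fi.closed_pred (P := fun x : Z ⊕ U => Sum.elim (fun _ => False) R x)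
      ⟨Sum.inr w, Relation.ReflTransGen.refl⟩ (by
        rintro (a | a) (b | b) ha hab
        · exact ha
        · exact absurd ha (fun h => h)
        · exact hex a b ha hab
        · exact Relation.ReflTransGen.tail ha hab) (Sum.inl i0)
    exact key

/-- From `Mod.back` with `w = j0`. -/
theorem Mod.exists_entr (h : Mod E F i0 j0) : ∃ v, Entr E v := by
  obtain ⟨v, hv, -⟩ := h.back j0
  exact ⟨v, hv⟩

theorem Mod.fi1 (h : Mod E F i0 j0) : FIr (Fintype.card (Option U)) (E1 E) := by
  apply fir_of_closed
  · rintro (_ | w)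
    · trivial
    · exact h.diag (Sum.inr w)
  · intro S hS hcl
    have key := h.good.fi.closed_pred
      (P := fun x : Z ⊕ U => Sum.elim (fun _ => (none : Option U) ∈ S) (fun w => some w ∈ S) x)
      (by
        obtain ⟨o, ho⟩ := hS
        rcases o with _ | w
        · exact ⟨Sum.inl i0, ho⟩
        · exact ⟨Sum.inr w, ho⟩) (by
        rintro (a | a) (b | b) ha hab
        · exact ha
        · exact hcl none ha (some b) ⟨a, hab⟩
        · exact hcl (some a) ha none ⟨b, hab⟩
        · exact hcl (some a) ha (some b) hab)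
    apply Finset.eq_univ_of_forall
    rintro (_ | w)
    · exact key (Sum.inl i0)
    · exact key (Sum.inr w)

/-- `FIr.mono` of `h.fiZ`. -/
theorem Mod.fi0 (h : Mod E F i0 j0) : FIr (Fintype.card Z) (E0 E i0) :=
  h.fiZ.mono (fun _ _ hij => Or.inl hij)

end SA

end MP_c02e9e_co
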