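import Pool.Agent.Lib.MP_c02e9e_co.SA.Rich
import Pool.Agent.Lib.MP_c02e9e_co.SA.AddT
import Pool.Agent.Lib.MP_c02e9e_co.SA.CountB
import Pool.Agent.Lib.MP_c02e9e_co.SA.FCount

/-!
# The module lemma
-/

namespace MP_c02e9e_co

namespace SA

open Finset

open scoped Classical

variable {Z U : Type} [Fintype Z] [Fintype U] {E F : Z ⊕ U → Z ⊕ U → Prop} {i0 : Z} {j0 : U}

theorem Mod.bd (h : Mod E F i0 j0) (h1 : Bd (E1 E) (F1 F)) (h0 : Bd (E0 E i0) (F0 F)) :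
    Bd E F := by
  obtain ⟨r1, c1, a1, a2, a3, a4⟩ := h1
  obtain ⟨r0, c0, b1, b2, b3, b4⟩ := h0
  have hsome : ∀ (w : U) (S : Finset (Z ⊕ U)), some w ∈ con S → Sum.inr w ∈ S :=
    fun w S hS => mem_con_some.1 hS
  have hnone : ∀ (v : Z) (S : Finset (Z ⊕ U)), none ∈ con S → Sum.inl v ∈ S :=
    fun v S hS => mem_con_none.1 hS v
  have key := count_bound (H := Hp E F) (H1 := Hp (E1 E) (F1 F)) (H0 := Hp (E0 E i0) (F0 F))
    (i0 := i0)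
    (fun w w' hw => ⟨h.richR_U hw.1, h.richC_U hw.2.1, h.add1 (hsome w) (hsome w') hw.2.2⟩)
    (fun w v hw => ⟨⟨h.richR_U hw.1, h.richC_none, h.add1 (hsome w) (hnone v) hw.2.2⟩,
      ⟨h.richR_i0, h.richC_Z hw.2.1, h.add_UZ hw.2.2⟩⟩)
    (fun w => by
      obtain ⟨v', hv', hv⟩ := h.add_ZU w
      exact ⟨v', fun v hw => ⟨⟨h.richR_none, h.richC_U hw.2.1,
        h.add1 (hnone v) (hsome w) hw.2.2⟩, ⟨h.richR_Z hw.1, h.richC_entr hv', hv v hw.2.2⟩⟩⟩)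
    (fun a b hw => ⟨h.richR_Z hw.1, h.richC_Z hw.2.1, h.add_ZZ hw.2.2⟩)
    ⟨h.richR_none, h.richC_none, h.add_none⟩
    (by
      obtain ⟨v, hv⟩ := h.exists_entr
      exact ⟨v, h.richR_i0, h.richC_entr hv, h.add_entr hv⟩)
    a2 a3 a4 b2 b3 b4
  obtain ⟨k1, k2, k3, k4, k5, k6, k7⟩ := key
  have hF := h.nF_le
  refine ⟨r1 + r0 - 1, c1 + c0 - 1, ?_, k5, k6, k7⟩
  rw [Fintype.card_option] at a1
  rw [Fintype.card_sum]
  omega

end SA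

end MP_c02e9e_co
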