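import Pool.Agent.Lib.MP_c02e9e_co.SA.NRDefs

/-!
# Rectangles of the non-removable H-paths
-/

namespace MP_c02e9e_co

namespace SA

open Finset

open scoped Classical

variable {ρ γ : Type} [Fintype ρ] [Fintype γ]

theorem nonrem_rect {n : ℕ} {A : ρ → γ → Prop} (hA : FIr n A) {x : ρ} {y : γ} {u : ρ} {v : γ}
    (hp : HPath A x y u v) (hr : ¬ Rem n A x y) :
    ∃ (S : Finset ρ) (T : Finset γ), x ∉ S ∧ y ∉ T ∧ u ∈ S ∧ v ∈ T ∧ n ≤ S.card + T.card + 1 ∧
      ∀ i ∈ S, ∀ j ∈ T, ¬ A i j := by
  unfold Rem at hr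
  push Not at hr
  obtain ⟨S, T, hS, hT, hx, hy, hn, hz⟩ := hr
  refine ⟨S, T, hx, hy, ?_, ?_, hn, hz⟩
  · obtain ⟨i, hi, j, hj, hij⟩ := hA S (insert y T) hS ⟨y, Finset.mem_insert_self _ _⟩ (by
      rw [Finset.card_insert_of_notMem hy]; omega)
    rw [Finset.mem_insert] at hj
    rcases hj with rfl | hj
    · rcases hp.y2 i hij with rfl | rfl
      · exact absurd hi hx
      · exact hi
    · exact absurd hij (hz i hi j hj)
  · obtain ⟨i, hi, j, hj, hij⟩ := hA (insert x S) T ⟨x, Finset.mem_insert_self _ _⟩ hT (by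
      rw [Finset.card_insert_of_notMem hx]; omega)
    rw [Finset.mem_insert] at hi
    rcases hi with rfl | hi
    · rcases hp.x2 j hij with rfl | rfl
      · exact absurd hj hy
      · exact hj
    · exact absurd hij (hz i hi j hj)

theorem nonrem_no_edge {n : ℕ} {A : ρ → γ → Prop} (hA : FIr n A) {x : ρ} {y : γ} {u : ρ} {v : γ}
    (hp : HPath A x y u v) (hr : ¬ Rem n A x y) : ¬ A u v := by
  obtain ⟨S, T, -, -, hu, hv, -, hz⟩ := nonrem_rect hA hp hr
  exact hz u hu v hv

theorem nonrem_ends {n : ℕ} {A : ρ → γ → Prop} (hA : FIr n A) (hρ : Fintype.card ρ = n)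
    {x x' : ρ} {y y' : γ} {u : ρ} {v : γ}
    (hp : HPath A x y u v) (hp' : HPath A x' y' u v) (hu : 3 ≤ dR A u) (hv : 3 ≤ dC A v)
    (hr : ¬ Rem n A x y) : x = x' ∧ y = y' := by
  by_cases hxx : x = x'
  · subst hxx
    exact ⟨rfl, hp.y_unique hp' hv hv⟩
  exfalso
  obtain ⟨S, T, hx, hy, huS, hvT, hn, hz⟩ := nonrem_rect hA hp hr
  have hx' : x' ∉ S := fun h => hz x' h v hvT hp'.xv
  have hy' : y' ∉ T := fun h => hz u huS y' h hp'.uy
  have hx'2 : x ∉ insert x' S := by
    rw [Finset.mem_insert]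
    rintro (h | h)
    · exact hxx h
    · exact hx h
  have hT1 : 0 < T.card := Finset.card_pos.2 ⟨v, hvT⟩
  have hc1 : (insert x (insert x' S)).card = S.card + 2 := by
    rw [Finset.card_insert_of_notMem hx'2, Finset.card_insert_of_notMem hx']
  have hc2 : (T.erase v).card = T.card - 1 := Finset.card_erase_of_mem hvT
  have hzero : ∀ i ∈ insert x (insert x' S), ∀ j ∈ T.erase v, ¬ A i j := by
    intro i hi j hj hij
    rw [Finset.mem_erase] at hj
    rw [Finset.mem_insert, Finset.mem_insert] at hi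
    rcases hi with rfl | rfl | hi
    · rcases hp.x2 j hij with rfl | rfl
      · exact hy hj.2
      · exact hj.1 rfl
    · rcases hp'.x2 j hij with rfl | rfl
      · exact hy' hj.2
      · exact hj.1 rfl
    · exact hz i hi j hj.2 hij
  by_cases hTe : (T.erase v).Nonempty
  · obtain ⟨i, hi, j, hj, hij⟩ := hA (insert x (insert x' S)) (T.erase v)
      ⟨x, Finset.mem_insert_self _ _⟩ hTe (by omega)
    exact hzero i hi j hj hij
  · rw [Finset.not_nonempty_iff_eq_empty] at hTe
    rw [hTe, Finset.card_empty] at hc2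
    have hall : insert x (insert x' S) = univ := by
      rw [← Finset.card_eq_iff_eq_univ]
      apply le_antisymm (Finset.card_le_univ _)
      rw [hρ]
      omega
    have hsub : univ.filter (fun i => A i v) ⊆ {x, x'} := by
      intro i hi
      have hi' : i ∈ insert x (insert x' S) := by rw [hall]; exact Finset.mem_univ _
      rw [Finset.mem_insert, Finset.mem_insert] at hi'
      rw [Finset.mem_insert, Finset.mem_singleton]
      rcases hi' with h | h | h
      · exact Or.inl h
      · exact Or.inr h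
      · exact absurd (by simpa using hi) (hz i h v hvT)
    have hle := Finset.card_le_card hsub
    have h2 : ({x, x'} : Finset ρ).card ≤ 2 := Finset.card_le_two
    unfold dC at hv
    omega

end SA

end MP_c02e9e_co
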