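import Pool.Agent.Lib.MP_c02e9e_co.SA.NRDefs

/-!
# The contracted relation is fully indecomposable
-/

namespace MP_c02e9e_co

namespace SA

open Finset

open scoped Classical

variable {ρ γ : Type} [Fintype ρ] [Fintype γ]

theorem AS_fi {n : ℕ} {A : ρ → γ → Prop} (hA : FIr n A) (hρ : Fintype.card ρ = n) :
    FIr (n - (NR n A).card) (AS n A) := by
  intro S T hS hT hc
  by_contra hno
  push Not at hno
  let Q : ρ × γ → Prop := fun p => ∃ u v, HPath A p.1 p.2 u v ∧ ∃ t ∈ T, (t : CS n A).1 = v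
  set Pt := (NR n A).filter Q with hPt
  set Pn := (NR n A).filter (fun p => ¬ Q p) with hPn
  have hk : Pt.card + Pn.card = (NR n A).card := Finset.card_filter_add_card_filter_not _
  have hPtN : ∀ p ∈ Pt, p ∈ NR n A ∧ Q p := fun p hp => Finset.mem_filter.1 hp
  have hPnN : ∀ p ∈ Pn, p ∈ NR n A ∧ ¬ Q p := fun p hp => Finset.mem_filter.1 hp
  have hc1 : (S.map ⟨Subtype.val, Subtype.val_injective⟩ ∪ Pn.image Prod.fst).card =
      S.card + Pn.card := by
    rw [Finset.card_union_of_disjoint, Finset.card_map, Finset.card_image_of_injOn]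
    · intro p hp q hq h
      exact NR_fst_inj (hPnN p hp).1 (hPnN q hq).1 h
    · rw [Finset.disjoint_left]
      intro i hi hi'
      rw [Finset.mem_map] at hi
      rw [Finset.mem_image] at hi'
      obtain ⟨s, -, rfl⟩ := hi
      obtain ⟨p, hp, hps⟩ := hi'
      exact s.2 p (hPnN p hp).1 hps
  have hc2 : (T.map ⟨Subtype.val, Subtype.val_injective⟩ ∪ Pt.image Prod.snd).card =
      T.card + Pt.card := by
    rw [Finset.card_union_of_disjoint, Finset.card_map, Finset.card_image_of_injOn]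
    · intro p hp q hq h
      exact NR_snd_inj (hPtN p hp).1 (hPtN q hq).1 h
    · rw [Finset.disjoint_left]
      intro i hi hi'
      rw [Finset.mem_map] at hi
      rw [Finset.mem_image] at hi'
      obtain ⟨s, -, rfl⟩ := hi
      obtain ⟨p, hp, hps⟩ := hi'
      exact s.2 p (hPtN p hp).1 hps
  obtain ⟨i, hi, j, hj, hij⟩ := hA
    (S.map ⟨Subtype.val, Subtype.val_injective⟩ ∪ Pn.image Prod.fst)
    (T.map ⟨Subtype.val, Subtype.val_injective⟩ ∪ Pt.image Prod.snd)
    ((hS.map).mono Finset.subset_union_left) ((hT.map).mono Finset.subset_union_left) (by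
      rw [hc1, hc2]; omega)
  rw [Finset.mem_union, Finset.mem_map, Finset.mem_image] at hi hj
  rcases hi with ⟨s, hs, rfl⟩ | ⟨p, hp, rfl⟩
  · rcases hj with ⟨t, ht, rfl⟩ | ⟨q, hq, rfl⟩
    · exact hno s hs t ht (Or.inl hij)
    · obtain ⟨hqN, u, v, hpath, t, ht, rfl⟩ := hPtN q hq
      rcases hpath.y2 _ hij with h | h
      · exact s.2 q hqN h.symm
      · apply hno s hs t ht
        refine Or.inr ⟨q, hqN, ?_⟩
        have h' : (s : ρ) = u := h
        rw [h']
        exact hpath
  · obtain ⟨hpN, hpQ⟩ := hPnN p hp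
    obtain ⟨⟨u, v, hpath, hu, hv⟩, -⟩ := mem_NR.1 hpN
    rcases hj with ⟨t, ht, rfl⟩ | ⟨q, hq, rfl⟩
    · rcases hpath.x2 _ hij with h | h
      · exact t.2 p hpN h.symm
      · exact hpQ ⟨u, v, hpath, t, ht, h⟩
    · obtain ⟨hqN, hqQ⟩ := hPtN q hq
      rcases hpath.x2 _ hij with h | h
      · have := NR_snd_inj hqN hpN h
        rw [this] at hqQ
        exact hpQ hqQ
      · exact col_mem hv q hqN h

end SA

end MP_c02e9e_co
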