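import Pool.Agent.Lib.MP_c02e9e_co.SA.NR1

/-!
# Every edge of the contracted relation has a cut
-/

namespace MP_c02e9e_co

namespace SA

open Finset

open scoped Classical

variable {ρ γ : Type} [Fintype ρ] [Fintype γ]

/-- The general transfer. `S × T` is a rectangle of size at least `n - c` (`c = 0` or `1`) in `A`;
`P ⊆ NR n A` is the set of paths to be considered (all, or all but one), none of the edges
`(p.1, p.2)`, `(p.1, v)`, `(u, p.2)` of `p ∈ P` lies in `S × T`; the paths `p ∈ NR n A \ P` are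
disjoint from the rectangle (`p.1 ∉ S`, `p.2 ∉ T`) and their number is `c`. `(a,b)` is a pair
with `a ∈ S`, `b ∈ T`, and no path of `P` has the ends `(a,b)`; all edges of `A` in
`S × T` with row in `RS` and column in `CS` are equal to `(a,b)`. Paths outside `P` have the ends
`(a,b)`. Then `(a,b)` has a cut in `AS n A`.
PROOF. Call `p ∈ P` bad if its ends satisfy `u ∈ S`, `v ∈ T`; then `p.1 ∉ S` and `p.2 ∉ T`. For the
other `p ∈ P` at most one of `p.1 ∈ S`, `p.2 ∈ T` holds. So
`|S ∩ RS| + |T ∩ CS| ≥ |S| + |T| - (|P| - #bad) ≥ n - c - |P| + #bad ≥ n - |NR n A| + #bad`.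
Remove from `S ∩ RS` the ends `u ≠ a` of the bad paths, and from `T ∩ CS` the ends `v` of the bad
paths with `u = a` (those `v` are `≠ b`). At most `#bad` elements are removed, `a` and `b` stay,
and the resulting rectangle has no edge of `AS` except possibly `(a,b)`: edges of `A` by
hypothesis; an edge `(u,v)` coming from `p ∈ P` in the rectangle makes `p` bad, and then `u` or `v` was
removed; an edge coming from `p ∉ P` is `(a,b)`.
Formally: `S' = {s : RS | s.1 ∈ S ∧ (s.1 = a ∨ no bad p has row end s.1)}`,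
`T' = {t : CS | t.1 ∈ T ∧ (no bad p has row end a and column end t.1)}`. -/
theorem AS_cut_aux {n c : ℕ} {A : ρ → γ → Prop} (hρ : Fintype.card ρ = n)
    (hγ : Fintype.card γ = n) {S : Finset ρ} {T : Finset γ} (hsize : n ≤ S.card + T.card + c)
    {P : Finset (ρ × γ)} (hP : P ⊆ NR n A)
    (hPe : ∀ p ∈ P, ∀ u v, HPath A p.1 p.2 u v →
      ¬ (p.1 ∈ S ∧ p.2 ∈ T) ∧ ¬ (p.1 ∈ S ∧ v ∈ T) ∧ ¬ (u ∈ S ∧ p.2 ∈ T))
    (hQ : ∀ p ∈ NR n A, p ∉ P → p.1 ∉ S ∧ p.2 ∉ T) (hcP : (NR n A).card = P.card + c)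
    {a : RS n A} {b : CS n A} (ha : a.1 ∈ S) (hb : b.1 ∈ T)
    (hab : ∀ p ∈ P, ¬ HPath A p.1 p.2 a.1 b.1)
    (honly : ∀ (s : RS n A) (t : CS n A), s.1 ∈ S → t.1 ∈ T → A s.1 t.1 → s = a ∧ t = b)
    (hQe : ∀ p ∈ NR n A, p ∉ P → ∀ u v, HPath A p.1 p.2 u v → u = a.1 ∧ v = b.1) :
    ∃ S' T', IsCut (n - (NR n A).card) (AS n A) a b S' T' := by
  haveI : Nonempty ρ := ⟨a.1⟩
  haveI : Nonempty γ := ⟨b.1⟩
  have hex : ∀ p ∈ P, ∃ u v, HPath A p.1 p.2 u v := by
    intro p hp
    obtain ⟨⟨u, v, h, -, -⟩, -⟩ := mem_NR.1 (hP hp)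
    exact ⟨u, v, h⟩
  choose! u v huv using hex
  set P1 := P.filter (fun p => p.1 ∈ S) with hP1
  set P2 := P.filter (fun p => p.2 ∈ T) with hP2
  set P3 := P.filter (fun p => u p ∈ S ∧ v p ∈ T ∧ u p ≠ a.1) with hP3
  set P4 := P.filter (fun p => u p ∈ S ∧ v p ∈ T ∧ u p = a.1) with hP4
  have hcard : P1.card + P2.card + P3.card + P4.card ≤ P.card := by
    rw [hP1, hP2, hP3, hP4, Finset.card_filter, Finset.card_filter, Finset.card_filter,
      Finset.card_filter, ← Finset.sum_add_distrib, ← Finset.sum_add_distrib,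
      ← Finset.sum_add_distrib, Finset.card_eq_sum_ones]
    refine Finset.sum_le_sum (fun p hp => ?_)
    obtain ⟨h1, h2, h3⟩ := hPe p hp _ _ (huv p hp)
    by_cases e1 : p.1 ∈ S
    · have e2 : p.2 ∉ T := fun h => h1 ⟨e1, h⟩
      have e3 : v p ∉ T := fun h => h2 ⟨e1, h⟩
      rw [if_pos e1, if_neg e2, if_neg (fun h => e3 h.2.1), if_neg (fun h => e3 h.2.1)]
    · by_cases e2 : p.2 ∈ T
      · have e3 : u p ∉ S := fun h => h3 ⟨h, e2⟩
        rw [if_neg e1, if_pos e2, if_neg (fun h => e3 h.1), if_neg (fun h => e3 h.1)]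
      · rw [if_neg e1, if_neg e2]
        by_cases e3 : u p = a.1
        · rw [if_neg (fun h => h.2.2 e3)]
          split_ifs <;> omega
        · rw [if_neg (show ¬ (u p ∈ S ∧ v p ∈ T ∧ u p = a.1) from fun h => e3 h.2.2)]
          split_ifs <;> omega
  set S' : Finset (RS n A) := univ.filter (fun s : RS n A => s.1 ∈ S ∧
    (s = a ∨ ∀ p ∈ P, ¬ ∃ w, HPath A p.1 p.2 s.1 w ∧ w ∈ T)) with hS'
  set T' : Finset (CS n A) := univ.filter (fun t : CS n A => t.1 ∈ T ∧
    ∀ p ∈ P, ¬ HPath A p.1 p.2 a.1 t.1) with hT'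
  have hSs : S ⊆ S'.image Subtype.val ∪ P1.image Prod.fst ∪ P3.image u := by
    intro s hs
    by_cases h1 : ∀ p ∈ NR n A, p.1 ≠ s
    · by_cases h2 : s = a.1
      · refine Finset.mem_union_left _ (Finset.mem_union_left _ (Finset.mem_image.2 ⟨a, ?_, h2.symm⟩))
        rw [hS', Finset.mem_filter]
        exact ⟨Finset.mem_univ _, ha, Or.inl rfl⟩
      · by_cases h3 : ∀ p ∈ P, ¬ ∃ w, HPath A p.1 p.2 s w ∧ w ∈ T
        · refine Finset.mem_union_left _ (Finset.mem_union_left _
            (Finset.mem_image.2 ⟨⟨s, h1⟩, ?_, rfl⟩))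
          rw [hS', Finset.mem_filter]
          exact ⟨Finset.mem_univ _, hs, Or.inr h3⟩
        · push Not at h3
          obtain ⟨p, hp, w, hw, hwT⟩ := h3
          have e1 : u p = s := (huv p hp).u_unique hw
          have e2 : v p = w := (huv p hp).v_unique hw
          refine Finset.mem_union_right _ (Finset.mem_image.2 ⟨p, ?_, e1⟩)
          rw [hP3, Finset.mem_filter]
          exact ⟨hp, by rw [e1]; exact hs, by rw [e2]; exact hwT, by rw [e1]; exact h2⟩
    · push Not at h1
      obtain ⟨p, hp, hps⟩ := h1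
      have hpP : p ∈ P := by
        by_contra hcon
        exact (hQ p hp hcon).1 (by rw [hps]; exact hs)
      refine Finset.mem_union_left _ (Finset.mem_union_right _
        (Finset.mem_image.2 ⟨p, ?_, hps⟩))
      rw [hP1, Finset.mem_filter]
      exact ⟨hpP, by rw [hps]; exact hs⟩
  have hTs : T ⊆ T'.image Subtype.val ∪ P2.image Prod.snd ∪ P4.image v := by
    intro t ht
    by_cases h1 : ∀ p ∈ NR n A, p.2 ≠ t
    · by_cases h3 : ∀ p ∈ P, ¬ HPath A p.1 p.2 a.1 t
      · refine Finset.mem_union_left _ (Finset.mem_union_left _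
          (Finset.mem_image.2 ⟨⟨t, h1⟩, ?_, rfl⟩))
        rw [hT', Finset.mem_filter]
        exact ⟨Finset.mem_univ _, ht, h3⟩
      · push Not at h3
        obtain ⟨p, hp, hw⟩ := h3
        have e1 : u p = a.1 := (huv p hp).u_unique hw
        have e2 : v p = t := (huv p hp).v_unique hw
        refine Finset.mem_union_right _ (Finset.mem_image.2 ⟨p, ?_, e2⟩)
        rw [hP4, Finset.mem_filter]
        exact ⟨hp, by rw [e1]; exact ha, by rw [e2]; exact ht, e1⟩
    · push Not at h1
      obtain ⟨p, hp, hps⟩ := h1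
      have hpP : p ∈ P := by
        by_contra hcon
        exact (hQ p hp hcon).2 (by rw [hps]; exact ht)
      refine Finset.mem_union_left _ (Finset.mem_union_right _
        (Finset.mem_image.2 ⟨p, ?_, hps⟩))
      rw [hP2, Finset.mem_filter]
      exact ⟨hpP, by rw [hps]; exact ht⟩
  have cS : S.card ≤ S'.card + P1.card + P3.card := by
    refine le_trans (Finset.card_le_card hSs) (le_trans (Finset.card_union_le _ _) ?_)
    have := Finset.card_union_le (S'.image Subtype.val) (P1.image Prod.fst)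
    have i1 : (S'.image Subtype.val).card ≤ S'.card := Finset.card_image_le
    have i2 : (P1.image Prod.fst).card ≤ P1.card := Finset.card_image_le
    have i3 : (P3.image u).card ≤ P3.card := Finset.card_image_le
    omega
  have cT : T.card ≤ T'.card + P2.card + P4.card := by
    refine le_trans (Finset.card_le_card hTs) (le_trans (Finset.card_union_le _ _) ?_)
    have := Finset.card_union_le (T'.image Subtype.val) (P2.image Prod.snd)
    have i1 : (T'.image Subtype.val).card ≤ T'.card := Finset.card_image_le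
    have i2 : (P2.image Prod.snd).card ≤ P2.card := Finset.card_image_le
    have i3 : (P4.image v).card ≤ P4.card := Finset.card_image_le
    omega
  refine ⟨S', T', ?_, ?_, by omega, ?_⟩
  · rw [hS', Finset.mem_filter]
    exact ⟨Finset.mem_univ _, ha, Or.inl rfl⟩
  · rw [hT', Finset.mem_filter]
    exact ⟨Finset.mem_univ _, hb, hab⟩
  · intro i hi j hj hij
    rw [hS', Finset.mem_filter] at hi
    rw [hT', Finset.mem_filter] at hj
    rcases hij with h | ⟨p, hp, h⟩
    · exact honly i j hi.2.1 hj.2.1 h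
    · by_cases hpP : p ∈ P
      · exfalso
        rcases hi.2.2 with h2 | h2
        · rw [h2] at h
          exact hj.2.2 p hpP h
        · exact h2 p hpP ⟨j.1, h, hj.2.1⟩
      · obtain ⟨e1, e2⟩ := hQe p hp hpP _ _ h
        exact ⟨Subtype.ext e1, Subtype.ext e2⟩

/-- PROOF. Let `(a,b)` be an edge of `AS n A`.
(1) `A a b`: take a cut `(S,T)` of it in `A`, `P = NR n A`, `c = 0`. The edges of the path `p`
do not lie in `S × T`, since they are different from `(a,b)` (`a` is not `p.1`, `b` is not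
`p.2`). No path of `NR` has ends `(a,b)` by `nonrem_no_edge`.
(2) `(a,b)` comes from `p0 ∈ NR n A`: take `(S,T)` from `nonrem_rect`, `P = (NR n A).erase p0`,
`c = 1`; there are no edges of `A` in `S × T`; the paths `p ∈ P` do not have ends `(a,b)` by
`nonrem_ends`. -/
theorem AS_cut {n : ℕ} {A : ρ → γ → Prop} (hA : FIr n A) (hρ : Fintype.card ρ = n)
    (hγ : Fintype.card γ = n) (hcut : ∀ u v, A u v → ∃ S T, IsCut n A u v S T)
    (a : RS n A) (b : CS n A) (hab : AS n A a b) :
    ∃ S' T', IsCut (n - (NR n A).card) (AS n A) a b S' T' := by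
  rcases hab with h | ⟨p0, hp0, h⟩
  · obtain ⟨S, T, hc⟩ := hcut _ _ h
    refine AS_cut_aux (c := 0) hρ hγ (S := S) (T := T) (by have := hc.card; omega)
      (P := NR n A) (Finset.Subset.refl _) ?_ (fun p hp hn => absurd hp hn) rfl hc.hu hc.hv ?_ ?_
      (fun p hp hn => absurd hp hn)
    · intro p hp u v hpath
      refine ⟨fun e => ?_, fun e => ?_, fun e => ?_⟩
      · exact a.2 p hp (hc.only _ e.1 _ e.2 hpath.xy).1
      · exact a.2 p hp (hc.only _ e.1 _ e.2 hpath.xv).1
      · exact b.2 p hp (hc.only _ e.1 _ e.2 hpath.uy).2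
    · intro p hp hpath
      exact nonrem_no_edge hA hpath (mem_NR.1 hp).2 h
    · intro s t hs ht hst
      obtain ⟨e1, e2⟩ := hc.only _ hs _ ht hst
      exact ⟨Subtype.ext e1, Subtype.ext e2⟩
  · obtain ⟨⟨u0, v0, h0, hu0, hv0⟩, hr0⟩ := mem_NR.1 hp0
    have eu : u0 = a.1 := h0.u_unique h
    have ev : v0 = b.1 := h0.v_unique h
    rw [eu] at hu0
    rw [ev] at hv0
    obtain ⟨S, T, hx, hy, hS, hT, hc, hno⟩ := nonrem_rect hA h hr0
    have hmem : ∀ p ∈ NR n A, p ∉ (NR n A).erase p0 → p = p0 := by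
      intro p hp hn
      by_contra hne
      exact hn (Finset.mem_erase.2 ⟨hne, hp⟩)
    refine AS_cut_aux (c := 1) hρ hγ (S := S) (T := T) hc
      (P := (NR n A).erase p0) (Finset.erase_subset _ _) ?_ ?_ ?_ hS hT ?_ ?_ ?_
    · intro p hp u v hpath
      exact ⟨fun e => hno _ e.1 _ e.2 hpath.xy, fun e => hno _ e.1 _ e.2 hpath.xv,
        fun e => hno _ e.1 _ e.2 hpath.uy⟩
    · intro p hp hn
      rw [hmem p hp hn]
      exact ⟨hx, hy⟩
    · rw [Finset.card_erase_of_mem hp0]
      have : 0 < (NR n A).card := Finset.card_pos.2 ⟨p0, hp0⟩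
      omega
    · intro p hp hpath
      rw [Finset.mem_erase] at hp
      obtain ⟨e1, e2⟩ := nonrem_ends hA hρ hpath h hu0 hv0 (mem_NR.1 hp.2).2
      exact hp.1 (Prod.ext e1 e2)
    · intro s t hs ht hst
      exact absurd hst (hno _ hs _ ht)
    · intro p hp hn u v hpath
      rw [hmem p hp hn] at hpath
      exact ⟨hpath.u_unique h, hpath.v_unique h⟩

end SA

end MP_c02e9e_co
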