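import Pool.Agent.Lib.MP_c02e9e_co.SA.NR1
import Pool.Agent.Lib.MP_c02e9e_co.SA.NR2
import Pool.Agent.Lib.MP_c02e9e_co.SA.NR3
import Pool.Agent.Lib.MP_c02e9e_co.SA.HCount

/-!
# There are at most `d` non-removable H-paths with big ends
-/

namespace MP_c02e9e_co

namespace SA

open Finset

open scoped Classical

variable {ρ γ : Type} [Fintype ρ] [Fintype γ]

/-- PROOF. Injection of the edges `(i,j)` of `A` into (edges of `AS n A`) ⊕ (`NR n A`) ⊕ (`NR n A`):
if `i` is the row of `p ∈ NR` and `j` its column, `(i,j) ↦` `p` in the first copy; if `i = p.1` and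
`j ≠ p.2` (then `j = v`) `↦ p` in the second copy; if `j = p.2`, `i ≠ p.1` (then `i = u`, and
`(u,v)` is an edge of `AS`) `↦ (u,v)`; otherwise `i`, `j` remain and `(i,j) ↦ (i,j)`. It is
injective: a value `(u,v)` of the third kind is not an edge of `A` (`nonrem_no_edge`), and it
determines `p` (`nonrem_ends`). -/
theorem nE_AS {n : ℕ} {A : ρ → γ → Prop} (hA : FIr n A) (hρ : Fintype.card ρ = n) :
    nE A ≤ nE (AS n A) + 2 * (NR n A).card := by
  -- the old edges between remaining rows and columns, and the new edges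
  set E0 : Finset (RS n A × CS n A) := univ.filter (fun q => A q.1.1 q.2.1) with hE0
  set N0 : Finset (RS n A × CS n A) :=
    univ.filter (fun q => ∃ p ∈ NR n A, HPath A p.1 p.2 q.1.1 q.2.1) with hN0
  have hdis : Disjoint E0 N0 := by
    rw [Finset.disjoint_left]
    intro q hq hq'
    rw [hE0, Finset.mem_filter] at hq
    rw [hN0, Finset.mem_filter] at hq'
    obtain ⟨p, hp, hpath⟩ := hq'.2
    exact nonrem_no_edge hA hpath (mem_NR.1 hp).2 hq.2
  have hAS : nE (AS n A) = E0.card + N0.card := by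
    rw [← Finset.card_union_of_disjoint hdis]
    unfold nE
    congr 1
    ext q
    rw [Finset.mem_union, hE0, hN0, Finset.mem_filter, Finset.mem_filter, Finset.mem_filter]
    constructor
    · rintro ⟨-, h | h⟩
      · exact Or.inl ⟨Finset.mem_univ _, h⟩
      · exact Or.inr ⟨Finset.mem_univ _, h⟩
    · rintro (⟨-, h⟩ | ⟨-, h⟩)
      · exact ⟨Finset.mem_univ _, Or.inl h⟩
      · exact ⟨Finset.mem_univ _, Or.inr h⟩
  have hN : (NR n A).card ≤ N0.card := by
    apply Finset.card_le_card_of_forall_subsingleton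
      (fun (p : ρ × γ) (q : RS n A × CS n A) => HPath A p.1 p.2 q.1.1 q.2.1)
    · intro p hp
      obtain ⟨⟨u, v, h1, h2, h3⟩, -⟩ := mem_NR.1 hp
      refine ⟨(⟨u, row_mem h2⟩, ⟨v, col_mem h3⟩), ?_, h1⟩
      rw [hN0, Finset.mem_filter]
      exact ⟨Finset.mem_univ _, p, hp, h1⟩
    · intro q _ p hp p' hp'
      obtain ⟨hp1, hp2⟩ := hp
      obtain ⟨hp1', hp2'⟩ := hp'
      obtain ⟨⟨u, v, h1, h2, h3⟩, hr⟩ := mem_NR.1 hp1
      have hu : 3 ≤ dR A q.1.1 := by
        rw [← h1.u_unique hp2]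
        exact h2
      have hv : 3 ≤ dC A q.2.1 := by
        rw [← h1.v_unique hp2]
        exact h3
      obtain ⟨e1, e2⟩ := nonrem_ends hA hρ hp2 hp2' hu hv hr
      exact Prod.ext e1 e2
  -- the edges touching a path
  let f : ρ × γ → Finset (ρ × γ) := fun p =>
    univ.filter (fun e : ρ × γ => A e.1 e.2 ∧ (p.1 = e.1 ∨ p.2 = e.2))
  have hf : ∀ p ∈ NR n A, (f p).card ≤ 3 := by
    intro p hp
    obtain ⟨⟨u, v, h1, h2, h3⟩, hr⟩ := mem_NR.1 hp
    have hsub : f p ⊆ {(p.1, p.2), (p.1, v), (u, p.2)} := by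
      rintro ⟨i, j⟩ he
      simp only [f, Finset.mem_filter, Finset.mem_univ, true_and] at he
      simp only [Finset.mem_insert, Finset.mem_singleton, Prod.mk.injEq]
      obtain ⟨hij, h | h⟩ := he
      · subst h
        rcases h1.x2 j hij with h | h
        · exact Or.inl ⟨rfl, h⟩
        · exact Or.inr (Or.inl ⟨rfl, h⟩)
      · subst h
        rcases h1.y2 i hij with h | h
        · exact Or.inl ⟨h, rfl⟩
        · exact Or.inr (Or.inr ⟨h, rfl⟩)
    exact (Finset.card_le_card hsub).trans Finset.card_le_three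
  have hcover : univ.filter (fun e : ρ × γ => A e.1 e.2) ⊆
      E0.image (fun q => (q.1.1, q.2.1)) ∪ (NR n A).biUnion f := by
    rintro ⟨i, j⟩ he
    have hij : A i j := by simpa using he
    rw [Finset.mem_union]
    by_cases hi : ∀ p ∈ NR n A, p.1 ≠ i
    · by_cases hj : ∀ p ∈ NR n A, p.2 ≠ j
      · left
        rw [Finset.mem_image]
        refine ⟨(⟨i, hi⟩, ⟨j, hj⟩), ?_, rfl⟩
        rw [hE0, Finset.mem_filter]
        exact ⟨Finset.mem_univ _, hij⟩
      · right
        push Not at hj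
        obtain ⟨p, hp, h⟩ := hj
        rw [Finset.mem_biUnion]
        refine ⟨p, hp, ?_⟩
        simp only [f, Finset.mem_filter, Finset.mem_univ, true_and]
        exact ⟨hij, Or.inr h⟩
    · right
      push Not at hi
      obtain ⟨p, hp, h⟩ := hi
      rw [Finset.mem_biUnion]
      refine ⟨p, hp, ?_⟩
      simp only [f, Finset.mem_filter, Finset.mem_univ, true_and]
      exact ⟨hij, Or.inl h⟩
  have h1 : nE A ≤ E0.card + (NR n A).card * 3 := by
    unfold nE
    refine (Finset.card_le_card hcover).trans ((Finset.card_union_le _ _).trans ?_)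
    exact Nat.add_le_add Finset.card_image_le (Finset.card_biUnion_le_card_mul _ _ _ hf)
  omega

/-- PROOF. If `NR n A` is empty this is `hn`. Otherwise let `p ∈ NR n A` with ends `u, v`, they
remain (`row_mem`, `col_mem`), so `1 ≤ n - k`, `k = |NR n A|`. If `n - k = 1` then all paths of
`NR n A` have the same ends (`RS`, `CS` have one element), so `k = 1` by `nonrem_ends`, `n = 2`; but
`3 ≤ dR A u ≤ n`. -/
theorem two_le_AS {n : ℕ} (hn : 2 ≤ n) {A : ρ → γ → Prop} (hA : FIr n A)
    (hρ : Fintype.card ρ = n) (hγ : Fintype.card γ = n) : 2 ≤ n - (NR n A).card := by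
  rcases Finset.eq_empty_or_nonempty (NR n A) with h0 | ⟨p, hp⟩
  · rw [h0, Finset.card_empty]
    omega
  obtain ⟨⟨u, v, h1, h2, h3⟩, hr⟩ := mem_NR.1 hp
  have hR := card_RS (n := n) (A := A)
  have hC := card_CS (n := n) (A := A)
  rw [hρ] at hR
  rw [hγ] at hC
  have hR1 : 0 < Fintype.card (RS n A) := Fintype.card_pos_iff.2 ⟨⟨u, row_mem h2⟩⟩
  by_contra hlt
  push Not at hlt
  have hRc : Fintype.card (RS n A) ≤ 1 := by omega
  have hCc : Fintype.card (CS n A) ≤ 1 := by omega
  have hk : (NR n A).card ≤ 1 := by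
    rw [Finset.card_le_one]
    intro q hq q' hq'
    obtain ⟨⟨a, b, g1, g2, g3⟩, gr⟩ := mem_NR.1 hq
    obtain ⟨⟨a', b', g1', g2', g3'⟩, gr'⟩ := mem_NR.1 hq'
    have ea : (⟨a, row_mem g2⟩ : RS n A) = ⟨a', row_mem g2'⟩ :=
      Fintype.card_le_one_iff.1 hRc _ _
    have eb : (⟨b, col_mem g3⟩ : CS n A) = ⟨b', col_mem g3'⟩ :=
      Fintype.card_le_one_iff.1 hCc _ _
    have ea' : a = a' := congrArg Subtype.val ea
    have eb' : b = b' := congrArg Subtype.val eb
    subst ea'
    subst eb'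
    obtain ⟨e1, e2⟩ := nonrem_ends hA hρ g1 g1' g2 g3 gr
    exact Prod.ext e1 e2
  have hdn : dR A u ≤ n := by
    rw [← hγ]
    exact Finset.card_le_univ _
  omega

theorem nonrem_le {n d : ℕ} (hn : 2 ≤ n) {A : ρ → γ → Prop} (hA : FIr n A)
    (hρ : Fintype.card ρ = n) (hγ : Fintype.card γ = n)
    (hcut : ∀ u v, A u v → ∃ S T, IsCut n A u v S T) (hd : nE A + d = 3 * n) :
    (NR n A).card ≤ d := by
  have h1 := nE_AS hA hρ
  have h2 := two_le_AS hn hA hρ hγ
  have h3 := nE_le_three h2 (AS_fi hA hρ) (by have := card_RS (n := n) (A := A); omega)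
    (by have := card_CS (n := n) (A := A); omega) (AS_cut hA hρ hγ hcut)
  omega

/-- The number of removable H-paths whose ends have degree at least four. -/
theorem rem_count {n d : ℕ} (hn : 2 ≤ n) {A : ρ → γ → Prop} (hA : FIr n A)
    (hρ : Fintype.card ρ = n) (hγ : Fintype.card γ = n)
    (hcut : ∀ u v, A u v → ∃ S T, IsCut n A u v S T) (hd : nE A + d = 3 * n) :
    n ≤ ((HP A 4).filter (fun p => Rem n A p.1 p.2)).card + 8 * d := by
  have h1 := hp_count hn hA hρ hγ hcut hd
  have h2 := nonrem_le hn hA hρ hγ hcut hd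
  have h3 := Finset.card_filter_add_card_filter_not (s := HP A 4)
    (fun p : ρ × γ => Rem n A p.1 p.2)
  have h4 : ((HP A 4).filter (fun p => ¬ Rem n A p.1 p.2)).card ≤ (NR n A).card := by
    apply Finset.card_le_card
    intro p hp
    rw [Finset.mem_filter] at hp
    exact Finset.mem_filter.2 ⟨HP_mono (by norm_num) hp.1, hp.2⟩
  omega

end SA

end MP_c02e9e_co
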