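import Pool.Agent.Lib.MP_c02e9e_co.SA.HDefs

/-!
# Contraction of the non-removable H-paths: definitions
-/

namespace MP_c02e9e_co

namespace SA

open Finset

open scoped Classical

variable {ρ γ : Type} [Fintype ρ] [Fintype γ]

/-- The non-removable H-paths with big ends. -/
noncomputable def NR (n : ℕ) (A : ρ → γ → Prop) : Finset (ρ × γ) :=
  (HP A 3).filter (fun p => ¬ Rem n A p.1 p.2)

/-- The remaining rows. -/
abbrev RS (n : ℕ) (A : ρ → γ → Prop) : Type := {i : ρ // ∀ p ∈ NR n A, p.1 ≠ i}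

/-- The remaining columns. -/
abbrev CS (n : ℕ) (A : ρ → γ → Prop) : Type := {j : γ // ∀ p ∈ NR n A, p.2 ≠ j}

/-- The contracted relation: every non-removable H-path with big ends `u`, `v` is replaced by the
edge `(u,v)`. -/
def AS (n : ℕ) (A : ρ → γ → Prop) (i : RS n A) (j : CS n A) : Prop :=
  A i j ∨ ∃ p ∈ NR n A, HPath A p.1 p.2 i j

theorem mem_NR {n : ℕ} {A : ρ → γ → Prop} {p : ρ × γ} : p ∈ NR n A ↔
    (∃ u v, HPath A p.1 p.2 u v ∧ 3 ≤ dR A u ∧ 3 ≤ dC A v) ∧ ¬ Rem n A p.1 p.2 := by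
  rw [NR, Finset.mem_filter, mem_HP]

theorem NR_fst_inj {n : ℕ} {A : ρ → γ → Prop} {p q : ρ × γ} (hp : p ∈ NR n A) (hq : q ∈ NR n A)
    (h : p.1 = q.1) : p = q := by
  obtain ⟨⟨u, v, h1, h2, h3⟩, -⟩ := mem_NR.1 hp
  obtain ⟨⟨u', v', h1', h2', h3'⟩, -⟩ := mem_NR.1 hq
  rw [← h] at h1'
  exact Prod.ext h (h1.y_unique h1' h3 h3')

theorem NR_snd_inj {n : ℕ} {A : ρ → γ → Prop} {p q : ρ × γ} (hp : p ∈ NR n A) (hq : q ∈ NR n A)
    (h : p.2 = q.2) : p = q := by
  obtain ⟨⟨u, v, h1, h2, h3⟩, -⟩ := mem_NR.1 hp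
  obtain ⟨⟨u', v', h1', h2', h3'⟩, -⟩ := mem_NR.1 hq
  rw [← h] at h1'
  exact Prod.ext (h1.x_unique h1' h2 h2') h

/-- A row of degree at least three remains. -/
theorem row_mem {n : ℕ} {A : ρ → γ → Prop} {u : ρ} (hu : 3 ≤ dR A u) : ∀ p ∈ NR n A, p.1 ≠ u := by
  intro p hp he
  obtain ⟨⟨u', v', h1, -, -⟩, -⟩ := mem_NR.1 hp
  have := h1.dR_x
  rw [he] at this
  omega

/-- A column of degree at least three remains. -/
theorem col_mem {n : ℕ} {A : ρ → γ → Prop} {v : γ} (hv : 3 ≤ dC A v) : ∀ p ∈ NR n A, p.2 ≠ v := by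
  intro p hp he
  obtain ⟨⟨u', v', h1, -, -⟩, -⟩ := mem_NR.1 hp
  have := h1.dC_y
  rw [he] at this
  omega

theorem card_RS {n : ℕ} {A : ρ → γ → Prop} : Fintype.card (RS n A) + (NR n A).card =
    Fintype.card ρ := by
  have h1 : ((NR n A).image Prod.fst).card = (NR n A).card := by
    apply Finset.card_image_of_injOn
    intro p hp q hq h
    exact NR_fst_inj hp hq h
  have h2 : Fintype.card (RS n A) = (univ \ (NR n A).image Prod.fst).card := by
    rw [Fintype.card_subtype]
    congr 1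
    ext i
    simp only [Finset.mem_filter, Finset.mem_univ, true_and, Finset.mem_sdiff, Finset.mem_image,
      not_exists, not_and]
  rw [h2, ← h1, Finset.card_sdiff_of_subset (Finset.subset_univ _), Finset.card_univ]
  have : ((NR n A).image Prod.fst).card ≤ Fintype.card ρ := Finset.card_le_univ _
  omega

theorem card_CS {n : ℕ} {A : ρ → γ → Prop} : Fintype.card (CS n A) + (NR n A).card =
    Fintype.card γ := by
  have h1 : ((NR n A).image Prod.snd).card = (NR n A).card := by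
    apply Finset.card_image_of_injOn
    intro p hp q hq h
    exact NR_snd_inj hp hq h
  have h2 : Fintype.card (CS n A) = (univ \ (NR n A).image Prod.snd).card := by
    rw [Fintype.card_subtype]
    congr 1
    ext i
    simp only [Finset.mem_filter, Finset.mem_univ, true_and, Finset.mem_sdiff, Finset.mem_image,
      not_exists, not_and]
  rw [h2, ← h1, Finset.card_sdiff_of_subset (Finset.subset_univ _), Finset.card_univ]
  have : ((NR n A).image Prod.snd).card ≤ Fintype.card γ := Finset.card_le_univ _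
  omega

end SA

end MP_c02e9e_co
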