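import Pool.Agent.Lib.MP_c02e9e_co.H90Defs

/-!
# Nearly decomposable matrices with a given number of ones: definitions
-/

namespace MP_c02e9e_co

/-- The number of entries `1` of `A`. -/
def ones {n : ℕ} (A : BMat n) : ℕ :=
  (Finset.univ.filter (fun p : Fin n × Fin n => A p.1 p.2 = true)).card

/-- `N(n,m)`: the number of nearly decomposable matrices in `B_n` with exactly `m` ones. -/
noncomputable def numNDOnes (n m : ℕ) : ℕ :=
  Nat.card {A : BMat n // NearlyDecomposable A ∧ ones A = m}

end MP_c02e9e_co
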