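import Pool.Agent.Lib.MP_c02e9e_co.SA.OnesDefs
import Pool.Agent.Lib.MP_c02e9e_co.SA.M2FI
import Pool.Agent.Lib.MP_c02e9e_co.SA.M2Inj
import Pool.Agent.Lib.MP_c02e9e_co.SA.AnL
import Pool.Agent.Lib.MP_c02e9e_co.SA.AnU2

/-!
# The number of nearly decomposable matrices with a given number of ones: lower bound
-/

namespace MP_c02e9e_co

namespace SA

open Finset

open scoped Classical

theorem nE_rel_eq_ones {n : ℕ} (A : BMat n) : nE (rel A) = ones A := by
  unfold nE ones
  congr 1
  ext p
  rw [Finset.mem_filter, Finset.mem_filter]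
  rfl

theorem card_cls_eq {n d : ℕ} (hd : d ≤ 3 * n) : (cls n d).card = numNDOnes n (3 * n - d) := by
  unfold numNDOnes
  rw [Nat.card_eq_fintype_card, Fintype.card_subtype]
  unfold cls
  congr 1
  ext A
  simp only [Finset.mem_filter, Finset.mem_univ, true_and, nE_rel_eq_ones]
  constructor
  · rintro ⟨h1, h2⟩
    exact ⟨h1, by omega⟩
  · rintro ⟨h1, h2⟩
    exact ⟨h1, by omega⟩

/-- The number of ones in the family. -/
theorem nE_adjM {k l q : ℕ} (α : Fin q → Fin (k + 1)) (β : Fin q → Fin (l + 1)) :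
    nE (adjM α β) = 2 * k + 2 * l + 3 * (2 + q) := by
  have hA : ∀ (t : ℕ) (j : Fin t),
      (∑ i : Fin (t + 1), if (i = j.castSucc ∨ i = j.succ) then 1 else 0) = 2 := by
    intro t j
    rw [← Finset.card_filter]
    have : (univ.filter (fun i : Fin (t + 1) => i = j.castSucc ∨ i = j.succ)) =
        {j.castSucc, j.succ} := by
      ext i
      simp
    rw [this, Finset.card_pair]
    exact (Fin.castSucc_lt_succ (i := j)).ne
  have hB : ∀ (t : ℕ) (γ : Fin q → Fin (t + 1)) (p : Fin 2 ⊕ Fin q),
      (∑ i : Fin (t + 1), if he γ p = i then 1 else 0) = 1 := by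
    intro t γ p
    simp
  have hC : ∀ p : Fin 2 ⊕ Fin q, (∑ p' : Fin 2 ⊕ Fin q, if p = p' then 1 else 0) = 1 := by
    intro p
    simp
  have hD : ∀ (k l : ℕ) (f : RX k l q → ℕ), ∑ x, f x = ∑ i : Fin (k + 1), f (Sum.inl i) +
      (∑ j : Fin l, f (Sum.inr (Sum.inl j)) + ∑ p : Fin 2 ⊕ Fin q, f (Sum.inr (Sum.inr p))) := by
    intro k l f
    rw [Fintype.sum_sum_type, Fintype.sum_sum_type]
  have z1 : ∀ {a : RX k l q} {b : RX l k q}, ¬ adjM α β a b →
      (if adjM α β a b then 1 else 0) = 0 := fun h => if_neg h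
  have e1 : ∑ i : Fin (k + 1), (∑ b : RX l k q, if adjM α β (Sum.inl i) b then 1 else 0) =
      2 * k + (2 + q) := by
    have : ∀ i : Fin (k + 1), (∑ b : RX l k q, if adjM α β (Sum.inl i) b then 1 else 0) =
        (∑ j : Fin k, if (i = j.castSucc ∨ i = j.succ) then 1 else 0) +
        (∑ p : Fin 2 ⊕ Fin q, if he α p = i then 1 else 0) := by
      intro i
      rw [hD]
      rw [Finset.sum_congr rfl (fun i' _ => z1 (a := Sum.inl i) (b := Sum.inl i') (fun h => h)),
        Finset.sum_const_zero, zero_add]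
      congr 1
      · exact Finset.sum_congr rfl (fun j _ => if_congr Iff.rfl rfl rfl)
      · exact Finset.sum_congr rfl (fun j _ => if_congr Iff.rfl rfl rfl)
    rw [Finset.sum_congr rfl (fun i _ => this i), Finset.sum_add_distrib, Finset.sum_comm,
      Finset.sum_congr rfl (fun j _ => hA k j)]
    rw [Finset.sum_comm (s := univ) (t := univ)
      (f := fun (i : Fin (k + 1)) (p : Fin 2 ⊕ Fin q) => if he α p = i then 1 else 0),
      Finset.sum_congr rfl (fun p _ => hB k α p)]
    simp [mul_comm]
  have e2 : ∀ j : Fin l, (∑ b : RX l k q, if adjM α β (Sum.inr (Sum.inl j)) b then 1 else 0) = 2 := by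
    intro j
    rw [hD, Finset.sum_congr rfl (fun j' _ => z1 (a := Sum.inr (Sum.inl j))
      (b := Sum.inr (Sum.inl j')) (fun h => h)), Finset.sum_congr rfl (fun p _ => z1
      (a := Sum.inr (Sum.inl j)) (b := Sum.inr (Sum.inr p)) (fun h => h)),
      Finset.sum_const_zero, Finset.sum_const_zero, add_zero, add_zero]
    have f1 : (∑ i : Fin (l + 1), if adjM α β (Sum.inr (Sum.inl j)) (Sum.inl i) then 1 else 0) =
        ∑ i : Fin (l + 1), if (i = j.castSucc ∨ i = j.succ) then 1 else 0 :=
      Finset.sum_congr rfl (fun _ _ => if_congr Iff.rfl rfl rfl)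
    rw [f1, hA l j]
  have e3 : ∀ p : Fin 2 ⊕ Fin q,
      (∑ b : RX l k q, if adjM α β (Sum.inr (Sum.inr p)) b then 1 else 0) = 2 := by
    intro p
    rw [hD, Finset.sum_congr rfl (fun j' _ => z1 (a := Sum.inr (Sum.inr p))
      (b := Sum.inr (Sum.inl j')) (fun h => h)), Finset.sum_const_zero, zero_add]
    have f1 : (∑ i : Fin (l + 1), if adjM α β (Sum.inr (Sum.inr p)) (Sum.inl i) then 1 else 0) =
        ∑ i : Fin (l + 1), if he β p = i then 1 else 0 :=
      Finset.sum_congr rfl (fun j _ => if_congr Iff.rfl rfl rfl)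
    have f2 : (∑ p' : Fin 2 ⊕ Fin q, if adjM α β (Sum.inr (Sum.inr p)) (Sum.inr (Sum.inr p'))
        then 1 else 0) = ∑ p' : Fin 2 ⊕ Fin q, if p = p' then 1 else 0 :=
      Finset.sum_congr rfl (fun j _ => if_congr Iff.rfl rfl rfl)
    rw [f1, f2, hB l β p, hC p]
  unfold nE
  rw [Finset.card_filter, ← Finset.univ_product_univ, Finset.sum_product]
  rw [hD, e1, Finset.sum_congr rfl (fun j _ => e2 j), Finset.sum_congr rfl (fun p _ => e3 p)]
  simp
  ring

theorem nE_mmat {k l q n : ℕ} (t : MData k l q n) :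
    nE (rel (mmat t)) = nE (adjM t.2.2.1 t.2.2.2) := by
  unfold nE
  symm
  apply Finset.card_equiv (Equiv.prodCongr t.1 t.2.1)
  rintro ⟨a, b⟩
  simp [rel, mmat]

theorem mmat_mem_cls {k l q n : ℕ} (hn : n = k + l + 3 + q) (t : MData k l q n) :
    mmat t ∈ cls n (k + l + 3) := by
  unfold cls
  rw [Finset.mem_filter]
  refine ⟨Finset.mem_univ _, mmat_nd hn t, ?_⟩
  rw [nE_mmat, nE_adjM]
  omega

theorem card_MData {k l q n : ℕ} (hn : n = k + l + 3 + q) :
    Fintype.card (MData k l q n) =
      n.factorial * (n.factorial * ((k + 1) ^ q * (l + 1) ^ q)) := by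
  have hI : Fintype.card (RX k l q) = n := by
    simp only [RX, Fintype.card_sum, Fintype.card_fin]
    omega
  have hI' : Fintype.card (RX l k q) = n := by
    simp only [RX, Fintype.card_sum, Fintype.card_fin]
    omega
  have e : RX k l q ≃ Fin n := Fintype.equivFinOfCardEq hI
  have e' : RX l k q ≃ Fin n := Fintype.equivFinOfCardEq hI'
  have h1 : Fintype.card (RX k l q ≃ Fin n) = n.factorial := by
    rw [Fintype.card_equiv e, hI]
  have h1' : Fintype.card (RX l k q ≃ Fin n) = n.factorial := by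
    rw [Fintype.card_equiv e', hI']
  simp only [MData, Fintype.card_prod, h1, h1', Fintype.card_fun, Fintype.card_fin]

theorem lower_comb_cls {k l q n : ℕ} (hn : n = k + l + 3 + q) :
    n.factorial * ((k + 1) * (l + 1)) ^ q * (k + l + 3).factorial ≤
      (cls n (k + l + 3)).card * (n.choose (k + 1) * n.choose (l + 1)) * n ^ 4 := by
  have hinj : Function.Injective (fun t : MData k l q n =>
      ((⟨mmat t, mmat_mem_cls hn t⟩ : {A : BMat n // A ∈ cls n (k + l + 3)}), mextra t)) := by
    intro t t' h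
    simp only [Prod.mk.injEq, Subtype.mk.injEq] at h
    exact mmat_extra_injective (Prod.ext h.1 h.2)
  have h1 := Fintype.card_le_of_injective _ hinj
  rw [card_MData hn, Fintype.card_prod] at h1
  have h2 : Fintype.card {A : BMat n // A ∈ cls n (k + l + 3)} = (cls n (k + l + 3)).card := by
    rw [Fintype.card_coe]
  have h3 : Fintype.card ((Fin q ↪ Fin n) × (Fin 2 → Fin n) ×
      {U : Finset (Fin n) // U.card = k + 1} × {W : Finset (Fin n) // W.card = l + 1} ×
        Fin n × Fin n) =
      n.descFactorial q * (n ^ 2 * (n.choose (k + 1) * (n.choose (l + 1) * (n * n)))) := by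
    simp only [Fintype.card_prod, Fintype.card_embedding_eq, Fintype.card_fun, Fintype.card_fin,
      Fintype.card_finset_len]
  have h1 : n.factorial * (n.factorial * ((k + 1) ^ q * (l + 1) ^ q)) ≤
      (cls n (k + l + 3)).card * (n.descFactorial q * (n ^ 2 * (n.choose (k + 1) *
        (n.choose (l + 1) * (n * n))))) := by
    rw [← h2, ← h3]
    convert h1
  have h4 : (k + l + 3).factorial * n.descFactorial q = n.factorial := by
    have := Nat.factorial_mul_descFactorial (n := n) (k := q) (by omega)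
    rw [show n - q = k + l + 3 by omega] at this
    exact this
  have h5 : 0 < n.factorial := Nat.factorial_pos n
  apply Nat.le_of_mul_le_mul_left (c := n.factorial) _ h5
  calc n.factorial * (n.factorial * ((k + 1) * (l + 1)) ^ q * (k + l + 3).factorial)
      = (n.factorial * (n.factorial * ((k + 1) ^ q * (l + 1) ^ q))) * (k + l + 3).factorial := by
        rw [mul_pow]
        ring
    _ ≤ ((cls n (k + l + 3)).card * (n.descFactorial q * (n ^ 2 * (n.choose (k + 1) *
          (n.choose (l + 1) * (n * n)))))) * (k + l + 3).factorial :=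
        Nat.mul_le_mul_right _ h1
    _ = ((k + l + 3).factorial * n.descFactorial q) *
          ((cls n (k + l + 3)).card * (n.choose (k + 1) * n.choose (l + 1)) * n ^ 4) := by ring
    _ = n.factorial * ((cls n (k + l + 3)).card * (n.choose (k + 1) * n.choose (l + 1)) * n ^ 4) := by
        rw [h4]

end SA

end MP_c02e9e_co
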