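import Pool.Agent.Lib.MP_c02e9e_co.SA.Recur

/-!
# Consequences of the recursion
-/

namespace MP_c02e9e_co

namespace SA

open Finset

open scoped Classical

/-- PROOF. Induction on `j` with `recursion` for `m = 16 d + j` (`m ≥ 2` as `d ≥ 1`), where
`m + 1 - 8 d = 8 d + j + 1`, `Nat.factorial_succ`. -/
theorem iter {d : ℕ} (hd : 1 ≤ d) (j : ℕ) :
    (cls (16 * d + j) d).card * 4 ^ j * (8 * d + j).factorial * ((16 * d).factorial) ^ 2 ≤
      ((16 * d + j).factorial) ^ 2 * d ^ (2 * j) * (8 * d).factorial * (cls (16 * d) d).card := by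
  induction j with
  | zero =>
    simp only [Nat.add_zero, pow_zero, mul_one, Nat.mul_zero]
    exact le_of_eq (by ring)
  | succ j ih =>
    have hm : 2 ≤ 16 * d + j := by omega
    have h1 := recursion (m := 16 * d + j) (d := d) hm
    have e1 : 16 * d + j + 1 - 8 * d = 8 * d + j + 1 := by omega
    rw [e1] at h1
    have e2 : (8 * d + (j + 1)).factorial = (8 * d + j + 1) * (8 * d + j).factorial := by
      rw [← Nat.add_assoc, Nat.factorial_succ]
    have e3 : (16 * d + (j + 1)).factorial = (16 * d + j + 1) * (16 * d + j).factorial := by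
      rw [← Nat.add_assoc, Nat.factorial_succ]
    have e4 : (cls (16 * d + (j + 1)) d).card = (cls (16 * d + j + 1) d).card := rfl
    rw [e2, e3, e4]
    calc (cls (16 * d + j + 1) d).card * 4 ^ (j + 1) * ((8 * d + j + 1) * (8 * d + j).factorial) *
          ((16 * d).factorial) ^ 2
        = (4 * (8 * d + j + 1) * (cls (16 * d + j + 1) d).card) *
            (4 ^ j * (8 * d + j).factorial * ((16 * d).factorial) ^ 2) := by ring
      _ ≤ ((16 * d + j + 1) ^ 2 * d ^ 2 * (cls (16 * d + j) d).card) *
            (4 ^ j * (8 * d + j).factorial * ((16 * d).factorial) ^ 2) :=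
          Nat.mul_le_mul_right _ h1
      _ = (16 * d + j + 1) ^ 2 * d ^ 2 * ((cls (16 * d + j) d).card * 4 ^ j *
            (8 * d + j).factorial * ((16 * d).factorial) ^ 2) := by ring
      _ ≤ (16 * d + j + 1) ^ 2 * d ^ 2 * (((16 * d + j).factorial) ^ 2 * d ^ (2 * j) *
            (8 * d).factorial * (cls (16 * d) d).card) := Nat.mul_le_mul_left _ ih
      _ = ((16 * d + j + 1) * (16 * d + j).factorial) ^ 2 * d ^ (2 * (j + 1)) *
            (8 * d).factorial * (cls (16 * d) d).card := by ring

/-- PROOF. `supp` is injective (`supp_injective`) and maps `cls n d` into the subsets of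
`Fin n × Fin n` with exactly `3 n - d` elements (`supp A` is the set counted by `nE (rel A)`). -/
theorem cls_le_choose (n d : ℕ) : (cls n d).card ≤ (n * n).choose (3 * n - d) := by
  have h1 : (cls n d).card = ((cls n d).image supp).card :=
    (Finset.card_image_of_injective _ supp_injective).symm
  rw [h1]
  have h2 : ((univ : Finset (Fin n × Fin n)).powersetCard (3 * n - d)).card =
      (n * n).choose (3 * n - d) := by
    rw [Finset.card_powersetCard, Finset.card_univ, Fintype.card_prod, Fintype.card_fin]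
  rw [← h2]
  apply Finset.card_le_card
  intro S hS
  rw [Finset.mem_image] at hS
  obtain ⟨A, hA, rfl⟩ := hS
  rw [Finset.mem_powersetCard]
  refine ⟨Finset.subset_univ _, ?_⟩
  have h3 : nE (rel A) + d = 3 * n := (Finset.mem_filter.1 hA).2.2
  have h4 : (supp A).card = nE (rel A) := rfl
  omega

/-- PROOF. A nearly decomposable matrix has at most `3 n - 1` ones (`ones_lt`), so it is in
`cls n d` for `d = 3 n - nE (rel A) ∈ [1, 3 n]`; `numND_eq`, `Finset.card_biUnion_le`. -/
theorem numND_le_sum {n : ℕ} (hn : 2 ≤ n) : numND n ≤ ∑ d ∈ Finset.Icc 1 (3 * n), (cls n d).card := by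
  rw [numND_eq]
  refine le_trans (Finset.card_le_card ?_) Finset.card_biUnion_le
  intro A hA
  have hA' : NearlyDecomposable A := (Finset.mem_filter.1 hA).2
  have h1 := ones_lt hn hA'
  rw [Finset.mem_biUnion]
  refine ⟨3 * n - nE (rel A), ?_, ?_⟩
  · rw [Finset.mem_Icc]
    omega
  · exact Finset.mem_filter.2 ⟨Finset.mem_univ _, hA', by omega⟩

end SA

end MP_c02e9e_co
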