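import Pool.Agent.Lib.MP_c02e9e_co.SA.DelND
import Pool.Agent.Lib.MP_c02e9e_co.SA.NR4

/-!
# The recursion
-/

namespace MP_c02e9e_co

namespace SA

open Finset

open scoped Classical

/-- PROOF. Let `Ω` be the set of all `(A, p)` with `A ∈ cls (m+1) d` and
`p ∈ (HP (rel A) 4).filter (Rem ...)`. By `rem_count` every `A` has at least `m + 1 - 8 d` such `p`,
so `(m + 1 - 8 d) |cls (m+1) d| ≤ |Ω|` (`Finset.card_sigma` or `Finset.card_filter` sums). The map
`(x, y, B, q) ↦ (ins x y B q.1 q.2, (x,y))` from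
`Fin (m+1) × Fin (m+1) × {(B,q) | B ∈ cls m d, q ∈ adds B}` has all of `Ω` in its image: by
`mem_HP`, `del_nd`, `del_nE` (`nE (rel B) + 3 = nE (rel A)`, so `B ∈ cls m d`), `del_adds`. So
`|Ω| ≤ (m+1)^2 * ∑ B ∈ cls m d, |adds B|` and `4 |adds B| ≤ d ^ 2` by `adds_bound`. -/
theorem recursion {m d : ℕ} (hm : 2 ≤ m) :
    4 * (m + 1 - 8 * d) * (cls (m + 1) d).card ≤ (m + 1) ^ 2 * d ^ 2 * (cls m d).card := by
  set R : BMat (m + 1) → Finset (Fin (m + 1) × Fin (m + 1)) := fun A =>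
    (HP (rel A) 4).filter (fun p => Rem (m + 1) (rel A) p.1 p.2) with hR
  set Om : Finset (Σ _ : BMat (m + 1), Fin (m + 1) × Fin (m + 1)) :=
    (cls (m + 1) d).sigma (fun A => R A) with hOm
  set TT : Finset ((Fin (m + 1) × Fin (m + 1)) × (Σ _ : BMat m, Fin m × Fin m)) :=
    (univ : Finset (Fin (m + 1) × Fin (m + 1))) ×ˢ ((cls m d).sigma (fun B => adds B)) with hTT
  have h1 : (m + 1 - 8 * d) * (cls (m + 1) d).card ≤ Om.card := by
    rw [hOm, Finset.card_sigma]
    calc (m + 1 - 8 * d) * (cls (m + 1) d).card = ∑ _A ∈ cls (m + 1) d, (m + 1 - 8 * d) := by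
          rw [Finset.sum_const, smul_eq_mul, mul_comm]
      _ ≤ ∑ A ∈ cls (m + 1) d, (R A).card := by
          apply Finset.sum_le_sum
          intro A hA
          obtain ⟨-, hnd, hd⟩ := Finset.mem_filter.1 hA
          obtain ⟨hfi, hcut⟩ := (nd_iff (by omega) A).1 hnd
          have := rem_count (n := m + 1) (d := d) (by omega) hfi (Fintype.card_fin _)
            (Fintype.card_fin _) hcut hd
          change m + 1 - 8 * d ≤ ((HP (rel A) 4).filter
            (fun p => Rem (m + 1) (rel A) p.1 p.2)).card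
          omega
  have h2 : Om ⊆ TT.image (fun t => (⟨ins t.1.1 t.1.2 t.2.1 t.2.2.1 t.2.2.2, t.1⟩ :
      Σ _ : BMat (m + 1), Fin (m + 1) × Fin (m + 1))) := by
    rintro ⟨A, p⟩ hAp
    rw [hOm, Finset.mem_sigma] at hAp
    obtain ⟨hA, hp⟩ := hAp
    simp only at hA hp
    obtain ⟨hp1, hrem⟩ := Finset.mem_filter.1 hp
    obtain ⟨u, v, hpath, hu, hv⟩ := mem_HP.1 hp1
    obtain ⟨-, hnd, hd⟩ := Finset.mem_filter.1 hA
    obtain ⟨q, hq, hAq⟩ := del_adds hm hnd hpath hrem hu hv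
    have hnE := del_nE hpath
    rw [Finset.mem_image]
    refine ⟨(p, ⟨del A p.1 p.2, q⟩), ?_, ?_⟩
    · rw [hTT, Finset.mem_product, Finset.mem_sigma]
      refine ⟨Finset.mem_univ _, ?_, hq⟩
      refine Finset.mem_filter.2 ⟨Finset.mem_univ _, del_nd hm hnd hpath hrem, ?_⟩
      simp only
      omega
    · simp only
      rw [← hAq]
  have h3 : Om.card ≤ TT.card := (Finset.card_le_card h2).trans Finset.card_image_le
  have h4 : TT.card = (m + 1) ^ 2 * ∑ B ∈ cls m d, (adds B).card := by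
    rw [hTT, Finset.card_product, Finset.card_sigma, Finset.card_univ, Fintype.card_prod,
      Fintype.card_fin, pow_two]
  have h5 : 4 * ∑ B ∈ cls m d, (adds B).card ≤ d ^ 2 * (cls m d).card := by
    rw [Finset.mul_sum]
    calc ∑ B ∈ cls m d, 4 * (adds B).card ≤ ∑ _B ∈ cls m d, d ^ 2 := by
          apply Finset.sum_le_sum
          intro B hB
          obtain ⟨-, hnd, hd⟩ := Finset.mem_filter.1 hB
          exact adds_bound hm hnd hd
      _ = d ^ 2 * (cls m d).card := by rw [Finset.sum_const, smul_eq_mul, mul_comm]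
  calc 4 * (m + 1 - 8 * d) * (cls (m + 1) d).card =
        4 * ((m + 1 - 8 * d) * (cls (m + 1) d).card) := by ring
    _ ≤ 4 * TT.card := Nat.mul_le_mul_left 4 (h1.trans h3)
    _ = (m + 1) ^ 2 * (4 * ∑ B ∈ cls m d, (adds B).card) := by rw [h4]; ring
    _ ≤ (m + 1) ^ 2 * (d ^ 2 * (cls m d).card) := Nat.mul_le_mul_left _ h5
    _ = (m + 1) ^ 2 * d ^ 2 * (cls m d).card := by ring

end SA

end MP_c02e9e_co
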