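import Pool.Agent.Lib.MP_c02e9e_co.SA.CutU
import Pool.Agent.Lib.MP_c02e9e_co.SA.CutZ

/-!
# Richness is preserved
-/

namespace MP_c02e9e_co

namespace SA

open Finset

open scoped Classical

variable {Z U : Type} [Fintype Z] [Fintype U] {E F : Z ⊕ U → Z ⊕ U → Prop} {i0 : Z} {j0 : U}

/-- PROOF. If `y` is an unmarked neighbour of `inr w`: for `y = inr w'` use `some w'`; for
`y = inl v` use `none`: `E1 E (some w) none`, and `F1 F (some w) none` would give a marked edge
`(inr w, inl v')`, then `v = v'` by `Mod.uniq_UZ`, contradiction.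
If `3 ≤ dR E (inr w)`: if `w` has an edge to `Z` but no marked edge to `Z`, then `none` is an
unmarked neighbour. Otherwise `w` has at most one edge to `Z` (`Mod.uniq_UZ`), so
`inl v ↦ none`, `inr w' ↦ some w'` is injective from the neighbours of `inr w` to the
neighbours of `some w` in `E1 E`, so `3 ≤ dR (E1 E) (some w)` (`Finset.card_le_card_of_injOn`). -/
theorem Mod.richR_U (h : Mod E F i0 j0) {w : U} (hr : richR E F (Sum.inr w)) :
    richR (E1 E) (F1 F) (some w) := by
  rcases hr with ⟨y, hy, hny⟩ | h3
  · rcases y with v | w'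
    · refine Or.inl ⟨none, ⟨v, hy⟩, ?_⟩
      rintro ⟨v', hv'⟩
      have := h.uniq_UZ hv' hy
      rw [this] at hny
      exact hny hv'
    · exact Or.inl ⟨some w', hy, hny⟩
  · by_cases hE : ∃ v, E (Sum.inr w) (Sum.inl v)
    · by_cases hF : ∃ v, F (Sum.inr w) (Sum.inl v)
      · obtain ⟨v0, hv0⟩ := hF
        right
        refine h3.trans ?_
        unfold dR
        apply Finset.card_le_card_of_injOn
          (fun y => Sum.elim (fun _ => (none : Option U)) (fun w' => some w') y)
        · intro y hy
          simp only [Finset.coe_filter, Finset.mem_univ, true_and, Set.mem_ofPred_eq] at hy ⊢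
          rcases y with v | w'
          · exact ⟨v, hy⟩
          · exact hy
        · intro y hy y' hy' hyy
          simp only [Finset.coe_filter, Finset.mem_univ, true_and, Set.mem_ofPred_eq] at hy hy'
          rcases y with v | w' <;> rcases y' with v' | w''
          · rw [h.uniq_UZ hv0 hy, h.uniq_UZ hv0 hy']
          · simp at hyy
          · simp at hyy
          · simp only [Sum.elim_inr, Option.some.injEq] at hyy
            rw [hyy]
      · exact Or.inl ⟨none, hE, hF⟩
    · right
      refine h3.trans ?_
      unfold dR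
      apply Finset.card_le_card_of_injOn
        (fun y => Sum.elim (fun _ => (none : Option U)) (fun w' => some w') y)
      · intro y hy
        simp only [Finset.coe_filter, Finset.mem_univ, true_and, Set.mem_ofPred_eq] at hy ⊢
        rcases y with v | w'
        · exact ⟨v, hy⟩
        · exact hy
      · intro y hy y' hy' hyy
        simp only [Finset.coe_filter, Finset.mem_univ, true_and, Set.mem_ofPred_eq] at hy hy'
        rcases y with v | w' <;> rcases y' with v' | w''
        · exact absurd ⟨v, hy⟩ hE
        · simp at hyy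
        · simp at hyy
        · simp only [Sum.elim_inr, Option.some.injEq] at hyy
          rw [hyy]

/-- PROOF. An unmarked edge `(inr x, inr w)` stays; an unmarked edge `(inl a, inr w)` does not
exist (`h.exit`, `h.mark`). If `3 ≤ dC E (inr w)`: column `inr w` has at most one edge in rows of
`Z` (`h.exit`), so `inl a ↦ none`, `inr x ↦ some x` is injective on it, `3 ≤ dC (E1 E) (some w)`.
-/
theorem Mod.richC_U (h : Mod E F i0 j0) {w : U} (hr : richC E F (Sum.inr w)) :
    richC (E1 E) (F1 F) (some w) := by
  rcases hr with ⟨x, hx, hnx⟩ | h3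
  · rcases x with a | x
    · exfalso
      obtain ⟨rfl, rfl⟩ := h.exit _ _ hx
      exact hnx h.mark
    · exact Or.inl ⟨some x, hx, hnx⟩
  · right
    refine h3.trans ?_
    unfold dC
    apply Finset.card_le_card_of_injOn
      (fun y => Sum.elim (fun _ => (none : Option U)) (fun w' => some w') y)
    · intro y hy
      simp only [Finset.coe_filter, Finset.mem_univ, true_and, Set.mem_ofPred_eq] at hy ⊢
      rcases y with v | w'
      · exact ⟨v, hy⟩
      · exact hy
    · intro y hy y' hy' hyy
      simp only [Finset.coe_filter, Finset.mem_univ, true_and, Set.mem_ofPred_eq] at hy hy'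
      rcases y with v | w' <;> rcases y' with v' | w''
      · rw [(h.exit _ _ hy).1, (h.exit _ _ hy').1]
      · simp at hyy
      · simp at hyy
      · simp only [Sum.elim_inr, Option.some.injEq] at hyy
        rw [hyy]

theorem Mod.richR_none (_h : Mod E F i0 j0) : richR (E1 E) (F1 F) none :=
  Or.inl ⟨none, trivial, fun h => h⟩

theorem Mod.richC_none (_h : Mod E F i0 j0) : richC (E1 E) (F1 F) none :=
  Or.inl ⟨none, trivial, fun h => h⟩

/-- The pair `(i0, v)` with `v` an entrance (`Mod.exists_entr`) is an unmarked edge of `E0`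
(`Mod.entr_not_mark`). -/
theorem Mod.richR_i0 (h : Mod E F i0 j0) : richR (E0 E i0) (F0 F) i0 := by
  obtain ⟨v, hv⟩ := h.exists_entr
  exact Or.inl ⟨v, Or.inr ⟨rfl, hv⟩, h.entr_not_mark hv⟩

theorem Mod.richC_entr (h : Mod E F i0 j0) {v : Z} (hv : Entr E v) :
    richC (E0 E i0) (F0 F) v :=
  Or.inl ⟨i0, Or.inr ⟨rfl, hv⟩, h.entr_not_mark hv⟩

/-- PROOF. If `a = i0` use `Mod.richR_i0`. Otherwise all edges of row `inl a` are in `Z`
(`h.exit`), so an unmarked edge stays, and `dR E (inl a) ≤ dR (E0 E i0) a`. -/
theorem Mod.richR_Z (h : Mod E F i0 j0) {a : Z} (hr : richR E F (Sum.inl a)) :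
    richR (E0 E i0) (F0 F) a := by
  by_cases ha : a = i0
  · rw [ha]
    exact h.richR_i0
  · rcases hr with ⟨y, hy, hny⟩ | h3
    · rcases y with v | w'
      · exact Or.inl ⟨v, Or.inl hy, hny⟩
      · exact absurd (h.exit _ _ hy).1 ha
    · right
      refine h3.trans ?_
      unfold dR
      apply Finset.card_le_card_of_injOn (fun y => Sum.elim (fun v => v) (fun _ => i0) y)
      · intro y hy
        simp only [Finset.coe_filter, Finset.mem_univ, true_and, Set.mem_ofPred_eq] at hy ⊢
        rcases y with v | w'
        · exact Or.inl hy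
        · exact absurd (h.exit _ _ hy).1 ha
      · intro y hy y' hy' hyy
        simp only [Finset.coe_filter, Finset.mem_univ, true_and, Set.mem_ofPred_eq] at hy hy'
        rcases y with v | w'
        · rcases y' with v' | w''
          · simp only [Sum.elim_inl] at hyy
            rw [hyy]
          · exact absurd (h.exit _ _ hy').1 ha
        · exact absurd (h.exit _ _ hy).1 ha

/-- PROOF. If `b` is an entrance use `Mod.richC_entr`. Otherwise all edges of the column `inl b`
are in rows of `Z`. -/
theorem Mod.richC_Z (h : Mod E F i0 j0) {b : Z} (hr : richC E F (Sum.inl b)) :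
    richC (E0 E i0) (F0 F) b := by
  by_cases hb : Entr E b
  · exact h.richC_entr hb
  · rcases hr with ⟨x, hx, hnx⟩ | h3
    · rcases x with a | w
      · exact Or.inl ⟨a, Or.inl hx, hnx⟩
      · exact absurd ⟨w, hx⟩ hb
    · right
      refine h3.trans ?_
      unfold dC
      apply Finset.card_le_card_of_injOn (fun y => Sum.elim (fun v => v) (fun _ => i0) y)
      · intro y hy
        simp only [Finset.coe_filter, Finset.mem_univ, true_and, Set.mem_ofPred_eq] at hy ⊢
        rcases y with v | w'
        · exact Or.inl hy
        · exact absurd ⟨w', hy⟩ hb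
      · intro y hy y' hy' hyy
        simp only [Finset.coe_filter, Finset.mem_univ, true_and, Set.mem_ofPred_eq] at hy hy'
        rcases y with v | w'
        · rcases y' with v' | w''
          · simp only [Sum.elim_inl] at hyy
            rw [hyy]
          · exact absurd ⟨w'', hy'⟩ hb
        · exact absurd ⟨w', hy⟩ hb

end SA

end MP_c02e9e_co
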