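import Pool.Agent.Lib.MP_c02e9e_co.SA.Base

/-!
# The sink component of `D - h`
-/

namespace MP_c02e9e_co

namespace SA

open Finset

open scoped Classical

/-- PROOF. Call a finset `S` weakly closed if it is nonempty and `a ∈ S`, `E a b`,
`(a,b) ≠ (i0,j0)` imply `b ∈ S`. Let `(S0,T0)` be a cut of the marked edge `(i0,j0)`
(`hG.cut`). By `IsCut.compl` (`hd`, `i0 ≠ j0`) `T0` is the complement of `S0`, hence `S0` is
weakly closed (`i0 ∈ S0`; an edge from `S0` to the complement is in the rectangle, so it is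
`(i0,j0)`), and `j0 ∉ S0`. Let `Z` be a weakly closed set of least cardinality
(`exists_min_image` over the filtered powerset, or `Nat.find`). Then `|Z| ≤ |S0| < |V|`, so
`Z ≠ univ`.
* `i0 ∈ Z` and `j0 ∉ Z`: otherwise `Z` is closed (`a ∈ Z`, `E a b` imply `b ∈ Z`) and
  `FIr.closed` gives `Z = univ`.
* exit property: by definition of weakly closed.
* `2 ≤ |Z|`: the row `i0` has an edge to some `c ≠ i0, j0` (as `3 ≤ dR E i0`), and `c ∈ Z`.
* last property: such an `S` is weakly closed (an edge `(a,b) ≠ (i0,j0)` with `a ∈ S ⊆ Z` has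
  `b ∈ Z`, hence `b ∈ S`), so `|Z| ≤ |S|` and `S = Z` (`Finset.eq_of_subset_of_card_le`). -/
theorem exists_sink {V : Type} [Fintype V] {E F : V → V → Prop} (hG : Good E F)
    (hd : ∀ i, E i i) {i0 j0 : V} (hne : i0 ≠ j0) (hF : F i0 j0) (h3 : 3 ≤ dR E i0) :
    ∃ Z : Finset V, i0 ∈ Z ∧ j0 ∉ Z ∧ 2 ≤ Z.card ∧
      (∀ a ∈ Z, ∀ b, b ∉ Z → E a b → a = i0 ∧ b = j0) ∧
      (∀ S ⊆ Z, S.Nonempty → (∀ a ∈ S, ∀ b ∈ Z, E a b → b ∈ S) → S = Z) := by
  classical
  obtain ⟨S0, T0, hc⟩ := hG.cut i0 j0 hF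
  have hcomp := hc.compl hd hne
  obtain ⟨Z, hZ, hmin⟩ := Finset.exists_min_image
    (univ.filter (fun S : Finset V => S.Nonempty ∧
      ∀ a ∈ S, ∀ b, E a b → ¬ (a = i0 ∧ b = j0) → b ∈ S)) Finset.card (by
    refine ⟨S0, ?_⟩
    rw [Finset.mem_filter]
    refine ⟨Finset.mem_univ _, ⟨i0, hc.hu⟩, ?_⟩
    intro a ha b hab hn
    by_contra hb
    exact hn (hc.only a ha b ((hcomp b).2 hb) hab))
  rw [Finset.mem_filter] at hZ
  obtain ⟨-, hZne, hZcl⟩ := hZ
  have hmin' : ∀ S : Finset V, S.Nonempty →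
      (∀ a ∈ S, ∀ b, E a b → ¬ (a = i0 ∧ b = j0) → b ∈ S) → Z.card ≤ S.card := by
    intro S h1 h2
    exact hmin S (by rw [Finset.mem_filter]; exact ⟨Finset.mem_univ _, h1, h2⟩)
  have hj0 : j0 ∉ S0 := (hcomp j0).1 hc.hv
  have hZu : Z ≠ univ := by
    intro h
    have h1 : Z.card ≤ S0.card := hmin' S0 ⟨i0, hc.hu⟩ (by
      intro a ha b hab hn
      by_contra hb
      exact hn (hc.only a ha b ((hcomp b).2 hb) hab))
    rw [h] at h1
    have h2 : S0 = univ := Finset.eq_of_subset_of_card_le (Finset.subset_univ _) h1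
    exact hj0 (by rw [h2]; exact Finset.mem_univ _)
  have hij : i0 ∈ Z ∧ j0 ∉ Z := by
    by_contra hcon
    apply hZu
    apply hG.fi.closed hZne
    intro a ha b hab
    by_contra hb
    apply hb
    apply hZcl a ha b hab
    rintro ⟨rfl, rfl⟩
    exact hcon ⟨ha, hb⟩
  refine ⟨Z, hij.1, hij.2, ?_, ?_, ?_⟩
  · have h4 : ((univ.filter (fun j => E i0 j)) \ {i0, j0}).Nonempty := by
      rw [← Finset.card_pos]
      have h5 := Finset.le_card_sdiff ({i0, j0} : Finset V) (univ.filter (fun j => E i0 j))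
      have h6 : ({i0, j0} : Finset V).card ≤ 2 := Finset.card_le_two
      have h7 : 3 ≤ (univ.filter (fun j => E i0 j)).card := h3
      omega
    obtain ⟨c, hcc⟩ := h4
    rw [Finset.mem_sdiff, Finset.mem_filter, Finset.mem_insert, Finset.mem_singleton,
      not_or] at hcc
    have hcZ : c ∈ Z := hZcl i0 hij.1 c hcc.1.2 (fun h => hcc.2.2 h.2)
    exact Finset.one_lt_card.2 ⟨c, hcZ, i0, hij.1, hcc.2.1⟩
  · intro a ha b hb hab
    by_contra hn
    exact hb (hZcl a ha b hab hn)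
  · intro S hS hSne hScl
    apply Finset.eq_of_subset_of_card_le hS
    apply hmin' S hSne
    intro a ha b hab hn
    exact hScl a ha b (hZcl a (hS ha) b hab hn) hab

end SA

end MP_c02e9e_co
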