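import Pool.Agent.Lib.MP_c02e9e_co.SA.Base

/-!
# Renaming rows and columns
-/

namespace MP_c02e9e_co

namespace SA

open Finset

open scoped Classical

variable {V W : Type} [Fintype V] [Fintype W]

omit [Fintype V] [Fintype W] in
private theorem tr_mem (e : W ≃ V) (S : Finset V) (x : W) :
    x ∈ S.map e.symm.toEmbedding ↔ e x ∈ S := by
  rw [Finset.mem_map_equiv, Equiv.symm_symm]

omit [Fintype V] [Fintype W] in
private theorem tr_mem' (e : W ≃ V) (S : Finset W) (x : W) :
    e x ∈ S.map e.toEmbedding ↔ x ∈ S := by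
  rw [Finset.mem_map_equiv, Equiv.symm_apply_apply]

private theorem tr_dR (A : V → V → Prop) (e1 e2 : W ≃ V) (i : W) :
    dR (fun i j => A (e1 i) (e2 j)) i = dR A (e1 i) := by
  unfold dR
  refine Finset.card_bij (fun j _ => e2 j) ?_ ?_ ?_
  · intro j hj
    simpa using hj
  · intro a _ b _ hab
    exact e2.injective hab
  · intro b hb
    refine ⟨e2.symm b, ?_, by simp⟩
    simpa using hb

private theorem tr_dC (A : V → V → Prop) (e1 e2 : W ≃ V) (j : W) :
    dC (fun i j => A (e1 i) (e2 j)) j = dC A (e2 j) :=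
  tr_dR (fun j i => A i j) e2 e1 j

private theorem tr_nE (A : V → V → Prop) (e1 e2 : W ≃ V) :
    nE (fun i j => A (e1 i) (e2 j)) = nE A := by
  rw [nE_eq_sum_dR, nE_eq_sum_dR, ← Equiv.sum_comp e1]
  exact Finset.sum_congr rfl fun i _ => tr_dR A e1 e2 i

/-- PROOF. Map the sets `S ⊆ W` to `S.map e1.toEmbedding`, `T` to `T.map e2.toEmbedding`
(cardinalities are preserved, `Fintype.card W = Fintype.card V` by `Fintype.card_congr e1`). -/
theorem FIr.transport {E : V → V → Prop} (h : FIr (Fintype.card V) E) (e1 e2 : W ≃ V) :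
    FIr (Fintype.card W) (fun i j => E (e1 i) (e2 j)) := by
  intro S T hS hT hc
  obtain ⟨i, hi, j, hj, hij⟩ := h (S.map e1.toEmbedding) (T.map e2.toEmbedding)
    (hS.map) (hT.map) (by
      rw [Finset.card_map, Finset.card_map, ← Fintype.card_congr e1]; exact hc)
  rw [Finset.mem_map] at hi hj
  obtain ⟨i', hi', rfl⟩ := hi
  obtain ⟨j', hj', rfl⟩ := hj
  exact ⟨i', hi', j', hj', hij⟩

/-- A cut of the renamed relation gives a cut of the original one (images under `e1`, `e2`). -/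
theorem IsCut.push {E : V → V → Prop} (e1 e2 : W ≃ V) {u v : W} {S T : Finset W}
    (h : IsCut (Fintype.card W) (fun i j => E (e1 i) (e2 j)) u v S T) :
    IsCut (Fintype.card V) E (e1 u) (e2 v) (S.map e1.toEmbedding) (T.map e2.toEmbedding) := by
  refine ⟨(tr_mem' e1 S u).2 h.hu, (tr_mem' e2 T v).2 h.hv, ?_, ?_⟩
  · rw [Finset.card_map, Finset.card_map, ← Fintype.card_congr e1]; exact h.card
  · intro i hi j hj hij
    rw [Finset.mem_map] at hi hj
    obtain ⟨i', hi', rfl⟩ := hi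
    obtain ⟨j', hj', rfl⟩ := hj
    obtain ⟨h1, h2⟩ := h.only i' hi' j' hj' hij
    exact ⟨congrArg e1 h1, congrArg e2 h2⟩

/-- A cut of the original relation gives a cut of the renamed one (apply the previous theorem
to the inverse renaming, or use the images under `e1.symm`, `e2.symm`). -/
theorem IsCut.pull {E : V → V → Prop} (e1 e2 : W ≃ V) {u v : W} {S T : Finset V}
    (h : IsCut (Fintype.card V) E (e1 u) (e2 v) S T) :
    IsCut (Fintype.card W) (fun i j => E (e1 i) (e2 j)) u v (S.map e1.symm.toEmbedding)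
      (T.map e2.symm.toEmbedding) := by
  refine ⟨(tr_mem e1 S u).2 h.hu, (tr_mem e2 T v).2 h.hv, ?_, ?_⟩
  · rw [Finset.card_map, Finset.card_map, Fintype.card_congr e1]; exact h.card
  · intro i hi j hj hij
    obtain ⟨h1, h2⟩ := h.only (e1 i) ((tr_mem e1 S i).1 hi) (e2 j) ((tr_mem e2 T j).1 hj) hij
    exact ⟨e1.injective h1, e2.injective h2⟩

theorem Good.transport {E F : V → V → Prop} (h : Good E F) (e1 e2 : W ≃ V) :
    Good (fun i j => E (e1 i) (e2 j)) (fun i j => F (e1 i) (e2 j)) := by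
  refine ⟨h.fi.transport e1 e2, fun i j hij => h.sub _ _ hij, fun i j hij => ?_⟩
  obtain ⟨S, T, hc⟩ := h.cut _ _ hij
  exact ⟨_, _, hc.pull e1 e2⟩

/-- PROOF. Let `E' i j = E (e1 i) (e2 j)`, `F'` likewise. One shows `Hp E' F' a b ↔
Hp E F (e1 a) (e2 b)` (degrees: `dR E' i = dR E (e1 i)`, `dC E' j = dC E (e2 j)`, by
`Finset.card_bij`/`Finset.card_nbij'`/`Finset.card_map` with the equivalences; cuts: `push`,
`pull`; only the direction `←` (from `Hp E F (e1 a) (e2 b)` to `Hp E' F' a b`) is really needed),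
`nE F' = nE F`, `nE (Hp E F) ≤ nE (Hp E' F')`, `dC (Hp E F) b ≤ dC (Hp E' F') (e2.symm b)`,
`dR (Hp E F) a ≤ dR (Hp E' F') (e1.symm a)`; the same `r`, `c` work. -/
theorem Bd.transport {E F : V → V → Prop} (e1 e2 : W ≃ V)
    (h : Bd (fun i j => E (e1 i) (e2 j)) (fun i j => F (e1 i) (e2 j))) : Bd E F := by
  obtain ⟨r, c, h1, h2, h3, h4⟩ := h
  have key : ∀ a b : W, Hp E F (e1 a) (e2 b) →
      Hp (fun i j => E (e1 i) (e2 j)) (fun i j => F (e1 i) (e2 j)) a b := by
    rintro a b ⟨hr, hc, hadd⟩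
    refine ⟨?_, ?_, ?_⟩
    · rcases hr with ⟨j, hj1, hj2⟩ | hr
      · exact Or.inl ⟨e2.symm j, by simpa using hj1, by simpa using hj2⟩
      · exact Or.inr (by rw [tr_dR E e1 e2 a]; exact hr)
    · rcases hc with ⟨i, hi1, hi2⟩ | hc
      · exact Or.inl ⟨e1.symm i, by simpa using hi1, by simpa using hi2⟩
      · exact Or.inr (by rw [tr_dC E e1 e2 b]; exact hc)
    · intro u v huv
      obtain ⟨S, T, hcut, hn⟩ := hadd _ _ huv
      refine ⟨_, _, hcut.pull e1 e2, ?_⟩
      rintro ⟨ha, hb⟩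
      exact hn ⟨(tr_mem e1 S a).1 ha, (tr_mem e2 T b).1 hb⟩
  refine ⟨r, c, ?_, ?_, ?_, ?_⟩
  · rw [tr_nE F e1 e2, Fintype.card_congr e1] at h1
    exact h1
  · refine le_trans ?_ h2
    rw [← tr_nE (Hp E F) e1 e2]
    exact nE_mono key
  · intro b
    have h5 := h3 (e2.symm b)
    refine le_trans ?_ h5
    have h6 := tr_dC (Hp E F) e1 e2 (e2.symm b)
    rw [Equiv.apply_symm_apply] at h6
    rw [← h6]
    exact dC_mono key _
  · intro a
    have h5 := h4 (e1.symm a)
    refine le_trans ?_ h5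
    have h6 := tr_dR (Hp E F) e1 e2 (e1.symm a)
    rw [Equiv.apply_symm_apply] at h6
    rw [← h6]
    exact dR_mono key _

end SA

end MP_c02e9e_co
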