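import Pool.Agent.Lib.MP_c02e9e_co.SA.ModLem
import Pool.Agent.Lib.MP_c02e9e_co.SA.Hall
import Pool.Agent.Lib.MP_c02e9e_co.SA.Transp
import Pool.Agent.Lib.MP_c02e9e_co.SA.Case3
import Pool.Agent.Lib.MP_c02e9e_co.SA.Sink

/-!
# Theorem A
-/

namespace MP_c02e9e_co

namespace SA

open Finset

open scoped Classical

/-- The inductive step in the presence of a marked arc whose tail has degree at least three. -/
theorem step_sink {V : Type} [Fintype V] {E F : V → V → Prop}
    (ih : ∀ (W : Type) [Fintype W] (E F : W → W → Prop), Fintype.card W < Fintype.card V →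
      2 ≤ Fintype.card W → Good E F → Bd E F)
    (hG : Good E F) (hd : ∀ i, E i i) {i0 j0 : V} (hne : i0 ≠ j0) (hF : F i0 j0)
    (h3 : 3 ≤ dR E i0) : Bd E F := by
  obtain ⟨Z, hi, hj, hZ2, hex, hcl⟩ := exists_sink hG hd hne hF h3
  let e : {x // x ∈ Z} ⊕ {x // x ∉ Z} ≃ V := Equiv.sumCompl (fun x => x ∈ Z)
  apply Bd.transport e e
  have hM : Mod (fun i j => E (e i) (e j)) (fun i j => F (e i) (e j)) ⟨i0, hi⟩ ⟨j0, hj⟩ := by
    refine ⟨hG.transport e e, fun x => hd _, ?_, ?_, ?_, hF, ?_⟩
    · rw [Fintype.card_coe]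
      exact hZ2
    · refine fir_of_closed (V := {x // x ∈ Z}) (fun i => hd (e (Sum.inl i))) ?_
      intro S hS hc
      have := hcl (S.map ⟨Subtype.val, Subtype.val_injective⟩) (by
        intro x hx
        rw [Finset.mem_map] at hx
        obtain ⟨y, -, rfl⟩ := hx
        exact y.2) (hS.map) (by
        intro a ha b hb hab
        rw [Finset.mem_map] at ha
        obtain ⟨y, hy, rfl⟩ := ha
        rw [Finset.mem_map]
        exact ⟨⟨b, hb⟩, hc y hy ⟨b, hb⟩ hab, rfl⟩)
      apply Finset.eq_univ_of_forall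
      intro x
      have hx : (x : V) ∈ S.map ⟨Subtype.val, Subtype.val_injective⟩ := by
        rw [this]
        exact x.2
      rw [Finset.mem_map] at hx
      obtain ⟨y, hy, hxy⟩ := hx
      have : y = x := Subtype.ext hxy
      rwa [← this]
    · refine h3.trans (le_of_eq ?_)
      unfold dR
      symm
      apply Finset.card_bij (fun a _ => e a)
      · intro a ha
        simp only [Finset.mem_filter, Finset.mem_univ, true_and] at ha ⊢
        exact ha
      · intro a _ b _ hab
        exact e.injective hab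
      · intro b hb
        refine ⟨e.symm b, ?_, e.apply_symm_apply b⟩
        simp only [Finset.mem_filter, Finset.mem_univ, true_and] at hb ⊢
        rw [e.apply_symm_apply]
        exact hb
    · intro a b hab
      obtain ⟨h1, h2⟩ := hex _ a.2 _ b.2 hab
      exact ⟨Subtype.ext h1, Subtype.ext h2⟩
  have hcard : Fintype.card {x // x ∈ Z} + Fintype.card {x // x ∉ Z} = Fintype.card V := by
    rw [← Fintype.card_sum]
    exact Fintype.card_congr e
  have hZc : Fintype.card {x // x ∈ Z} = Z.card := Fintype.card_coe Z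
  have hUc : 1 ≤ Fintype.card {x // x ∉ Z} := Fintype.card_pos_iff.2 ⟨⟨j0, hj⟩⟩
  apply hM.bd
  · apply ih _ _ _ _ _ hM.good1
    · rw [Fintype.card_option]
      omega
    · rw [Fintype.card_option]
      omega
  · apply ih _ _ _ _ _ hM.good0
    · omega
    · omega

/-- Theorem A. -/
theorem thmA_aux : ∀ (n : ℕ) (V : Type) [Fintype V] (E F : V → V → Prop), Fintype.card V = n →
    2 ≤ n → Good E F → Bd E F := by
  intro n
  induction n using Nat.strong_induction_on with
  | _ n ih =>
  intro V _ E F hn h2 hG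
  have ih' : ∀ (W : Type) [Fintype W] (E F : W → W → Prop), Fintype.card W < Fintype.card V →
      2 ≤ Fintype.card W → Good E F → Bd E F := by
    intro W _ E' F' hW hW2 hG'
    exact ih (Fintype.card W) (by omega) W E' F' rfl hW2 hG'
  haveI : Nonempty V := Fintype.card_pos_iff.1 (by omega)
  -- full diagonal
  obtain ⟨σ, hσ⟩ := exists_matching hG.fi
  apply Bd.transport (Equiv.refl V) σ
  have hG2 := hG.transport (Equiv.refl V) σ
  have hd : ∀ i, E ((Equiv.refl V) i) (σ i) := hσ
  set E' : V → V → Prop := fun i j => E ((Equiv.refl V) i) (σ j) with hE'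
  set F' : V → V → Prop := fun i j => F ((Equiv.refl V) i) (σ j) with hF'
  by_cases h3 : ∀ i j, i ≠ j → F' i j → dR E' i ≤ 2 ∧ dC E' j ≤ 2
  · exact case3 hG2 hd h3
  · push Not at h3
    obtain ⟨i, j, hij, hF, hdeg⟩ := h3
    by_cases hi : 3 ≤ dR E' i
    · exact step_sink ih' hG2 hd hij hF hi
    · have hj := hdeg (by omega)
      apply Bd.swap
      exact step_sink ih' hG2.swap (fun i => hd i) (Ne.symm hij) hF hj

theorem thmA {V : Type} [Fintype V] {E F : V → V → Prop} (h2 : 2 ≤ Fintype.card V)
    (hG : Good E F) : Bd E F := thmA_aux _ V E F rfl h2 hG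

end SA

end MP_c02e9e_co
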